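import Pool.Agent.Lib_MP_92ef0c_sh.Defs

/-! # [SH-C1] greedy colouring -/

set_option autoImplicit false

namespace Pool.MP_92ef0c_nt.SH

open Finset

/-- [SH-C1] PROOF: induction on `T` (`Finset.induction_on_max`): the new maximal element gets a colour `≤ Δ` not
used by its at most `Δ` predecessors `m` with `R m n`. -/
theorem greedy (T : Finset ℕ) (R : ℕ → ℕ → Prop) (Δ : ℕ)
    (hdeg : ∀ n ∈ T, (open Classical in (T.filter (fun m => m < n ∧ R m n)).card) ≤ Δ) :
    ∃ col : ℕ → ℕ, (∀ n, col n ≤ Δ) ∧
      ∀ n ∈ T, ∀ m ∈ T, m < n → R m n → col m ≠ col n := by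
  classical
  have key : ∀ T : Finset ℕ, (∀ n ∈ T, (T.filter (fun m => m < n ∧ R m n)).card ≤ Δ) →
      ∃ col : ℕ → ℕ, (∀ n, col n ≤ Δ) ∧
        ∀ n ∈ T, ∀ m ∈ T, m < n → R m n → col m ≠ col n := by
    intro T
    induction T using Finset.induction_on_max with
    | empty => exact fun _ => ⟨fun _ => 0, fun _ => Nat.zero_le _, by simp⟩
    | insert a T ha ih =>
      intro h
      have hT : ∀ n ∈ T, (T.filter (fun m => m < n ∧ R m n)).card ≤ Δ := by
        intro n hn
        refine le_trans (Finset.card_le_card ?_) (h n (Finset.mem_insert_of_mem hn))
        exact Finset.filter_subset_filter _ (Finset.subset_insert _ _)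
      obtain ⟨col, hc, hcol⟩ := ih hT
      have haT : a ∉ T := fun h => lt_irrefl _ (ha a h)
      have hcard : ((T.filter (fun m => m < a ∧ R m a)).image col).card ≤ Δ := by
        refine Finset.card_image_le.trans
          (le_trans (Finset.card_le_card ?_) (h a (Finset.mem_insert_self _ _)))
        exact Finset.filter_subset_filter _ (Finset.subset_insert _ _)
      obtain ⟨c, hc1, hc2⟩ : ∃ c ∈ Finset.range (Δ + 1),
          c ∉ (T.filter (fun m => m < a ∧ R m a)).image col := by
        by_contra hcon
        push Not at hcon
        have h1 := Finset.card_le_card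
          (show Finset.range (Δ + 1) ⊆ (T.filter (fun m => m < a ∧ R m a)).image col from hcon)
        rw [Finset.card_range] at h1
        omega
      refine ⟨Function.update col a c, ?_, ?_⟩
      · intro n
        by_cases hn : n = a
        · rw [hn, Function.update_self]
          have := Finset.mem_range.mp hc1
          omega
        · rw [Function.update_of_ne hn]
          exact hc n
      · intro n hn m hm hmn hR
        rw [Finset.mem_insert] at hn hm
        rcases hn with hn | hn
        · rcases hm with hm | hm
          · omega
          · have hma : m ≠ a := fun h => haT (h ▸ hm)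
            rw [hn, Function.update_self, Function.update_of_ne hma]
            intro he
            apply hc2
            rw [← he]
            exact Finset.mem_image_of_mem _ (Finset.mem_filter.mpr ⟨hm, hn ▸ hmn, hn ▸ hR⟩)
        · have h1 := ha n hn
          have hna : n ≠ a := by omega
          have hma : m ≠ a := by omega
          rw [Function.update_of_ne hna, Function.update_of_ne hma]
          exact hcol n hn m (hm.resolve_left hma) hmn hR
  exact key T (fun n hn => by convert hdeg n hn)

end Pool.MP_92ef0c_nt.SH
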