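import Pool.Agent.Lib_MP_92ef0c_sh.Defs
import Pool.Agent.Lib_MP_92ef0c_sh.Greedy

/-! # [SH-C1, C2] colouring, interference of linear forms -/

set_option autoImplicit false

namespace Pool.MP_92ef0c_nt.SH

open Finset

/-- some value of a form at `m` and some value of a form at `n` differ by at most `W` -/
def Inter (L : Finset (ℕ × ℕ)) (W m n : ℕ) : Prop :=
  ∃ l ∈ L, ∃ l' ∈ L, l.1 * m + l.2 ≤ l'.1 * n + l'.2 + W ∧ l'.1 * n + l'.2 ≤ l.1 * m + l.2 + W

/-- two forms with different leading coefficients have values at `n` which differ by at most `W` -/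
def Exc (L : Finset (ℕ × ℕ)) (W n : ℕ) : Prop :=
  ∃ l ∈ L, ∃ l' ∈ L, l.1 ≠ l'.1 ∧
    l.1 * n + l.2 ≤ l'.1 * n + l'.2 + W ∧ l'.1 * n + l'.2 ≤ l.1 * n + l.2 + W

/-- [SH-C2a] PROOF: the set is the union over `(l, l') ∈ L ×ˢ L` of sets on which
`m ↦ l.1 * m + l.2` is injective with values in an interval with `2 W + 1` elements. -/
theorem inter_deg (L : Finset (ℕ × ℕ)) (h0 : ∀ l ∈ L, 0 < l.1) (W : ℕ) (T : Finset ℕ) (n : ℕ) :
    (open Classical in (T.filter (fun m => Inter L W m n)).card) ≤ L.card ^ 2 * (2 * W + 1) := by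
  classical
  have hsub : T.filter (fun m => Inter L W m n) ⊆ (L ×ˢ L).biUnion (fun p =>
      T.filter (fun m => p.1.1 * m + p.1.2 ≤ p.2.1 * n + p.2.2 + W ∧
        p.2.1 * n + p.2.2 ≤ p.1.1 * m + p.1.2 + W)) := by
    intro m hm
    rw [mem_filter] at hm
    obtain ⟨hmT, l, hl, l', hl', h1, h2⟩ := hm
    rw [mem_biUnion]
    exact ⟨(l, l'), mem_product.2 ⟨hl, hl'⟩, mem_filter.2 ⟨hmT, h1, h2⟩⟩
  have hcard : ∀ p ∈ L ×ˢ L, (T.filter (fun m => p.1.1 * m + p.1.2 ≤ p.2.1 * n + p.2.2 + W ∧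
        p.2.1 * n + p.2.2 ≤ p.1.1 * m + p.1.2 + W)).card ≤ 2 * W + 1 := by
    intro p hp
    have hp1 : 0 < p.1.1 := h0 _ (mem_product.1 hp).1
    have h1 : (T.filter (fun m => p.1.1 * m + p.1.2 ≤ p.2.1 * n + p.2.2 + W ∧
        p.2.1 * n + p.2.2 ≤ p.1.1 * m + p.1.2 + W)).card
        ≤ (Icc (p.2.1 * n + p.2.2 - W) (p.2.1 * n + p.2.2 + W)).card := by
      refine card_le_card_of_injOn (fun m => p.1.1 * m + p.1.2) ?_ ?_
      · intro m hm
        rw [mem_coe, mem_filter] at hm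
        rw [mem_coe, mem_Icc]
        obtain ⟨_, h1, h2⟩ := hm
        refine ⟨?_, h1⟩
        show p.2.1 * n + p.2.2 - W ≤ p.1.1 * m + p.1.2
        omega
      · intro a _ b _ hab
        have hab' : p.1.1 * a + p.1.2 = p.1.1 * b + p.1.2 := hab
        exact Nat.eq_of_mul_eq_mul_left hp1 (Nat.add_right_cancel hab')
    refine h1.trans ?_
    rw [Nat.card_Icc]
    omega
  calc (T.filter (fun m => Inter L W m n)).card ≤ _ := card_le_card hsub
    _ ≤ (L ×ˢ L).card * (2 * W + 1) := card_biUnion_le_card_mul _ _ _ hcard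
    _ = L.card ^ 2 * (2 * W + 1) := by rw [card_product, sq]

/-- [SH-C2b] PROOF: for `l.1 ≠ l'.1` the integer `(l.1 - l'.1) n + (l.2 - l'.2)` lies in `[-W, W]` and
is an injective function of `n`. -/
theorem exc_card (L : Finset (ℕ × ℕ)) (W : ℕ) (T : Finset ℕ) :
    (open Classical in (T.filter (fun n => Exc L W n)).card) ≤ L.card ^ 2 * (2 * W + 1) := by
  classical
  have hsub : T.filter (fun n => Exc L W n) ⊆ (L ×ˢ L).biUnion (fun p =>
      T.filter (fun n => p.1.1 ≠ p.2.1 ∧ p.1.1 * n + p.1.2 ≤ p.2.1 * n + p.2.2 + W ∧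
        p.2.1 * n + p.2.2 ≤ p.1.1 * n + p.1.2 + W)) := by
    intro m hm
    rw [mem_filter] at hm
    obtain ⟨hmT, l, hl, l', hl', h0, h1, h2⟩ := hm
    rw [mem_biUnion]
    exact ⟨(l, l'), mem_product.2 ⟨hl, hl'⟩, mem_filter.2 ⟨hmT, h0, h1, h2⟩⟩
  have hcard : ∀ p ∈ L ×ˢ L, (T.filter (fun n => p.1.1 ≠ p.2.1 ∧
      p.1.1 * n + p.1.2 ≤ p.2.1 * n + p.2.2 + W ∧
        p.2.1 * n + p.2.2 ≤ p.1.1 * n + p.1.2 + W)).card ≤ 2 * W + 1 := by
    intro p _
    have h1 : (T.filter (fun n => p.1.1 ≠ p.2.1 ∧ p.1.1 * n + p.1.2 ≤ p.2.1 * n + p.2.2 + W ∧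
        p.2.1 * n + p.2.2 ≤ p.1.1 * n + p.1.2 + W)).card
        ≤ (Icc (-(W : ℤ)) (W : ℤ)).card := by
      refine card_le_card_of_injOn
        (fun n => ((p.1.1 : ℤ) - p.2.1) * (n : ℤ) + ((p.1.2 : ℤ) - p.2.2)) ?_ ?_
      · intro m hm
        rw [mem_coe, mem_filter] at hm
        rw [mem_coe, mem_Icc]
        obtain ⟨_, _, h1, h2⟩ := hm
        have h1' : (p.1.1 : ℤ) * m + p.1.2 ≤ p.2.1 * m + p.2.2 + W := by exact_mod_cast h1
        have h2' : (p.2.1 : ℤ) * m + p.2.2 ≤ p.1.1 * m + p.1.2 + W := by exact_mod_cast h2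
        constructor
        · linarith
        · linarith
      · intro a ha b _ hab
        rw [mem_coe, mem_filter] at ha
        have hne : ((p.1.1 : ℤ) - p.2.1) ≠ 0 := by
          intro h
          exact ha.2.1 (by exact_mod_cast sub_eq_zero.1 h)
        have hab' : ((p.1.1 : ℤ) - p.2.1) * (a : ℤ) + ((p.1.2 : ℤ) - p.2.2)
            = ((p.1.1 : ℤ) - p.2.1) * (b : ℤ) + ((p.1.2 : ℤ) - p.2.2) := hab
        exact_mod_cast mul_left_cancel₀ hne (add_right_cancel hab')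
    refine h1.trans ?_
    rw [Int.card_Icc]
    omega
  calc (T.filter (fun n => Exc L W n)).card ≤ _ := card_le_card hsub
    _ ≤ (L ×ˢ L).card * (2 * W + 1) := card_biUnion_le_card_mul _ _ _ hcard
    _ = L.card ^ 2 * (2 * W + 1) := by rw [card_product, sq]

end Pool.MP_92ef0c_nt.SH
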