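import Mathlib

/-! # [SH-G2] cutting at the jumps of a monotone function -/

set_option autoImplicit false

namespace Pool.MP_92ef0c_nt.SH

open Finset

/-- [SH-G2] PROOF: induction on `B` (or strong induction on `v - u`): let `v₁` be the largest `n ∈ [u, v]` such that
`φ ≤ B - 1` on `Ioc u n`; then `Ioc u v = Ioc u v₁ ∪ Ioc v₁ v` and `φ = B` on `Ioc v₁ v`. -/
theorem cut_mono (φ : ℕ → ℕ) (B u v : ℕ) (hmono : ∀ m n, u < m → m ≤ n → n ≤ v → φ m ≤ φ n)
    (hB : ∀ n, u < n → n ≤ v → φ n ≤ B) (G : ℕ → ℝ) (α β : ℝ) (hβ : 0 ≤ β)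
    (hpiece : ∀ u' v', u ≤ u' → u' ≤ v' → v' ≤ v → (∀ n ∈ Ioc u' v', φ n = φ v') →
      |∑ n ∈ Ioc u' v', G n| ≤ α * ((v' : ℝ) - u') + β) (huv : u ≤ v) :
    |∑ n ∈ Ioc u v, G n| ≤ α * ((v : ℝ) - u) + β * (B + 1) := by
  classical
  have key : ∀ B v : ℕ, u ≤ v → (∀ m n, u < m → m ≤ n → n ≤ v → φ m ≤ φ n) →
      (∀ n, u < n → n ≤ v → φ n ≤ B) →
      (∀ u' v', u ≤ u' → u' ≤ v' → v' ≤ v → (∀ n ∈ Ioc u' v', φ n = φ v') →
        |∑ n ∈ Ioc u' v', G n| ≤ α * ((v' : ℝ) - u') + β) →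
      |∑ n ∈ Ioc u v, G n| ≤ α * ((v : ℝ) - u) + β * (B + 1) := by
    intro B
    induction B with
    | zero =>
      intro v huv hmono hB hpiece
      have h := hpiece u v le_rfl huv le_rfl (fun n hn => by
        rw [Finset.mem_Ioc] at hn
        have h1 := hB n hn.1 hn.2
        have h2 := hB v (lt_of_lt_of_le hn.1 hn.2) le_rfl
        omega)
      have h' : β * ((0 : ℕ) + 1 : ℝ) = β := by push_cast; ring
      rw [h']
      exact h
    | succ B ih =>
      intro v huv hmono hB hpiece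
      obtain ⟨v₁, h1, h2, h3, hgr⟩ : ∃ v₁, (∀ k, u < k → k ≤ v₁ → φ k ≤ B) ∧ u ≤ v₁ ∧ v₁ ≤ v ∧
          (v₁ < v → ¬ ∀ k, u < k → k ≤ v₁ + 1 → φ k ≤ B) := by
        have hPu : (fun n => ∀ k, u < k → k ≤ n → φ k ≤ B) u :=
          fun k h1 h2 => absurd h1 (not_lt.mpr h2)
        exact ⟨Nat.findGreatest (fun n => ∀ k, u < k → k ≤ n → φ k ≤ B) v,
          Nat.findGreatest_spec (P := fun n => ∀ k, u < k → k ≤ n → φ k ≤ B) huv hPu,
          Nat.le_findGreatest (P := fun n => ∀ k, u < k → k ≤ n → φ k ≤ B) huv hPu,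
          Nat.findGreatest_le v, fun h =>
          Nat.findGreatest_is_greatest (P := fun n => ∀ k, u < k → k ≤ n → φ k ≤ B)
            (Nat.lt_succ_self _) h⟩
      have h4 : ∀ n ∈ Ioc v₁ v, φ n = φ v := by
        intro n hn
        rw [Finset.mem_Ioc] at hn
        have h5 := hgr (lt_of_lt_of_le hn.1 hn.2)
        have h6 : B < φ (v₁ + 1) := by
          by_contra hcon
          apply h5
          intro k hk1 hk2
          rcases Nat.lt_or_ge v₁ k with hk | hk
          · have hk3 : k = v₁ + 1 := by omega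
            rw [hk3]
            omega
          · exact h1 k hk1 hk
        have h7 := hmono (v₁ + 1) n (by omega) (by omega) hn.2
        have h8 := hmono (v₁ + 1) v (by omega) (by omega) le_rfl
        have h9 := hB n (by omega) hn.2
        have h10 := hB v (by omega) le_rfl
        omega
      have h5 := ih v₁ h2 (fun m n a b c => hmono m n a b (c.trans h3)) (fun n a b => h1 n a b)
        (fun u' v' a b c d => hpiece u' v' a b (c.trans h3) d)
      have h6 := hpiece v₁ v h2 h3 le_rfl h4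
      rw [← Finset.sum_Ioc_consecutive G h2 h3]
      refine (abs_add_le _ _).trans ((add_le_add h5 h6).trans (le_of_eq ?_))
      push_cast
      ring
  exact key B v huv hmono hB hpiece

end Pool.MP_92ef0c_nt.SH
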