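import Pool.Agent.Lib_MP_92ef0c_sh.Piece
import Pool.Agent.Lib_MP_92ef0c_sh.CutMono

/-! # [SH-G2, G3] cutting into pieces -/

set_option autoImplicit false

namespace Pool.MP_92ef0c_nt.SH

open Finset
open Pool.MP_92ef0c_nt.PB (Pz V zz Rough rho)

private lemma log_form_lt {J a b n : ℕ} (ha : a < 2 ^ J) (hb : b < 2 ^ J) (hn : n < 2 ^ J) :
    Nat.log 2 (a * n + b) ≤ 2 * J := by
  have h1 : a * n + b < 2 ^ (2 * J) := by
    have e : (2 : ℕ) ^ (2 * J) = 2 ^ J * 2 ^ J := by rw [two_mul, pow_add]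
    rw [e]
    generalize 2 ^ J = N at *
    have h2 : a * n ≤ (N - 1) * n := Nat.mul_le_mul_right _ (by omega)
    have h3 : (N - 1) * n ≤ (N - 1) * (N - 1) := Nat.mul_le_mul_left _ (by omega)
    obtain ⟨M, rfl⟩ : ∃ M, N = M + 1 := ⟨N - 1, by omega⟩
    simp only [Nat.add_sub_cancel] at h2 h3
    nlinarith
  by_cases h0 : a * n + b = 0
  · rw [h0]; simp
  · exact (Nat.log_lt_of_lt_pow h0 h1).le

/-- [SH-G3] PROOF: `cut_mono` with `φ n = ∑_{l ∈ L} Nat.log 2 (l.1 n + l.2) ≤ 2 k J`; as every summand is monotone,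
`φ n = φ v'` for `n ≤ v'` gives equality of all summands, so `piece` (with `ε/2`) applies;
`(2 k J + 1) 2^(ε J / 2) ≤ K 2^(ε J)`. -/
theorem main_det (N₁ k : ℕ) (hρ : ∀ n, 0 ≤ rho N₁ n ∧ rho N₁ n ≤ 1 / 4) (ε : ℝ) (hε : 0 < ε) :
    ∃ c K : ℝ, 0 < c ∧ 0 < K ∧ ∀ (J : ℕ) (L : Finset (ℕ × ℕ)), L.card ≤ k → Prim L → Bd J L →
      ∀ S, IsD L S → ∀ u v : ℕ, 1 ≤ u → u ≤ v → v < 2 ^ J →
      |∑ n ∈ Ioc u v, (rr N₁ L n - S * gg L n)| ≤
        K * (((v : ℝ) - u) * Real.exp (-(c * √J)) + (2 : ℝ) ^ (ε * J)) := by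
  obtain ⟨c, K, hc, hK, hp⟩ := piece N₁ k hρ (ε / 2) (by positivity)
  have hl2 : 0 < Real.log 2 := Real.log_pos (by norm_num)
  set C : ℝ := 4 * k / (ε * Real.log 2) + 1 with hC
  have hC1 : 1 ≤ C := by
    have : 0 ≤ 4 * (k : ℝ) / (ε * Real.log 2) := by positivity
    linarith
  refine ⟨c, K * C, hc, by positivity, ?_⟩
  intro J L hLk hprim hbd S hS u v hu huv hv
  set β : ℝ := K * (2 : ℝ) ^ (ε / 2 * J) with hβd
  set α : ℝ := K * Real.exp (-(c * √J)) with hαd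
  have hpow : 0 < (2 : ℝ) ^ (ε / 2 * J) := Real.rpow_pos_of_pos (by norm_num) _
  have hβ : 0 ≤ β := by positivity
  have hα : 0 ≤ α := by positivity
  have key := cut_mono (fun n => ∑ l ∈ L, Nat.log 2 (l.1 * n + l.2)) (2 * k * J) u v
    (fun m n _ hmn _ => Finset.sum_le_sum (fun l _ => Nat.log_mono_right
      (Nat.add_le_add_right (Nat.mul_le_mul_left _ hmn) _)))
    (fun n hn hnv => by
      have h1 : ∑ l ∈ L, Nat.log 2 (l.1 * n + l.2) ≤ ∑ l ∈ L, 2 * J :=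
        Finset.sum_le_sum (fun l hl => log_form_lt (hbd l hl).2.1 (hbd l hl).2.2 (by omega))
      rw [Finset.sum_const, smul_eq_mul] at h1
      calc _ ≤ L.card * (2 * J) := h1
        _ ≤ k * (2 * J) := Nat.mul_le_mul_right _ hLk
        _ = 2 * k * J := by ring)
    (fun n => rr N₁ L n - S * gg L n) α β hβ
    (fun u' v' hu' huv' hv' hφ => by
      have h2 := hp J L hLk hprim hbd S hS u' v' (by omega) huv' (by omega) (by
        intro l hl n hn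
        have hn' := Finset.mem_Ioc.1 hn
        have hle : ∀ l ∈ L, Nat.log 2 (l.1 * n + l.2) ≤ Nat.log 2 (l.1 * v' + l.2) :=
          fun l _ => Nat.log_mono_right
            (Nat.add_le_add_right (Nat.mul_le_mul_left _ hn'.2) _)
        exact (Finset.sum_eq_sum_iff_of_le hle).1 (hφ n hn) l hl)
      calc _ ≤ K * (((v' : ℝ) - u') * Real.exp (-(c * √J)) + (2 : ℝ) ^ (ε / 2 * J)) := h2
        _ = α * ((v' : ℝ) - u') + β := by rw [hαd, hβd]; ring)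
    huv
  refine key.trans ?_
  have hvu : (0 : ℝ) ≤ (v : ℝ) - u := by
    have : (u : ℝ) ≤ v := by exact_mod_cast huv
    linarith
  have hpw1 : 1 ≤ (2 : ℝ) ^ (ε / 2 * J) := Real.one_le_rpow (by norm_num) (by positivity)
  have hJ : (J : ℝ) ≤ 2 / (ε * Real.log 2) * (2 : ℝ) ^ (ε / 2 * J) := by
    have h3 : Real.log 2 * (ε / 2 * J) + 1 ≤ (2 : ℝ) ^ (ε / 2 * J) := by
      rw [Real.rpow_def_of_pos (by norm_num : (0 : ℝ) < 2)]
      exact Real.add_one_le_exp _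
    have h4 : Real.log 2 * (ε / 2 * J) ≤ (2 : ℝ) ^ (ε / 2 * J) := by linarith
    calc (J : ℝ) = 2 / (ε * Real.log 2) * (Real.log 2 * (ε / 2 * J)) := by
          field_simp
      _ ≤ _ := mul_le_mul_of_nonneg_left h4 (by positivity)
  have hsum : ((2 * k * J : ℕ) : ℝ) + 1 ≤ C * (2 : ℝ) ^ (ε / 2 * J) := by
    push_cast
    calc 2 * (k : ℝ) * J + 1 ≤ 2 * k * (2 / (ε * Real.log 2) * (2 : ℝ) ^ (ε / 2 * J)) +
          (2 : ℝ) ^ (ε / 2 * J) := by
          have := mul_le_mul_of_nonneg_left hJ (by positivity : (0 : ℝ) ≤ 2 * k)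
          linarith
      _ = C * (2 : ℝ) ^ (ε / 2 * J) := by rw [hC]; ring
  have hsq : (2 : ℝ) ^ (ε / 2 * J) * (2 : ℝ) ^ (ε / 2 * J) = (2 : ℝ) ^ (ε * J) := by
    rw [← Real.rpow_add (by norm_num)]
    congr 1
    ring
  calc α * ((v : ℝ) - u) + β * (((2 * k * J : ℕ) : ℝ) + 1)
      ≤ α * ((v : ℝ) - u) * C + β * (C * (2 : ℝ) ^ (ε / 2 * J)) := by
        refine add_le_add ?_ (mul_le_mul_of_nonneg_left hsum hβ)
        exact le_mul_of_one_le_right (mul_nonneg hα hvu) hC1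
    _ = K * C * (((v : ℝ) - u) * Real.exp (-(c * √J)) +
          (2 : ℝ) ^ (ε / 2 * J) * (2 : ℝ) ^ (ε / 2 * J)) := by rw [hαd, hβd]; ring
    _ = _ := by rw [hsq]

end Pool.MP_92ef0c_nt.SH
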