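import Mathlib

/-! # [SH-C6] compactness -/

set_option autoImplicit false

namespace Pool.MP_92ef0c_nt.SH

/-- [SH-C6] PROOF: `U = Filter.hyperfilter ℕ` (an ultrafilter `≤ cofinite = atTop`), `P = {n | ∀ᶠ N in U, n ∈ S N}`.
For every `n`, `∀ᶠ N in U, (n ∈ P ↔ n ∈ S N)` (ultrafilter); finite intersection over `n < m`
(`Filter.eventually_all_finset`-like) and `∀ᶠ N in U, N₀ ≤ N`; an eventual property has a witness. -/
theorem compact (S : ℕ → Set ℕ) : ∃ P : Set ℕ, ∀ m N₀ : ℕ, ∃ N, N₀ ≤ N ∧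
    ∀ n < m, (n ∈ P ↔ n ∈ S N) := by
  set U : Ultrafilter ℕ := Filter.hyperfilter ℕ with hU
  refine ⟨{n | ∀ᶠ N in (U : Filter ℕ), n ∈ S N}, fun m N₀ => ?_⟩
  have h1 : ∀ n : ℕ, ∀ᶠ N in (U : Filter ℕ),
      (n ∈ {n | ∀ᶠ N in (U : Filter ℕ), n ∈ S N} ↔ n ∈ S N) := by
    intro n
    by_cases h : ∀ᶠ N in (U : Filter ℕ), n ∈ S N
    · filter_upwards [h] with N hN
      exact ⟨fun _ => hN, fun _ => h⟩
    · have h' : ∀ᶠ N in (U : Filter ℕ), n ∉ S N := Ultrafilter.eventually_not.mpr h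
      filter_upwards [h'] with N hN
      exact ⟨fun h2 => absurd h2 h, fun h2 => absurd h2 hN⟩
  have h2 : ∀ᶠ N in (U : Filter ℕ), ∀ n ∈ Finset.range m,
      (n ∈ {n | ∀ᶠ N in (U : Filter ℕ), n ∈ S N} ↔ n ∈ S N) :=
    (Filter.eventually_all_finset (Finset.range m)).mpr (fun n _ => h1 n)
  have h3 : ∀ᶠ N in (U : Filter ℕ), N₀ ≤ N := by
    have h4 : (U : Filter ℕ) ≤ Filter.atTop := by
      rw [hU, ← Nat.cofinite_eq_atTop]
      exact Filter.hyperfilter_le_cofinite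
    exact h4 (Filter.eventually_ge_atTop N₀)
  obtain ⟨N, hN1, hN2⟩ := (h2.and h3).exists
  exact ⟨N, hN2, fun n hn => hN1 n (Finset.mem_range.mpr hn)⟩

end Pool.MP_92ef0c_nt.SH
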