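import Pool.Agent.Lib_MP_92ef0c_sh.Defs
import Pool.Agent.Lib_MP_92ef0c_pb.Mert

/-! # [SH-C5a] size of rho -/

set_option autoImplicit false

namespace Pool.MP_92ef0c_nt.SH

open Finset
open Pool.MP_92ef0c_nt.PB (Pz V zz Rough rho V_pos V_lower rho_bounds)

/-- [SH-C5a] PROOF: `rho ≤ 1 / (V (zz j) log n)`, `j = Nat.log 2 n`, `log n ≥ j log 2`, and `V_lower`:
`V (zz j) ≥ c / log (zz j)`-like bound (see the proof of `rho_bounds` in `Lib_MP_92ef0c_pb/Mert.lean`), with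
`log (zz j) = Nat.sqrt j * log 2 ≤ √j`. -/
theorem rho_small : ∃ C : ℝ, 0 < C ∧ ∀ N₀ n : ℕ, 0 < Nat.log 2 n →
    rho N₀ n ≤ C / √(Nat.log 2 n : ℝ) := by
  obtain ⟨c, hc, hV⟩ := V_lower
  refine ⟨1 / c, by positivity, fun N₀ n hj => ?_⟩
  have hjr : (0 : ℝ) < (Nat.log 2 n : ℝ) := by exact_mod_cast hj
  have hsq : 0 < √(Nat.log 2 n : ℝ) := Real.sqrt_pos.2 hjr
  unfold rho
  split_ifs with h
  · have hn0 : n ≠ 0 := by
      rintro rfl
      simp at hj
    have hpow : 2 ^ Nat.log 2 n ≤ n := Nat.pow_log_le_self 2 hn0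
    have hs2 : Nat.sqrt (Nat.log 2 n) * Nat.sqrt (Nat.log 2 n) ≤ Nat.log 2 n := Nat.sqrt_le _
    have hspos : 0 < Nat.sqrt (Nat.log 2 n) := Nat.sqrt_pos.2 hj
    set j : ℕ := Nat.log 2 n with hjdef
    have hl2 : 0 < Real.log 2 := Real.log_pos (by norm_num)
    have hlogn : (j : ℝ) * Real.log 2 ≤ Real.log n := by
      rw [← Real.log_pow]
      apply Real.log_le_log (by positivity)
      exact_mod_cast hpow
    have hz : 2 ≤ zz j := by
      unfold zz
      calc 2 = 2 ^ 1 := rfl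
        _ ≤ 2 ^ Nat.sqrt j := Nat.pow_le_pow_right (by norm_num) (by omega)
    have hlz : Real.log ((zz j : ℕ) : ℝ) = (Nat.sqrt j : ℝ) * Real.log 2 := by
      unfold zz
      push_cast
      rw [Real.log_pow]
    have hVz := hV (zz j) hz
    rw [hlz] at hVz
    have hV0 : 0 < V (zz j) := V_pos _
    have hs0 : (0 : ℝ) < (Nat.sqrt j : ℝ) := by exact_mod_cast hspos
    have hsle : (Nat.sqrt j : ℝ) ≤ √(j : ℝ) := by
      apply Real.le_sqrt_of_sq_le
      rw [sq]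
      exact_mod_cast hs2
    have h5 : c / ((Nat.sqrt j : ℝ) * Real.log 2) * ((j : ℝ) * Real.log 2) ≤
        V (zz j) * Real.log n := mul_le_mul hVz hlogn (by positivity) hV0.le
    have h6 : c / ((Nat.sqrt j : ℝ) * Real.log 2) * ((j : ℝ) * Real.log 2) =
        c * ((j : ℝ) / (Nat.sqrt j : ℝ)) := by
      field_simp
    have h7 : √(j : ℝ) ≤ (j : ℝ) / (Nat.sqrt j : ℝ) := by
      rw [le_div_iff₀ hs0]
      calc √(j : ℝ) * (Nat.sqrt j : ℝ) ≤ √(j : ℝ) * √(j : ℝ) :=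
            mul_le_mul_of_nonneg_left hsle hsq.le
        _ = (j : ℝ) := Real.mul_self_sqrt hjr.le
    have h8 : c * √(j : ℝ) ≤ V (zz j) * Real.log n := by
      rw [h6] at h5
      exact (mul_le_mul_of_nonneg_left h7 hc.le).trans h5
    have h9 : 0 < c * √(j : ℝ) := by positivity
    calc 1 / (V (zz j) * Real.log n) ≤ 1 / (c * √(j : ℝ)) := one_div_le_one_div_of_le h9 h8
      _ = 1 / c / √(j : ℝ) := by rw [div_div]
  · positivity

end Pool.MP_92ef0c_nt.SH
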