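import Pool.Agent.Lib_MP_92ef0c_sh.Defs

/-! # [SH-Q1b] sum and integral -/

set_option autoImplicit false

namespace Pool.MP_92ef0c_nt.SH

open Finset

private noncomputable def q1f (t : ℝ) : ℝ := 1 / (Real.log t) ^ 2

private noncomputable def q1g (e : ℕ) (t : ℝ) : ℝ := 1 / Real.log t * (1 / Real.log (t + e))

private theorem q1_log2 : 0 < Real.log 2 := Real.log_pos (by norm_num)

private theorem q1_log {t : ℝ} (ht : 2 ≤ t) : Real.log 2 ≤ Real.log t := Real.log_le_log (by norm_num) ht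

private theorem q1_log_pos {t : ℝ} (ht : 2 ≤ t) : 0 < Real.log t := q1_log2.trans_le (q1_log ht)

private theorem q1f_anti : AntitoneOn q1f (Set.Ici 2) := by
  intro s hs t _ hst
  have hs' : (2 : ℝ) ≤ s := hs
  have h1 := q1_log_pos hs'
  have h2 : Real.log s ≤ Real.log t := Real.log_le_log (by linarith) hst
  unfold q1f
  exact one_div_le_one_div_of_le (by positivity) (pow_le_pow_left₀ h1.le h2 2)

private theorem q1g_anti (e : ℕ) : AntitoneOn (q1g e) (Set.Ici 2) := by
  intro s hs t _ hst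
  have hs' : (2 : ℝ) ≤ s := hs
  have he : (0 : ℝ) ≤ e := Nat.cast_nonneg e
  have h1 := q1_log_pos hs'
  have h1e : 0 < Real.log (s + e) := q1_log_pos (by linarith)
  have h2 : Real.log s ≤ Real.log t := Real.log_le_log (by linarith) hst
  have h2e : Real.log (s + e) ≤ Real.log (t + e) := Real.log_le_log (by linarith) (by linarith)
  unfold q1g
  exact mul_le_mul (one_div_le_one_div_of_le h1 h2) (one_div_le_one_div_of_le h1e h2e)
    (by have := h1e.trans_le h2e; positivity) (by positivity)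

private theorem q1f_nonneg (t : ℝ) : 0 ≤ q1f t := by
  unfold q1f
  positivity

private theorem q1f_le {t : ℝ} (ht : 2 ≤ t) : q1f t ≤ q1f 2 := q1f_anti (Set.mem_Ici.2 le_rfl) (Set.mem_Ici.2 ht) ht

private theorem q1g_le (e : ℕ) {t : ℝ} (ht : 2 ≤ t) : q1g e t ≤ q1f t := by
  have he : (0 : ℝ) ≤ e := Nat.cast_nonneg e
  have h1 := q1_log_pos ht
  have h2 : Real.log t ≤ Real.log (t + e) := Real.log_le_log (by linarith) (by linarith)
  unfold q1g q1f
  have h3 : 1 / Real.log (t + e) ≤ 1 / Real.log t := one_div_le_one_div_of_le h1 h2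
  calc 1 / Real.log t * (1 / Real.log (t + e)) ≤ 1 / Real.log t * (1 / Real.log t) :=
        mul_le_mul_of_nonneg_left h3 (by positivity)
    _ = 1 / Real.log t ^ 2 := by rw [div_mul_div_comm, one_mul, sq]

private theorem q1g_nonneg (e : ℕ) {t : ℝ} (ht : 2 ≤ t) : 0 ≤ q1g e t := by
  have he : (0 : ℝ) ≤ e := Nat.cast_nonneg e
  have h1 := q1_log_pos ht
  have h2 : 0 < Real.log (t + e) := q1_log_pos (by linarith)
  unfold q1g
  positivity

private noncomputable def q1h (t : ℝ) : ℝ := 1 / (t * Real.log t ^ 3)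

private theorem q1_diff (e : ℕ) {t : ℝ} (ht : 2 ≤ t) : q1f t - q1g e t ≤ e * q1h t := by
  have he : (0 : ℝ) ≤ e := Nat.cast_nonneg e
  have h1 := q1_log_pos ht
  have h0 : 0 < t := by linarith
  have h2 : Real.log t ≤ Real.log (t + e) := Real.log_le_log (by linarith) (by linarith)
  have h2p := h1.trans_le h2
  have h3 : Real.log (t + e) - Real.log t ≤ e / t := by
    rw [← Real.log_div (by linarith) (by linarith)]
    have h4 : (t + e) / t = 1 + e / t := by
      field_simp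
    rw [h4]
    have h5 := Real.log_le_sub_one_of_pos (show (0 : ℝ) < 1 + e / t by positivity)
    linarith
  have h6 : q1f t - q1g e t = (Real.log (t + e) - Real.log t) / (Real.log t ^ 2 * Real.log (t + e)) := by
    unfold q1f q1g
    field_simp
  rw [h6]
  have h7 : Real.log t ^ 3 ≤ Real.log t ^ 2 * Real.log (t + e) := by
    have : Real.log t ^ 3 = Real.log t ^ 2 * Real.log t := by ring
    rw [this]
    exact mul_le_mul_of_nonneg_left h2 (by positivity)
  calc (Real.log (t + e) - Real.log t) / (Real.log t ^ 2 * Real.log (t + e)) ≤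
        (e / t) / (Real.log t ^ 2 * Real.log (t + e)) := by
        exact div_le_div_of_nonneg_right h3 (by positivity)
    _ ≤ (e / t) / Real.log t ^ 3 := by
        exact div_le_div_of_nonneg_left (by positivity) (by positivity) h7
    _ = e * q1h t := by
        unfold q1h
        field_simp

private theorem q1f_int {s t : ℝ} (hs : 2 ≤ s) (ht : 2 ≤ t) : IntervalIntegrable q1f MeasureTheory.volume s t := by
  apply AntitoneOn.intervalIntegrable
  apply q1f_anti.mono
  intro x hx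
  rw [Set.mem_uIcc] at hx
  show (2 : ℝ) ≤ x
  rcases hx with h | h
  · linarith [h.1]
  · linarith [h.1]

private theorem q1g_int (e : ℕ) {s t : ℝ} (hs : 2 ≤ s) (ht : 2 ≤ t) :
    IntervalIntegrable (q1g e) MeasureTheory.volume s t := by
  apply AntitoneOn.intervalIntegrable
  apply (q1g_anti e).mono
  intro x hx
  rw [Set.mem_uIcc] at hx
  show (2 : ℝ) ≤ x
  rcases hx with h | h
  · linarith [h.1]
  · linarith [h.1]

private theorem q1h_anti : AntitoneOn q1h (Set.Ici 2) := by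
  intro s hs t _ hst
  have hs' : (2 : ℝ) ≤ s := hs
  have h1 := q1_log_pos hs'
  have h2 : Real.log s ≤ Real.log t := Real.log_le_log (by linarith) hst
  unfold q1h
  exact one_div_le_one_div_of_le (by positivity)
    (mul_le_mul hst (pow_le_pow_left₀ h1.le h2 3) (by positivity) (by linarith))

private theorem q1h_int {t : ℝ} (ht : 2 ≤ t) : IntervalIntegrable q1h MeasureTheory.volume 2 t := by
  apply AntitoneOn.intervalIntegrable
  apply q1h_anti.mono
  intro x hx
  rw [Set.uIcc_of_le ht] at hx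
  exact hx.1

private theorem q1h_bound {X : ℝ} (hX : 2 ≤ X) : ∫ t in (2 : ℝ)..X, q1h t ≤ q1f 2 := by
  have hder : ∀ x ∈ Set.uIcc 2 X, HasDerivAt (fun t => -(1 / 2) * (Real.log t ^ 2)⁻¹) (q1h x) x := by
    intro x hx
    rw [Set.uIcc_of_le hX] at hx
    have hx2 : 2 ≤ x := hx.1
    have h1 := q1_log_pos hx2
    have h0 : x ≠ 0 := by
      have : 0 < x := by linarith
      exact this.ne'
    have hd := (((Real.hasDerivAt_log h0).pow 2).inv (pow_ne_zero 2 h1.ne')).const_mul (-(1 / 2) : ℝ)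
    refine hd.congr_deriv ?_
    simp only [Pi.pow_apply]
    unfold q1h
    field_simp
    norm_num
  rw [intervalIntegral.integral_eq_sub_of_hasDerivAt hder (q1h_int hX)]
  have h1 := q1_log2
  have h2 := q1_log_pos hX
  have h3 : 0 ≤ (Real.log X ^ 2)⁻¹ := by positivity
  have h4 : 0 ≤ (Real.log 2 ^ 2)⁻¹ := by positivity
  have h5 : q1f 2 = (Real.log 2 ^ 2)⁻¹ := by
    unfold q1f
    rw [one_div]
  rw [h5]
  linarith

private theorem q1_small (u : ℝ → ℝ) (hu : ∀ t, 2 ≤ t → u t ≤ q1f 2)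
    (hi : ∀ t, 2 ≤ t → IntervalIntegrable u MeasureTheory.volume 2 t) {Y : ℝ} (hY : 2 ≤ Y) :
    ∫ t in (2 : ℝ)..Y, u t ≤ q1f 2 * (Y - 2) := by
  have h := intervalIntegral.integral_mono_on hY (hi Y hY)
    (intervalIntegrable_const (c := q1f 2)) (fun x hx => hu x hx.1)
  rw [intervalIntegral.integral_const, smul_eq_mul] at h
  linarith

/-- [SH-Q1b] PROOF: `g t = 1 / (log t log (t + e))` is antitone on `t ≥ 2`, so `q ∑_{m=2}^v g (q m + a)` lies between
`∫_{2q+a}^{q(v+1)+a} g` and `∫_{q+a}^{qv+a} g`; `|g t - 1/log² t| ≤ e / (t log³ t)`, whose integral over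
`[2, ∞)` is at most `C e`; the integrals of `g`, `1/log²` over intervals of length `≤ 3 q` in `[2, ∞)` are `≤ 9 q`;
`|X - (q v + a)| < q`. If `v ≤ 1` the sum is empty and `X < 2 q + a ≤ 3 q`. -/
theorem sum_int_class (e : ℕ) (he : 0 < e) : ∃ C : ℝ, 0 < C ∧ ∀ q a X : ℕ, 0 < q → a < q → 2 ≤ X → a ≤ X →
    |∑ m ∈ Ioc 1 ((X - a) / q), gg {(q, a), (q, a + e)} m -
      (1 / (q : ℝ)) * ∫ t in (2 : ℝ)..(X : ℝ), 1 / (Real.log t) ^ 2| ≤ C := by
  have hK : 0 < q1f 2 := by
    unfold q1f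
    have := q1_log2
    positivity
  refine ⟨3 * q1f 2 + e * q1f 2, by positivity, ?_⟩
  intro q a X hq ha hX haX
  have hqR : (1 : ℝ) ≤ q := by exact_mod_cast hq
  have hq0 : (0 : ℝ) < q := by linarith
  have haR : (a : ℝ) < q := by exact_mod_cast ha
  have ha0 : (0 : ℝ) ≤ a := Nat.cast_nonneg a
  have hXR : (2 : ℝ) ≤ X := by exact_mod_cast hX
  have heR : (0 : ℝ) ≤ e := Nat.cast_nonneg e
  have hgg : ∀ m : ℕ, gg {(q, a), (q, a + e)} m = q1g e ((q : ℝ) * m + a) := by
    intro m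
    unfold gg q1g
    rw [Finset.prod_pair]
    · push_cast
      rw [add_assoc]
    · intro h
      have := congrArg Prod.snd h
      simp at this
      omega
  have hint : ∫ t in (2 : ℝ)..(X : ℝ), 1 / (Real.log t) ^ 2 = ∫ t in (2 : ℝ)..(X : ℝ), q1f t := rfl
  rw [hint, Finset.sum_congr rfl (fun m _ => hgg m)]
  set v := (X - a) / q with hv
  have hf0 : 0 ≤ ∫ t in (2 : ℝ)..(X : ℝ), q1f t := intervalIntegral.integral_nonneg hXR (fun x _ => q1f_nonneg x)
  have hv1 : q * v + a ≤ X := by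
    have := Nat.mul_div_le (X - a) q
    rw [← hv] at this
    omega
  have hv2 : X < q * (v + 1) + a := by
    have := Nat.lt_mul_div_succ (X - a) hq
    rw [← hv] at this
    omega
  have hv1R : (q : ℝ) * v + a ≤ X := by exact_mod_cast hv1
  have hv2R : (X : ℝ) < q * (v + 1) + a := by exact_mod_cast hv2
  rcases Nat.lt_or_ge v 2 with hv3 | hv3
  · have hempty : Ioc 1 v = ∅ := Finset.Ioc_eq_empty (by omega)
    rw [hempty, Finset.sum_empty, zero_sub, abs_neg, abs_of_nonneg (by positivity)]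
    have h1 := q1_small q1f (fun t ht => q1f_le ht) (fun t ht => q1f_int le_rfl ht) hXR
    have hv4 : (v : ℝ) ≤ 1 := by exact_mod_cast (show v ≤ 1 by omega)
    have h2 : (X : ℝ) - 2 ≤ 3 * q := by nlinarith
    have h3 : ∫ t in (2 : ℝ)..(X : ℝ), q1f t ≤ q1f 2 * (3 * q) :=
      h1.trans (mul_le_mul_of_nonneg_left h2 hK.le)
    calc 1 / (q : ℝ) * ∫ t in (2 : ℝ)..(X : ℝ), q1f t ≤ 1 / (q : ℝ) * (q1f 2 * (3 * q)) :=
          mul_le_mul_of_nonneg_left h3 (by positivity)
      _ = 3 * q1f 2 := by field_simp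
      _ ≤ 3 * q1f 2 + e * q1f 2 := by
          have : 0 ≤ (e : ℝ) * q1f 2 := by positivity
          linarith
  · have hv3R : (2 : ℝ) ≤ v := by exact_mod_cast hv3
    have h2q : (2 : ℝ) ≤ 2 * q + a := by linarith
    have h2qX : (2 : ℝ) * q + a ≤ X := by nlinarith
    have hanti : ∀ b : ℝ, AntitoneOn (fun s : ℝ => q1g e ((q : ℝ) * s + a)) (Set.Icc 2 b) := by
      intro b s hs t ht hst
      have hs2 : (2 : ℝ) ≤ s := hs.1
      apply q1g_anti e
      · show (2 : ℝ) ≤ q * s + a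
        nlinarith
      · show (2 : ℝ) ≤ q * t + a
        have : (2 : ℝ) ≤ t := ht.1
        nlinarith
      · have := mul_le_mul_of_nonneg_left hst hq0.le
        linarith
    have hsub : ∀ b : ℝ, ∫ s in (2 : ℝ)..b, q1g e ((q : ℝ) * s + a) =
        1 / (q : ℝ) * ∫ t in (2 * (q : ℝ) + a)..(q * b + a), q1g e t := by
      intro b
      rw [intervalIntegral.integral_comp_mul_add (fun t => q1g e t) hq0.ne' (a : ℝ), smul_eq_mul, one_div,
        mul_comm (q : ℝ) 2]
    have hup : ∑ i ∈ Finset.Ico 2 v, q1g e ((q : ℝ) * ((i + 1 : ℕ) : ℝ) + a) ≤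
        ∫ s in ((2 : ℕ) : ℝ)..(v : ℝ), q1g e ((q : ℝ) * s + a) :=
      AntitoneOn.sum_le_integral_Ico hv3 (f := fun s : ℝ => q1g e ((q : ℝ) * s + a)) (by
        have := hanti v
        simpa using this)
    have hlo : ∫ s in ((2 : ℕ) : ℝ)..((v + 1 : ℕ) : ℝ), q1g e ((q : ℝ) * s + a) ≤
        ∑ i ∈ Finset.Ico 2 (v + 1), q1g e ((q : ℝ) * (i : ℝ) + a) :=
      AntitoneOn.integral_le_sum_Ico (by omega) (f := fun s : ℝ => q1g e ((q : ℝ) * s + a)) (by
        have := hanti ((v + 1 : ℕ) : ℝ)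
        simpa using this)
    have hIoc : Ioc 1 v = Finset.Ico 2 (v + 1) := by
      ext m
      simp only [Finset.mem_Ioc, Finset.mem_Ico]
      omega
    have hsplit : ∑ i ∈ Finset.Ico 2 (v + 1), q1g e ((q : ℝ) * (i : ℝ) + a) =
        q1g e ((q : ℝ) * ((2 : ℕ) : ℝ) + a) + ∑ i ∈ Finset.Ico 2 v, q1g e ((q : ℝ) * ((i + 1 : ℕ) : ℝ) + a) := by
      rw [Finset.sum_eq_sum_Ico_succ_bot (by omega), Finset.sum_Ico_add' (fun i : ℕ => q1g e ((q : ℝ) * (i : ℝ) + a)) 2 v 1]
    rw [hIoc]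
    set S := ∑ i ∈ Finset.Ico 2 (v + 1), q1g e ((q : ℝ) * (i : ℝ) + a) with hS
    push_cast at hup hlo hsplit
    rw [hsub] at hup hlo
    have hqv2 : (2 : ℝ) ≤ q * v + a := by nlinarith
    -- upper bound
    have hU : S ≤ q1f 2 + 1 / (q : ℝ) * ∫ t in (2 : ℝ)..(X : ℝ), q1f t := by
      have h1 : q1g e ((q : ℝ) * 2 + a) ≤ q1f 2 :=
        (q1g_le e (by linarith)).trans (q1f_le (by linarith))
      have h2 : ∫ t in (2 * (q : ℝ) + a)..(q * v + a), q1g e t ≤ ∫ t in (2 * (q : ℝ) + a)..(q * v + a), q1f t :=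
        intervalIntegral.integral_mono_on (by nlinarith) (q1g_int e h2q hqv2) (q1f_int h2q hqv2)
          (fun x hx => q1g_le e (h2q.trans hx.1))
      have h3 : ∫ t in (2 * (q : ℝ) + a)..(q * v + a), q1f t ≤ ∫ t in (2 : ℝ)..(X : ℝ), q1f t :=
        intervalIntegral.integral_mono_interval h2q (by nlinarith) hv1R
          (Filter.Eventually.of_forall (fun x => q1f_nonneg x)) (q1f_int le_rfl hXR)
      have h4 := mul_le_mul_of_nonneg_left (h2.trans h3) (show (0 : ℝ) ≤ 1 / (q : ℝ) by positivity)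
      linarith
    -- lower bound
    have hL : 1 / (q : ℝ) * (∫ t in (2 : ℝ)..(X : ℝ), q1f t) - (3 * q1f 2 + e * q1f 2) ≤ S := by
      have h1 : ∫ t in (2 * (q : ℝ) + a)..(X : ℝ), q1g e t ≤
          ∫ t in (2 * (q : ℝ) + a)..(q * (v + 1) + a), q1g e t := by
        refine intervalIntegral.integral_mono_interval le_rfl h2qX hv2R.le ?_ (q1g_int e h2q (by nlinarith))
        rw [Filter.EventuallyLE, MeasureTheory.ae_restrict_iff' measurableSet_Ioc]
        exact Filter.Eventually.of_forall (fun x hx => q1g_nonneg e (h2q.trans hx.1.le))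
      have h2 : (∫ t in (2 : ℝ)..(2 * (q : ℝ) + a), q1g e t) + ∫ t in (2 * (q : ℝ) + a)..(X : ℝ), q1g e t =
          ∫ t in (2 : ℝ)..(X : ℝ), q1g e t :=
        intervalIntegral.integral_add_adjacent_intervals (q1g_int e le_rfl h2q) (q1g_int e h2q hXR)
      have h3 := q1_small (q1g e) (fun t ht => (q1g_le e ht).trans (q1f_le ht)) (fun t ht => q1g_int e le_rfl ht) h2q
      have h4 : (∫ t in (2 : ℝ)..(X : ℝ), q1f t) - ∫ t in (2 : ℝ)..(X : ℝ), q1g e t ≤ e * q1f 2 := by
        rw [← intervalIntegral.integral_sub (q1f_int le_rfl hXR) (q1g_int e le_rfl hXR)]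
        calc ∫ t in (2 : ℝ)..(X : ℝ), (q1f t - q1g e t) ≤ ∫ t in (2 : ℝ)..(X : ℝ), e * q1h t :=
              intervalIntegral.integral_mono_on hXR ((q1f_int le_rfl hXR).sub (q1g_int e le_rfl hXR))
                ((q1h_int hXR).const_mul _) (fun x hx => q1_diff e hx.1)
          _ = e * ∫ t in (2 : ℝ)..(X : ℝ), q1h t := intervalIntegral.integral_const_mul _ _
          _ ≤ e * q1f 2 := mul_le_mul_of_nonneg_left (q1h_bound hXR) heR
      have h5 : q1f 2 * (2 * (q : ℝ) + a - 2) ≤ q1f 2 * (3 * q) :=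
        mul_le_mul_of_nonneg_left (by linarith) hK.le
      have h6 : (∫ t in (2 : ℝ)..(X : ℝ), q1f t) - (q1f 2 * (3 * q) + e * q1f 2) ≤
          ∫ t in (2 * (q : ℝ) + a)..(q * (v + 1) + a), q1g e t := by linarith
      have h7 := mul_le_mul_of_nonneg_left h6 (show (0 : ℝ) ≤ 1 / (q : ℝ) by positivity)
      have h8 : 1 / (q : ℝ) * ((∫ t in (2 : ℝ)..(X : ℝ), q1f t) - (q1f 2 * (3 * q) + e * q1f 2)) =
          1 / (q : ℝ) * (∫ t in (2 : ℝ)..(X : ℝ), q1f t) - 3 * q1f 2 - 1 / (q : ℝ) * (e * q1f 2) := by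
        field_simp
        ring
      have h9 : 1 / (q : ℝ) * (e * q1f 2) ≤ 1 * (e * q1f 2) := by
        apply mul_le_mul_of_nonneg_right _ (by positivity)
        rw [div_le_one hq0]
        exact hqR
      linarith
    rw [abs_le]
    constructor
    · linarith
    · have : 0 ≤ (e : ℝ) * q1f 2 := by positivity
      linarith

end Pool.MP_92ef0c_nt.SH
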