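import Pool.Agent.Lib_MP_92ef0c_sh.Defs
import Pool.Agent.Lib_MP_92ef0c_pb.Pair
import Pool.Agent.Lib_MP_92ef0c_sh.Q1i

/-! # [SH-Q1] tools for the pairs in residue classes -/

set_option autoImplicit false

namespace Pool.MP_92ef0c_nt.SH

open Finset
open Pool.MP_92ef0c_nt.PB (Pz V zz Rough rho nu loc SSz IsHL)

private theorem q1a_card_pair (x y x' y' : ℕ) (h : x = y ↔ x' = y') :
    ({x, y} : Finset ℕ).card = ({x', y'} : Finset ℕ).card := by
  by_cases hxy : x = y
  · have hxy' := h.1 hxy
    subst hxy hxy'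
    rw [pair_eq_singleton, pair_eq_singleton, card_singleton, card_singleton]
  · have hxy' : ¬ x' = y' := fun h' => hxy (h.2 h')
    rw [card_pair hxy, card_pair hxy']

private theorem q1a_nuL (q a e p : ℕ) (hp : p.Prime) (hpq : ¬ p ∣ q) :
    nuL {(q, a), (q, a + e)} p = nu {0, e} p := by
  haveI : Fact p.Prime := ⟨hp⟩
  haveI : NeZero p := ⟨hp.ne_zero⟩
  have hq' : (q : ZMod p) ≠ 0 := by
    rwa [Ne, ZMod.natCast_eq_zero_iff]
  have hs : ∀ h c : ℕ, c < p →
      (p ∣ q * c + (a + h) ↔ c = (-((a : ZMod p) + h) * (q : ZMod p)⁻¹).val) := by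
    intro h c hc
    have h1 : p ∣ q * c + (a + h) ↔ (c : ZMod p) = -((a : ZMod p) + h) * (q : ZMod p)⁻¹ := by
      rw [← ZMod.natCast_eq_zero_iff]
      push_cast
      constructor
      · intro h2
        rw [← eq_neg_of_add_eq_zero_left h2, mul_comm (q : ZMod p), mul_assoc,
          mul_inv_cancel₀ hq', mul_one]
      · intro h2
        rw [h2, mul_comm (q : ZMod p), mul_assoc, inv_mul_cancel₀ hq', mul_one, neg_add_cancel]
    rw [h1]
    constructor
    · intro h2
      rw [← h2, ZMod.val_natCast_of_lt hc]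
    · intro h2
      rw [h2, ZMod.natCast_zmod_val]
  have hbad : bad {(q, a), (q, a + e)} p =
      {(-((a : ZMod p) + (0 : ℕ)) * (q : ZMod p)⁻¹).val,
        (-((a : ZMod p) + (e : ℕ)) * (q : ZMod p)⁻¹).val} := by
    ext c
    unfold bad
    rw [mem_filter, mem_range, mem_insert, mem_singleton]
    constructor
    · rintro ⟨hc, l, hl, hd⟩
      rcases mem_insert.1 hl with rfl | hl
      · exact Or.inl ((hs 0 c hc).1 hd)
      · rw [mem_singleton.1 hl] at hd
        exact Or.inr ((hs e c hc).1 hd)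
    · rintro (hc | hc)
      · have hcp : c < p := by rw [hc]; exact ZMod.val_lt _
        exact ⟨hcp, (q, a), mem_insert_self _ _, (hs 0 c hcp).2 hc⟩
      · have hcp : c < p := by rw [hc]; exact ZMod.val_lt _
        exact ⟨hcp, (q, a + e), mem_insert_of_mem (mem_singleton_self _), (hs e c hcp).2 hc⟩
  unfold nuL nu
  rw [hbad, image_insert, image_singleton]
  apply q1a_card_pair
  rw [(ZMod.val_injective p).eq_iff, ← ZMod.natCast_eq_natCast_iff']
  constructor
  · intro h
    have h2 := mul_right_cancel₀ (inv_ne_zero hq') h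
    have h3 := add_left_cancel (neg_injective h2)
    exact h3
  · intro h
    rw [h]

/-- [SH-Q1a] PROOF: `SSL {(q, a), (q, a + e)} z = SSz {0, e} q z` for all `z`: for `p ∣ q` no value is divisible by `p`
(`nuL = 0`), for `p ∤ q` the map `c ↦ q c + a` is a bijection of the classes mod `p`, so `nuL = nu {0, e} p`; the cardinalities
of both systems are `2`. -/
theorem isHL_of_isD (q a e : ℕ) (hq : 0 < q) (he : 0 < e) (ha : Nat.Coprime a q)
    (hae : Nat.Coprime (a + e) q) (S : ℝ) (hS : IsD {(q, a), (q, a + e)} S) :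
    IsHL {0, e} q S := by
  have h1 : (({0, e} : Finset ℕ)).card = 2 := card_pair (by omega)
  have h2 : (({(q, a), (q, a + e)} : Finset (ℕ × ℕ))).card = 2 := card_pair (by
    intro h
    have h3 := congrArg Prod.snd h
    simp only at h3
    omega)
  have h4 : ∀ z, SSz {0, e} q z = SSL {(q, a), (q, a + e)} z := by
    intro z
    unfold SSz SSL
    refine prod_congr rfl fun p hp => ?_
    have hpp : p.Prime := (mem_filter.1 hp).2
    unfold loc ph
    rw [h1, h2]
    by_cases hpq : p ∣ q
    · rw [if_pos hpq]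
      have hbad : bad {(q, a), (q, a + e)} p = ∅ := by
        unfold bad
        rw [filter_eq_empty_iff]
        rintro c _ ⟨l, hl, hd⟩
        rcases mem_insert.1 hl with rfl | hl
        · have h5 : p ∣ a := (Nat.dvd_add_right (hpq.mul_right c)).1 hd
          exact hpp.one_lt.ne' (Nat.eq_one_of_dvd_coprimes ha h5 hpq)
        · rw [mem_singleton.1 hl] at hd
          have h5 : p ∣ a + e := (Nat.dvd_add_right (hpq.mul_right c)).1 hd
          exact hpp.one_lt.ne' (Nat.eq_one_of_dvd_coprimes hae h5 hpq)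
      unfold nuL
      rw [hbad, card_empty, Nat.cast_zero, zero_div, sub_zero, one_mul]
    · rw [if_neg hpq, q1a_nuL q a e p hpp hpq]
  unfold IsHL
  unfold IsD at hS
  exact hS.congr fun z => (h4 z).symm

end Pool.MP_92ef0c_nt.SH
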