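import Pool.Agent.Lib_MP_92ef0c_sh.Defs

/-! # [SH-E1b] the exceptional primes -/

set_option autoImplicit false

namespace Pool.MP_92ef0c_nt.SH

open Finset

/-- a number below `2 ^ m` has at most `m` prime factors -/
private lemma card_pf {n m : ℕ} (h0 : n ≠ 0) (h : n < 2 ^ m) : n.primeFactors.card ≤ m := by
  have h1 : 2 ^ n.primeFactors.card ≤ ∏ p ∈ n.primeFactors, p :=
    Finset.pow_card_le_prod _ _ _ (fun p hp => (Nat.prime_of_mem_primeFactors hp).two_le)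
  have h2 : ∏ p ∈ n.primeFactors, p ≤ n :=
    Nat.le_of_dvd (Nat.pos_of_ne_zero h0) (Nat.prod_primeFactors_dvd n)
  have h3 : 2 ^ n.primeFactors.card < 2 ^ m := by omega
  exact ((Nat.pow_lt_pow_iff_right (by norm_num)).1 h3).le

/-- the discriminant of two forms -/
private def dsc (l l' : ℕ × ℕ) : ℕ := ((l.1 : ℤ) * l'.2 - l'.1 * l.2).natAbs

private lemma dsc_ne {l l' : ℕ × ℕ} (h2 : Nat.Coprime l.1 l.2) (h1' : 0 < l'.1)
    (h2' : Nat.Coprime l'.1 l'.2) (hne : l ≠ l') : dsc l l' ≠ 0 := by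
  intro h
  have h3 : (l.1 : ℤ) * l'.2 = l'.1 * l.2 := by
    have := Int.natAbs_eq_zero.1 h
    linarith
  have h4 : l.1 * l'.2 = l'.1 * l.2 := by exact_mod_cast h3
  have h5 : l.1 ∣ l'.1 := h2.dvd_of_dvd_mul_right (Dvd.intro _ h4)
  have h6 : l'.1 ∣ l.1 := h2'.dvd_of_dvd_mul_right (Dvd.intro _ h4.symm)
  have h7 : l.1 = l'.1 := Nat.dvd_antisymm h5 h6
  have h8 : l'.2 = l.2 := by
    rw [h7] at h4
    exact Nat.eq_of_mul_eq_mul_left h1' h4
  exact hne (Prod.ext h7 h8.symm)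

private lemma dsc_lt {l l' : ℕ × ℕ} {J : ℕ} (h : l.1 < 2 ^ J) (h2 : l.2 < 2 ^ J)
    (h' : l'.1 < 2 ^ J) (h2' : l'.2 < 2 ^ J) : dsc l l' < 2 ^ (2 * J) := by
  have e : 2 ^ (2 * J) = 2 ^ J * 2 ^ J := by rw [two_mul, pow_add]
  have a : l.1 * l'.2 < 2 ^ J * 2 ^ J := Nat.mul_lt_mul'' h h2'
  have b : l'.1 * l.2 < 2 ^ J * 2 ^ J := Nat.mul_lt_mul'' h' h2
  rw [e, dsc]
  have a' : (l.1 : ℤ) * l'.2 < ((2 ^ J * 2 ^ J : ℕ) : ℤ) := by exact_mod_cast a
  have b' : (l'.1 : ℤ) * l.2 < ((2 ^ J * 2 ^ J : ℕ) : ℤ) := by exact_mod_cast b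
  have a0 : (0 : ℤ) ≤ (l.1 : ℤ) * l'.2 := by positivity
  have b0 : (0 : ℤ) ≤ (l'.1 : ℤ) * l.2 := by positivity
  omega

/-- the root of a form modulo `p` -/
private noncomputable def rt (p : ℕ) (l : ℕ × ℕ) : ℕ :=
  ((-(l.2 : ZMod p)) * (l.1 : ZMod p)⁻¹).val

private lemma rt_iff {p : ℕ} (hp : p.Prime) {l : ℕ × ℕ} (hl : ¬ p ∣ l.1) {c : ℕ} (hc : c < p) :
    p ∣ l.1 * c + l.2 ↔ c = rt p l := by
  haveI : Fact p.Prime := ⟨hp⟩
  have hne : (l.1 : ZMod p) ≠ 0 := by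
    intro h
    exact hl ((ZMod.natCast_eq_zero_iff _ _).1 h)
  rw [← ZMod.natCast_eq_zero_iff, rt]
  push_cast
  constructor
  · intro h
    have h1 : (c : ZMod p) = (-(l.2 : ZMod p)) * (l.1 : ZMod p)⁻¹ := by
      rw [eq_mul_inv_iff_mul_eq₀ hne]
      linear_combination h
    rw [← h1, ZMod.val_natCast, Nat.mod_eq_of_lt hc]
  · intro h
    have h1 : (c : ZMod p) = (-(l.2 : ZMod p)) * (l.1 : ZMod p)⁻¹ := by
      conv_lhs => rw [h]
      rw [ZMod.natCast_zmod_val]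
    rw [h1]
    field_simp
    ring

private lemma rt_lt {p : ℕ} (hp : p.Prime) (l : ℕ × ℕ) : rt p l < p := by
  haveI : Fact p.Prime := ⟨hp⟩
  exact ZMod.val_lt _

private lemma dvd_dsc {p c : ℕ} {l l' : ℕ × ℕ} (h : p ∣ l.1 * c + l.2)
    (h' : p ∣ l'.1 * c + l'.2) : p ∣ dsc l l' := by
  have a : (p : ℤ) ∣ (l.1 : ℤ) * c + l.2 := by exact_mod_cast h
  have b : (p : ℤ) ∣ (l'.1 : ℤ) * c + l'.2 := by exact_mod_cast h'
  rw [dsc, ← Int.natCast_dvd]
  have e : (l.1 : ℤ) * l'.2 - l'.1 * l.2 =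
      (l.1 : ℤ) * ((l'.1 : ℤ) * c + l'.2) - l'.1 * ((l.1 : ℤ) * c + l.2) := by ring
  rw [e]
  exact dvd_sub (Dvd.dvd.mul_left b _) (Dvd.dvd.mul_left a _)

/-- [SH-E1b] PROOF: `X` = prime factors of `∏_{l ∈ L} l.1 * ∏_{(l, l') ∈ L.offDiag} |l.1 l'.2 - l'.1 l.2|`. The
factors are nonzero (two coprime pairs with positive first entries and equal ratio are equal), `< 2^(2J)`; a number
`0 < n < 2^(2J)` has at most `2 J` prime factors, so `|X| ≤ k J + k^2 * 2 J`. For `p ∉ X` every form has exactly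
one root mod `p` and different forms have different roots (a common root `c` gives
`p ∣ l.1 (l'.1 c + l'.2) - l'.1 (l.1 c + l.2)`). -/
theorem exists_disc (k J : ℕ) (L : Finset (ℕ × ℕ)) (hk : L.card ≤ k) (hL : Prim L) (hJ : Bd J L) :
    ∃ X : Finset ℕ, X.card ≤ 2 * (k + 1) ^ 2 * J ∧
      ∀ p, p.Prime → p ∉ X → ∀ A ⊆ L, nuL A p = A.card := by
  classical
  refine ⟨(L.biUnion fun l => l.1.primeFactors) ∪
    (L.offDiag.biUnion fun q => (dsc q.1 q.2).primeFactors), ?_, ?_⟩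
  · have h1 : (L.biUnion fun l => l.1.primeFactors).card ≤ L.card * J :=
      Finset.card_biUnion_le_card_mul _ _ _ (fun l hl => by
        obtain ⟨a, b, c⟩ := hJ l hl
        exact card_pf a.ne' b)
    have h2 : (L.offDiag.biUnion fun q => (dsc q.1 q.2).primeFactors).card ≤
        L.offDiag.card * (2 * J) :=
      Finset.card_biUnion_le_card_mul _ _ _ (fun q hq => by
        obtain ⟨a, b, c⟩ := Finset.mem_offDiag.1 hq
        obtain ⟨a1, a2, a3⟩ := hJ _ a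
        obtain ⟨b1, b2, b3⟩ := hJ _ b
        exact card_pf (dsc_ne (hL _ a).2 b1 (hL _ b).2 c) (dsc_lt a2 a3 b2 b3))
    have h3 : L.offDiag.card ≤ L.card * L.card := by
      rw [Finset.offDiag_card]
      exact Nat.sub_le _ _
    have h4 : L.card * J ≤ k * J := Nat.mul_le_mul_right _ hk
    have h5 : L.offDiag.card * (2 * J) ≤ k * k * (2 * J) :=
      Nat.mul_le_mul_right _ (h3.trans (Nat.mul_le_mul hk hk))
    refine (Finset.card_union_le _ _).trans ?_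
    calc _ ≤ k * J + k * k * (2 * J) := by omega
      _ ≤ 2 * (k + 1) ^ 2 * J := by nlinarith [Nat.zero_le (k * J), Nat.zero_le J]
  · intro p hp hpX A hA
    have hpl : ∀ l ∈ L, ¬ p ∣ l.1 := by
      intro l hl hd
      apply hpX
      rw [Finset.mem_union]
      left
      rw [Finset.mem_biUnion]
      exact ⟨l, hl, Nat.mem_primeFactors.2 ⟨hp, hd, (hJ l hl).1.ne'⟩⟩
    have hpd : ∀ l ∈ L, ∀ l' ∈ L, l ≠ l' → ¬ p ∣ dsc l l' := by
      intro l hl l' hl' hne hd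
      apply hpX
      rw [Finset.mem_union]
      right
      rw [Finset.mem_biUnion]
      exact ⟨(l, l'), Finset.mem_offDiag.2 ⟨hl, hl', hne⟩, Nat.mem_primeFactors.2
        ⟨hp, hd, dsc_ne (hL l hl).2 (hL l' hl').1 (hL l' hl').2 hne⟩⟩
    have hb : bad A p = A.image (rt p) := by
      ext c
      rw [bad, Finset.mem_filter, Finset.mem_range, Finset.mem_image]
      constructor
      · rintro ⟨hc, l, hl, hd⟩
        exact ⟨l, hl, ((rt_iff hp (hpl l (hA hl)) hc).1 hd).symm⟩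
      · rintro ⟨l, hl, rfl⟩
        exact ⟨rt_lt hp l, l, hl, (rt_iff hp (hpl l (hA hl)) (rt_lt hp l)).2 rfl⟩
    rw [nuL, hb]
    apply Finset.card_image_of_injOn
    intro l hl l' hl' he
    by_contra hne
    have e1 := (rt_iff hp (hpl l (hA hl)) (rt_lt hp l)).2 rfl
    have he' : rt p l = rt p l' := he
    have e2 := (rt_iff hp (hpl l' (hA hl')) (rt_lt hp l)).2 he'
    exact hpd l (hA hl) l' (hA hl') hne (dvd_dsc e1 e2)

end Pool.MP_92ef0c_nt.SH
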