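import Pool.Agent.Lib_MP_92ef0c_sh.Defs

/-! # [SH-E2] products of local factors over large primes -/

set_option autoImplicit false

namespace Pool.MP_92ef0c_nt.SH

open Finset
open Pool.MP_92ef0c_nt.PB (Pz V zz Rough rho)

private theorem tp_upper (k : ℕ) (x : ℝ) (h0 : 0 ≤ x) (h1 : x ≤ 1) :
    (1 - x) ^ k ≤ 1 - k * x + (k : ℝ) ^ 2 * x ^ 2 := by
  induction k with
  | zero => simp
  | succ k ih =>
    have h2 : (1 - x) ^ (k + 1) ≤ (1 - x) * (1 - k * x + (k : ℝ) ^ 2 * x ^ 2) := by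
      rw [pow_succ, mul_comm]
      exact mul_le_mul_of_nonneg_left ih (by linarith)
    have hk : (0 : ℝ) ≤ k := Nat.cast_nonneg k
    have h3 : 0 ≤ (k : ℝ) ^ 2 * x ^ 3 := by positivity
    have h4 : 0 ≤ (k : ℝ) * x ^ 2 := by positivity
    have h5 : 0 ≤ x ^ 2 := by positivity
    push_cast
    nlinarith

private theorem tp_lower (k : ℕ) (x : ℝ) (h1 : x ≤ 1) : 1 - k * x ≤ (1 - x) ^ k := by
  have := one_add_mul_le_pow (a := -x) (by linarith) k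
  have h2 : 1 + (k : ℝ) * -x = 1 - k * x := by ring
  have h3 : 1 + -x = 1 - x := by ring
  rw [h2, h3] at this
  exact this

private theorem tp_inv_pow {k m p : ℕ} (hm : m ≤ k) (hp : 2 ≤ p) :
    ((1 - 1 / (p : ℝ))⁻¹) ^ m ≤ 2 ^ k := by
  have h2 : (2 : ℝ) ≤ p := by exact_mod_cast hp
  have h1 : 1 / (p : ℝ) ≤ 1 / 2 := one_div_le_one_div_of_le (by norm_num) h2
  have h3 : (1 - 1 / (p : ℝ))⁻¹ ≤ 2 := by
    rw [inv_le_comm₀ (by linarith) (by norm_num)]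
    linarith
  have h4 : 0 ≤ (1 - 1 / (p : ℝ))⁻¹ := by
    rw [inv_nonneg]
    linarith
  calc ((1 - 1 / (p : ℝ))⁻¹) ^ m ≤ 2 ^ m := pow_le_pow_left₀ h4 h3 m
    _ ≤ 2 ^ k := pow_le_pow_right₀ (by norm_num) hm

/-- the diagonal factor -/
private theorem tp_diag {k m p : ℕ} (hm : m ≤ k) (hp : 2 ≤ p) :
    |ph p m m - 1| ≤ 2 ^ k * (k : ℝ) ^ 2 * ((p : ℝ) ^ 2)⁻¹ := by
  have h2 : (2 : ℝ) ≤ p := by exact_mod_cast hp
  have hp0 : (0 : ℝ) < p := by linarith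
  unfold ph
  have hx0 : 0 ≤ 1 / (p : ℝ) := by positivity
  have hx1 : 1 / (p : ℝ) ≤ 1 / 2 := one_div_le_one_div_of_le (by norm_num) h2
  have hk1 : (m : ℝ) / p = m * (1 / (p : ℝ)) := by ring
  have hk2 : ((p : ℝ) ^ 2)⁻¹ = (1 / (p : ℝ)) ^ 2 := by
    rw [div_pow, one_pow, one_div]
  have hpow := tp_inv_pow hm hp
  rw [hk1, hk2]
  set x := 1 / (p : ℝ)
  have hApos : 0 < (1 - x) ^ m := pow_pos (by linarith) m
  have hlow := tp_lower m x (by linarith)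
  have hup := tp_upper m x hx0 (by linarith)
  have heq : (1 - m * x) * ((1 - x)⁻¹) ^ m - 1 =
      -(((1 - x) ^ m - (1 - m * x)) * ((1 - x)⁻¹) ^ m) := by
    rw [inv_pow]
    field_simp
    ring
  have hB : 0 ≤ ((1 - x)⁻¹) ^ m := by
    rw [inv_pow]
    positivity
  rw [heq, abs_neg, abs_of_nonneg (mul_nonneg (by linarith) hB)]
  have hmk : (m : ℝ) ≤ k := by exact_mod_cast hm
  have h3 : (m : ℝ) ^ 2 * x ^ 2 ≤ (k : ℝ) ^ 2 * x ^ 2 := by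
    have : (m : ℝ) ^ 2 ≤ (k : ℝ) ^ 2 := pow_le_pow_left₀ (by positivity) hmk 2
    exact mul_le_mul_of_nonneg_right this (by positivity)
  calc ((1 - x) ^ m - (1 - m * x)) * ((1 - x)⁻¹) ^ m
      ≤ ((k : ℝ) ^ 2 * x ^ 2) * 2 ^ k := by
        apply mul_le_mul (by linarith) hpow hB (by positivity)
    _ = 2 ^ k * (k : ℝ) ^ 2 * x ^ 2 := by ring

/-- all factors -/
private theorem tp_fac {k m ν p : ℕ} (hν : ν ≤ m) (hm : m ≤ k) (hp : 2 ≤ p) :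
    |ph p m ν - 1| ≤ 2 ^ k * (k : ℝ) ^ 2 * ((p : ℝ) ^ 2)⁻¹ + 2 ^ k * k * (p : ℝ)⁻¹ := by
  have h1 := tp_diag hm hp
  have hpow := tp_inv_pow hm hp
  have h2 : (2 : ℝ) ≤ p := by exact_mod_cast hp
  have hx1 : 1 / (p : ℝ) ≤ 1 / 2 := one_div_le_one_div_of_le (by norm_num) h2
  have hB : 0 ≤ ((1 - 1 / (p : ℝ))⁻¹) ^ m := by
    apply pow_nonneg
    rw [inv_nonneg]
    linarith
  have h3 : ph p m ν - 1 = (ph p m m - 1) + (((m : ℝ) - ν) / p) * ((1 - 1 / (p : ℝ))⁻¹) ^ m := by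
    unfold ph
    ring
  rw [h3]
  refine (abs_add_le _ _).trans (add_le_add h1 ?_)
  have hνR : (ν : ℝ) ≤ m := by exact_mod_cast hν
  have hmR : (m : ℝ) ≤ k := by exact_mod_cast hm
  have h5 : 0 ≤ ((m : ℝ) - ν) / p := div_nonneg (by linarith) (by linarith)
  rw [abs_of_nonneg (mul_nonneg h5 hB)]
  have h6 : ((m : ℝ) - ν) / p ≤ k * (p : ℝ)⁻¹ := by
    rw [div_eq_mul_inv]
    refine mul_le_mul_of_nonneg_right ?_ (by positivity)
    have : (0 : ℝ) ≤ ν := Nat.cast_nonneg ν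
    linarith
  calc ((m : ℝ) - ν) / p * ((1 - 1 / (p : ℝ))⁻¹) ^ m ≤ (k * (p : ℝ)⁻¹) * 2 ^ k :=
        mul_le_mul h6 hpow hB (by positivity)
    _ = 2 ^ k * k * (p : ℝ)⁻¹ := by ring

/-- [SH-E2] PROOF: for `p ≥ 2k + 2`: `1 - k/p ≤ 1 - ν/p ≤ ph p m ν ≤ (1 - 1/p)^(-k)`, so `|ph - 1| ≤ C₁/p`, and
`|ph p m m - 1| ≤ C₁/p^2` (see `loc_sub_one_hl` in `Lib_MP_92ef0c_pb/HL.lean`). The product of factors
`1 + x_p` with `∑ |x_p| ≤ s ≤ 1/2`: `|∏ (1 + x_p) - 1| ≤ exp s - 1 ≤ 2 s`; here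
`s ≤ ∑_{p > z} C₁/p^2 + |X| C₁/z ≤ 2 C₁ (1 + |X|)/z`. -/
theorem tail_prod (k : ℕ) : ∃ C : ℝ, 0 < C ∧ ∀ (X : Finset ℕ) (m ν : ℕ → ℕ),
    (∀ p, p.Prime → ν p ≤ m p ∧ m p ≤ k) → (∀ p, p.Prime → p ∉ X → ν p = m p) →
    ∀ z Z : ℕ, C * (1 + X.card) ≤ z →
      |∏ p ∈ (Pz Z).filter (fun p => z < p), ph p (m p) (ν p) - 1| ≤ C * (1 + X.card) / z := by
  classical
  set C₁ : ℝ := 2 ^ k * ((k : ℝ) ^ 2 + k) + 1 with hC₁
  have hC₁p : 0 < C₁ := by positivity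
  refine ⟨2 * C₁, by positivity, fun X m ν h1 h2 z Z hz => ?_⟩
  have hXc : (0 : ℝ) ≤ X.card := Nat.cast_nonneg _
  have hz0 : (0 : ℝ) < z := by
    have : 0 < 2 * C₁ * (1 + (X.card : ℝ)) := by positivity
    linarith
  have hzn : z ≠ 0 := by
    rintro rfl
    simp at hz0
  set S := (Pz Z).filter (fun p => z < p) with hS
  have hmem : ∀ p ∈ S, p.Prime ∧ z < p ∧ p ≤ Z := by
    intro p hp
    rw [hS, mem_filter] at hp
    unfold Pz at hp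
    rw [mem_filter, mem_Icc] at hp
    exact ⟨hp.1.2, hp.2, hp.1.1.2⟩
  -- the sum
  have hsum : ∑ p ∈ S, |ph p (m p) (ν p) - 1| ≤ C₁ * (1 + X.card) / z := by
    have e1 : ∀ p ∈ S, |ph p (m p) (ν p) - 1| ≤
        2 ^ k * (k : ℝ) ^ 2 * ((p : ℝ) ^ 2)⁻¹ + (if p ∈ X then 2 ^ k * k * (z : ℝ)⁻¹ else 0) := by
      intro p hp
      obtain ⟨hpp, hzp, -⟩ := hmem p hp
      obtain ⟨hν, hm⟩ := h1 p hpp
      by_cases hX : p ∈ X
      · rw [if_pos hX]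
        refine (tp_fac hν hm hpp.two_le).trans ?_
        have e2 : (p : ℝ)⁻¹ ≤ (z : ℝ)⁻¹ := by
          apply inv_anti₀ hz0
          exact_mod_cast hzp.le
        have e3 : (2 : ℝ) ^ k * k * (p : ℝ)⁻¹ ≤ 2 ^ k * k * (z : ℝ)⁻¹ :=
          mul_le_mul_of_nonneg_left e2 (by positivity)
        linarith
      · rw [if_neg hX, add_zero, h2 p hpp hX]
        exact tp_diag hm hpp.two_le
    refine (sum_le_sum e1).trans ?_
    rw [sum_add_distrib, ← mul_sum, ← sum_filter, sum_const, nsmul_eq_mul]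
    have e4 : ∑ p ∈ S, ((p : ℝ) ^ 2)⁻¹ ≤ (z : ℝ)⁻¹ := by
      rcases le_or_gt z Z with hzZ | hzZ
      · calc ∑ p ∈ S, ((p : ℝ) ^ 2)⁻¹ ≤ ∑ p ∈ Ioc z Z, ((p : ℝ) ^ 2)⁻¹ := by
              refine sum_le_sum_of_subset_of_nonneg ?_ fun p _ _ => by positivity
              intro p hp
              obtain ⟨-, h3, h4⟩ := hmem p hp
              exact mem_Ioc.2 ⟨h3, h4⟩
          _ ≤ (z : ℝ)⁻¹ - (Z : ℝ)⁻¹ := sum_Ioc_inv_sq_le_sub hzn hzZ
          _ ≤ (z : ℝ)⁻¹ := by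
              have : (0 : ℝ) ≤ (Z : ℝ)⁻¹ := by positivity
              linarith
      · have : S = ∅ := by
          apply eq_empty_of_forall_notMem
          intro p hp
          obtain ⟨-, h3, h4⟩ := hmem p hp
          omega
        rw [this, sum_empty]
        positivity
    have e5 : (((S.filter (fun p => p ∈ X)).card : ℕ) : ℝ) ≤ X.card := by
      have : (S.filter (fun p => p ∈ X)).card ≤ X.card := by
        apply card_le_card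
        intro p hp
        exact (mem_filter.1 hp).2
      exact_mod_cast this
    have e6 : (2 : ℝ) ^ k * (k : ℝ) ^ 2 * ∑ p ∈ S, ((p : ℝ) ^ 2)⁻¹ ≤ 2 ^ k * (k : ℝ) ^ 2 * (z : ℝ)⁻¹ :=
      mul_le_mul_of_nonneg_left e4 (by positivity)
    have e7 : (((S.filter (fun p => p ∈ X)).card : ℕ) : ℝ) * (2 ^ k * k * (z : ℝ)⁻¹) ≤
        X.card * (2 ^ k * k * (z : ℝ)⁻¹) := mul_le_mul_of_nonneg_right e5 (by positivity)
    refine (add_le_add e6 e7).trans ?_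
    rw [div_eq_mul_inv]
    have hzi : 0 ≤ (z : ℝ)⁻¹ := by positivity
    have e8 : (2 : ℝ) ^ k * (k : ℝ) ^ 2 + X.card * (2 ^ k * k) ≤ C₁ * (1 + X.card) := by
      rw [hC₁]
      have a1 : 0 ≤ (2 : ℝ) ^ k * k := by positivity
      have a2 : 0 ≤ (2 : ℝ) ^ k * (k : ℝ) ^ 2 * X.card := by positivity
      nlinarith
    have e9 := mul_le_mul_of_nonneg_right e8 hzi
    linarith
  have hs2 : C₁ * (1 + X.card) / z ≤ 1 / 2 := by
    rw [div_le_iff₀ hz0]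
    linarith
  have hprod : |∏ p ∈ S, ph p (m p) (ν p) - 1| ≤
      Real.exp (∑ p ∈ S, |ph p (m p) (ν p) - 1|) - 1 := by
    have := norm_prod_one_add_sub_one_le S (fun p => ph p (m p) (ν p) - 1)
    simpa using this
  have hnn : 0 ≤ ∑ p ∈ S, |ph p (m p) (ν p) - 1| := sum_nonneg fun _ _ => abs_nonneg _
  have hexp := Real.abs_exp_sub_one_le (x := ∑ p ∈ S, |ph p (m p) (ν p) - 1|) (by
    rw [abs_of_nonneg hnn]
    linarith)
  rw [abs_of_nonneg hnn] at hexp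
  have h10 := (le_abs_self _).trans hexp
  calc |∏ p ∈ S, ph p (m p) (ν p) - 1| ≤ 2 * ∑ p ∈ S, |ph p (m p) (ν p) - 1| := hprod.trans h10
    _ ≤ 2 * (C₁ * (1 + X.card) / z) := by linarith
    _ = 2 * C₁ * (1 + X.card) / z := by ring

end Pool.MP_92ef0c_nt.SH
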