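import Pool.Agent.Lib_MP_92ef0c_sh.Local
import Pool.Agent.Lib_MP_92ef0c_sh.Disc
import Pool.Agent.Lib_MP_92ef0c_sh.Tail
import Pool.Agent.Lib_MP_92ef0c_pb.HL

/-! # [SH-E4a] bound of the products -/

set_option autoImplicit false

namespace Pool.MP_92ef0c_nt.SH

open Finset
open Pool.MP_92ef0c_nt.PB (Pz V zz Rough rho)

/-- [SH-E4a] PROOF: `0 ≤ ph` (`nuL ≤ p`). Upper bound: the primes `≤ 2k + 2` contribute at most a constant (`ph ≤ 2^k`),
the primes in `X` (`exists_disc`) at most `∏ (1 - 1/p)^(-k) ≤ (1 + |X|)^k` (`prod_div_le` of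
`Lib_MP_92ef0c_pb/HL.lean`), the others `≤ 1 + C/p^2`. -/
theorem SSL_bound (k : ℕ) : ∃ C : ℝ, 0 < C ∧ ∀ (J : ℕ) (L : Finset (ℕ × ℕ)), L.card ≤ k → Prim L →
    Bd J L → ∀ z, 0 ≤ SSL L z ∧ SSL L z ≤ C * (1 + (J : ℝ)) ^ k := by
  refine ⟨(2 * ((k : ℝ) + 1) ^ 2) ^ k, by positivity, ?_⟩
  intro J L hk hL hJ z
  obtain ⟨X, hX, hXp⟩ := exists_disc k J L hk hL hJ
  have hprime : ∀ p ∈ Pz z, p.Prime := fun p hp => (mem_filter.1 hp).2
  have hfac0 : ∀ p ∈ Pz z, 0 ≤ ph p L.card (nuL L p) := by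
    intro p hp
    have h2 : (2 : ℝ) ≤ p := by exact_mod_cast (hprime p hp).two_le
    have hν : (nuL L p : ℝ) ≤ p := by exact_mod_cast nuL_le_p L p
    unfold ph
    refine mul_nonneg ?_ (pow_nonneg ?_ _)
    · rw [sub_nonneg, div_le_one (by linarith)]
      exact hν
    · rw [inv_nonneg, sub_nonneg, div_le_one (by linarith)]
      linarith
  have hfac1 : ∀ p ∈ Pz z, ph p L.card (nuL L p) ≤
      if p ∈ X then ((1 - 1 / (p : ℝ))⁻¹) ^ k else 1 := by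
    intro p hp
    have h2 : (2 : ℝ) ≤ p := by exact_mod_cast (hprime p hp).two_le
    have hx0 : 0 < 1 / (p : ℝ) := by positivity
    have hx1 : 1 / (p : ℝ) ≤ 1 / 2 := one_div_le_one_div_of_le (by norm_num) h2
    have hg : 0 < 1 - 1 / (p : ℝ) := by linarith
    have hg1 : 1 ≤ (1 - 1 / (p : ℝ))⁻¹ := (one_le_inv₀ hg).2 (by linarith)
    split_ifs with hpX
    · unfold ph
      have h3 : 1 - (nuL L p : ℝ) / p ≤ 1 := by
        have : 0 ≤ (nuL L p : ℝ) / p := by positivity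
        linarith
      calc (1 - (nuL L p : ℝ) / p) * ((1 - 1 / (p : ℝ))⁻¹) ^ L.card
          ≤ 1 * ((1 - 1 / (p : ℝ))⁻¹) ^ L.card :=
            mul_le_mul_of_nonneg_right h3 (pow_nonneg (by linarith) _)
        _ = ((1 - 1 / (p : ℝ))⁻¹) ^ L.card := one_mul _
        _ ≤ ((1 - 1 / (p : ℝ))⁻¹) ^ k := pow_le_pow_right₀ hg1 hk
    · unfold ph
      rw [hXp p (hprime p hp) hpX L (Subset.refl L), inv_pow, ← div_eq_mul_inv,
        div_le_one (pow_pos hg _)]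
      have h4 := one_add_mul_le_pow (a := -(1 / (p : ℝ))) (by linarith) L.card
      have h5 : 1 + (L.card : ℝ) * -(1 / (p : ℝ)) = 1 - (L.card : ℝ) / p := by ring
      have h6 : 1 + -(1 / (p : ℝ)) = 1 - 1 / (p : ℝ) := by ring
      rw [h5, h6] at h4
      exact h4
  refine ⟨prod_nonneg hfac0, ?_⟩
  have hg0 : ∀ p ∈ (Pz z).filter (fun p => p ∈ X), 0 ≤ (1 - 1 / (p : ℝ))⁻¹ := by
    intro p hp
    have h2 : (2 : ℝ) ≤ p := by exact_mod_cast (hprime p (mem_filter.1 hp).1).two_le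
    rw [inv_nonneg, sub_nonneg, div_le_one (by linarith)]
    linarith
  have hcard : (((Pz z).filter (fun p => p ∈ X)).card : ℝ) ≤ 2 * ((k : ℝ) + 1) ^ 2 * J := by
    have h1 : ((Pz z).filter (fun p => p ∈ X)).card ≤ X.card :=
      card_le_card fun p hp => (mem_filter.1 hp).2
    exact_mod_cast h1.trans hX
  calc SSL L z = ∏ p ∈ Pz z, ph p L.card (nuL L p) := rfl
    _ ≤ ∏ p ∈ Pz z, (if p ∈ X then ((1 - 1 / (p : ℝ))⁻¹) ^ k else 1) := prod_le_prod hfac0 hfac1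
    _ = ∏ p ∈ (Pz z).filter (fun p => p ∈ X), ((1 - 1 / (p : ℝ))⁻¹) ^ k := (prod_filter _ _).symm
    _ = (∏ p ∈ (Pz z).filter (fun p => p ∈ X), (1 - 1 / (p : ℝ))⁻¹) ^ k := prod_pow _ _ _
    _ ≤ ((((Pz z).filter (fun p => p ∈ X)).card : ℝ) + 1) ^ k :=
        pow_le_pow_left₀ (prod_nonneg hg0) (Pool.MP_92ef0c_nt.PB.prod_div_le _
          (fun p hp => (hprime p (mem_filter.1 hp).1).two_le)) k
    _ ≤ (2 * ((k : ℝ) + 1) ^ 2 * (1 + (J : ℝ))) ^ k := by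
        refine pow_le_pow_left₀ (by positivity) ?_ k
        have hk0 : (0 : ℝ) ≤ k := Nat.cast_nonneg k
        nlinarith
    _ = (2 * ((k : ℝ) + 1) ^ 2) ^ k * (1 + (J : ℝ)) ^ k := mul_pow _ _ _

end Pool.MP_92ef0c_nt.SH
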