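import Pool.Agent.Lib_MP_92ef0c_sh.Local
import Pool.Agent.Lib_MP_92ef0c_sh.Disc
import Pool.Agent.Lib_MP_92ef0c_sh.Tail
import Pool.Agent.Lib_MP_92ef0c_pb.HL

/-! # [SH-E3] existence of the singular series -/

set_option autoImplicit false

namespace Pool.MP_92ef0c_nt.SH

open Finset
open Pool.MP_92ef0c_nt.PB (Pz V zz Rough rho)

private theorem pow_upper_E3 (k : ℕ) (x : ℝ) (h0 : 0 ≤ x) (h1 : x ≤ 1) :
    (1 - x) ^ k ≤ 1 - k * x + (k : ℝ) ^ 2 * x ^ 2 := by
  induction k with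
  | zero => simp
  | succ k ih =>
    have h2 : (1 - x) ^ (k + 1) ≤ (1 - x) * (1 - k * x + (k : ℝ) ^ 2 * x ^ 2) := by
      rw [pow_succ, mul_comm]
      exact mul_le_mul_of_nonneg_left ih (by linarith)
    have hk : (0 : ℝ) ≤ k := Nat.cast_nonneg k
    have h3 : 0 ≤ (k : ℝ) ^ 2 * x ^ 3 := by positivity
    have h4 : 0 ≤ (k : ℝ) * x ^ 2 := by positivity
    have h5 : 0 ≤ x ^ 2 := by positivity
    push_cast
    nlinarith

private theorem pow_lower_E3 (k : ℕ) (x : ℝ) (h1 : x ≤ 1) :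
    1 - k * x ≤ (1 - x) ^ k := by
  have := one_add_mul_le_pow (a := -x) (by linarith) k
  have h2 : 1 + (k : ℝ) * -x = 1 - k * x := by ring
  have h3 : 1 + -x = 1 - x := by ring
  rw [h2, h3] at this
  exact this

/-- for `ν = m` the local factor is `1 + O(1/p²)` -/
private theorem ph_sub_one_E3 (k p : ℕ) (hp2 : 2 ≤ p) :
    |ph p k k - 1| ≤ (2 ^ k * (k : ℝ) ^ 2) * (1 / (p : ℝ) ^ 2) := by
  have h2 : (2 : ℝ) ≤ p := by exact_mod_cast hp2
  have hp0 : (0 : ℝ) < p := by linarith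
  unfold ph
  have hx0 : 0 ≤ 1 / (p : ℝ) := by positivity
  have hx1 : 1 / (p : ℝ) ≤ 1 / 2 := one_div_le_one_div_of_le (by norm_num) h2
  have hk1 : (k : ℝ) / p = k * (1 / (p : ℝ)) := by ring
  have hk2 : (1 / (p : ℝ) ^ 2) = (1 / (p : ℝ)) ^ 2 := by
    rw [div_pow, one_pow]
  rw [hk1, hk2]
  set x := 1 / (p : ℝ)
  have hA0 : (1 / 2 : ℝ) ^ k ≤ (1 - x) ^ k := by
    apply pow_le_pow_left₀ (by norm_num)
    linarith
  have hApos : 0 < (1 - x) ^ k := lt_of_lt_of_le (by positivity) hA0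
  have hlow := pow_lower_E3 k x (by linarith)
  have hup := pow_upper_E3 k x hx0 (by linarith)
  have heq : (1 - k * x) * ((1 - x)⁻¹) ^ k - 1 = -(((1 - x) ^ k - (1 - k * x)) / (1 - x) ^ k) := by
    rw [inv_pow]
    field_simp
    ring
  rw [heq, abs_neg, abs_of_nonneg (div_nonneg (by linarith) hApos.le), div_le_iff₀ hApos]
  have hb : 1 ≤ 2 ^ k * (1 - x) ^ k := by
    calc (1 : ℝ) = 2 ^ k * (1 / 2) ^ k := by rw [← mul_pow]; norm_num
      _ ≤ 2 ^ k * (1 - x) ^ k := mul_le_mul_of_nonneg_left hA0 (by positivity)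
  have hkx : 0 ≤ (k : ℝ) ^ 2 * x ^ 2 := by positivity
  calc (1 - x) ^ k - (1 - k * x) ≤ ((k : ℝ) ^ 2 * x ^ 2) * 1 := by linarith
    _ ≤ ((k : ℝ) ^ 2 * x ^ 2) * (2 ^ k * (1 - x) ^ k) := mul_le_mul_of_nonneg_left hb hkx
    _ = 2 ^ k * (k : ℝ) ^ 2 * x ^ 2 * (1 - x) ^ k := by ring

private theorem exists_Bd_E3 (L : Finset (ℕ × ℕ)) (hL : Prim L) : ∃ J : ℕ, Bd J L := by
  refine ⟨L.sup (fun l => max l.1 l.2), fun l hl => ?_⟩
  have h1 : max l.1 l.2 ≤ L.sup (fun l => max l.1 l.2) :=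
    Finset.le_sup (f := fun l : ℕ × ℕ => max l.1 l.2) hl
  have h2 : L.sup (fun l => max l.1 l.2) < 2 ^ (L.sup (fun l => max l.1 l.2)) :=
    Nat.lt_two_pow_self
  have h3 := le_max_left l.1 l.2
  have h4 := le_max_right l.1 l.2
  exact ⟨(hL l hl).1, by omega, by omega⟩

/-- [SH-E3] PROOF: `SSL L` is a Cauchy sequence: for `z' ≥ z` large, `SSL z' = SSL z * ∏_{z < p ≤ z'}` and the
last product is `1 + O(1/z)` by `tail_prod` (`m = |L|`, `ν = nuL L`, `X` of `exists_disc`), and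
`SSL z` is bounded. Or as `HL_exists` in `Lib_MP_92ef0c_pb/HL.lean`: all but finitely many factors are `1 + O(1/p^2)`. -/
theorem SSL_exists (L : Finset (ℕ × ℕ)) (hL : Prim L) : ∃ S : ℝ, IsD L S := by
  classical
  obtain ⟨J, hJ⟩ := exists_Bd_E3 L hL
  obtain ⟨X, -, hX⟩ := exists_disc L.card J L le_rfl hL hJ
  set f : ℕ → ℝ := fun n => if n.Prime then ph n L.card (nuL L n) - 1 else 0 with hf
  have hsum : Summable f := by
    refine Summable.of_norm_bounded_eventually_nat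
      (g := fun n : ℕ => (2 ^ L.card * (L.card : ℝ) ^ 2) * (1 / (n : ℝ) ^ 2)) ?_ ?_
    · exact (Real.summable_one_div_nat_pow.2 (by norm_num)).mul_left _
    · filter_upwards [Filter.eventually_gt_atTop (X.sup id)] with n hn
      rw [hf, Real.norm_eq_abs]
      simp only
      split_ifs with hp
      · have hnX : n ∉ X := by
          intro h
          have : n ≤ X.sup id := Finset.le_sup (f := id) h
          omega
        rw [hX n hp hnX L (Finset.Subset.refl L)]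
        exact ph_sub_one_E3 L.card n hp.two_le
      · rw [abs_zero]
        positivity
  have hmul : Multipliable (fun n => 1 + f n) := by
    apply multipliable_one_add_of_summable
    exact hsum.norm
  refine ⟨∏' n, (1 + f n), ?_⟩
  have ht := hmul.hasProd.tendsto_prod_nat
  unfold IsD
  have ht2 := ht.comp (Filter.tendsto_add_atTop_nat 1)
  refine ht2.congr fun z => ?_
  simp only [Function.comp_apply]
  unfold SSL Pz
  have hset : (Icc 1 z).filter Nat.Prime = (range (z + 1)).filter Nat.Prime := by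
    ext p
    simp only [mem_filter, mem_Icc, mem_range]
    constructor
    · rintro ⟨⟨h1, h2⟩, h3⟩
      exact ⟨by omega, h3⟩
    · rintro ⟨h1, h3⟩
      exact ⟨⟨h3.one_le, by omega⟩, h3⟩
  rw [hset, prod_filter]
  refine prod_congr rfl fun n _ => ?_
  rw [hf]
  simp only
  split_ifs with h
  · ring
  · ring

end Pool.MP_92ef0c_nt.SH
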