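import Pool.Agent.Lib_MP_92ef0c_sh.Local
import Pool.Agent.Lib_MP_92ef0c_sh.Tail
import Pool.Agent.Lib_MP_92ef0c_pb.HL
import Pool.Agent.Lib_MP_92ef0c_sh.SeriesE
import Pool.Agent.Lib_MP_92ef0c_sh.SeriesB

/-! # [SH-E3, E4] the singular series -/

set_option autoImplicit false

namespace Pool.MP_92ef0c_nt.SH

open Finset
open Pool.MP_92ef0c_nt.PB (Pz V zz Rough rho)

private theorem SSL_split (L : Finset (ℕ × ℕ)) (z Z : ℕ) (h : z ≤ Z) :
    SSL L Z = SSL L z * ∏ p ∈ (Pz Z).filter (fun p => z < p), ph p L.card (nuL L p) := by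
  unfold SSL
  rw [← prod_filter_mul_prod_filter_not (Pz Z) (fun p => z < p), mul_comm]
  have h1 : (Pz Z).filter (fun p => ¬ z < p) = Pz z := by
    ext p
    unfold Pz
    simp only [mem_filter, mem_Icc, not_lt]
    constructor
    · rintro ⟨⟨h1, h2⟩, h3⟩
      exact ⟨⟨h1.1, h3⟩, h2⟩
    · rintro ⟨h1, h2⟩
      exact ⟨⟨⟨h1.1, h1.2.trans h⟩, h2⟩, h1.2⟩
  rw [h1]

/-- [SH-E4b] PROOF: the bounds pass to the limit. For `z ≥ C (1 + |X|)` use `SSL z' = SSL z * tail`, `tail_prod`,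
`z' → ∞`, `SSL_bound`; for smaller `z` both are `≤ C (1+J)^k` and `(1+J)/z ≥ 1/C'`. -/
theorem SSL_quant (k : ℕ) : ∃ C : ℝ, 0 < C ∧ ∀ (J : ℕ) (L : Finset (ℕ × ℕ)), L.card ≤ k → Prim L →
    Bd J L → ∀ S, IsD L S → 0 ≤ S ∧ S ≤ C * (1 + (J : ℝ)) ^ k ∧
      ∀ z : ℕ, 1 ≤ z → |SSL L z - S| ≤ C * (1 + (J : ℝ)) ^ (k + 1) / z := by
  obtain ⟨C₁, hC₁, hb⟩ := SSL_bound k
  obtain ⟨C₂, hC₂, ht⟩ := tail_prod k
  have hA0 : (0 : ℝ) < 1 + 2 * ((k : ℝ) + 1) ^ 2 := by positivity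
  refine ⟨C₁ + C₁ * C₂ * (1 + 2 * ((k : ℝ) + 1) ^ 2), by positivity, ?_⟩
  intro J L hk hL hJ S hS
  have hJ0 : (0 : ℝ) ≤ J := Nat.cast_nonneg J
  have hS0 : 0 ≤ S := ge_of_tendsto' hS fun z => (hb J L hk hL hJ z).1
  have hS1 : S ≤ C₁ * (1 + (J : ℝ)) ^ k := le_of_tendsto' hS fun z => (hb J L hk hL hJ z).2
  refine ⟨hS0, hS1.trans ?_, ?_⟩
  · refine mul_le_mul_of_nonneg_right ?_ (by positivity)
    have : 0 ≤ C₁ * C₂ * (1 + 2 * ((k : ℝ) + 1) ^ 2) := by positivity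
    linarith
  intro z hz
  obtain ⟨X, hX, hXp⟩ := exists_disc k J L hk hL hJ
  have hXA : 1 + (X.card : ℝ) ≤ (1 + 2 * ((k : ℝ) + 1) ^ 2) * (1 + J) := by
    have h1 : (X.card : ℝ) ≤ 2 * ((k : ℝ) + 1) ^ 2 * J := by exact_mod_cast hX
    have h2 : (0 : ℝ) ≤ 2 * ((k : ℝ) + 1) ^ 2 := by positivity
    nlinarith
  have hz0 : (0 : ℝ) < z := by exact_mod_cast hz
  have key : |SSL L z - S| ≤ C₁ * (1 + (J : ℝ)) ^ k * (C₂ * (1 + X.card) / z) := by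
    by_cases hc : C₂ * (1 + (X.card : ℝ)) ≤ z
    · have h1 : ∀ᶠ Z in Filter.atTop, |SSL L z - SSL L Z| ≤
          C₁ * (1 + (J : ℝ)) ^ k * (C₂ * (1 + X.card) / z) := by
        filter_upwards [Filter.eventually_ge_atTop z] with Z hZ
        have h2 := SSL_split L z Z hZ
        have h3 := ht X (fun _ => L.card) (nuL L) (fun p hp => ⟨nuL_le L hL p hp, hk⟩)
          (fun p hp hpX => hXp p hp hpX L (Subset.refl L)) z Z hc
        obtain ⟨h4, h5⟩ := hb J L hk hL hJ z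
        rw [h2]
        have h6 : SSL L z - SSL L z * (∏ p ∈ (Pz Z).filter (fun p => z < p),
            ph p L.card (nuL L p)) = -(SSL L z * ((∏ p ∈ (Pz Z).filter (fun p => z < p),
            ph p L.card (nuL L p)) - 1)) := by ring
        rw [h6, abs_neg, abs_mul, abs_of_nonneg h4]
        exact mul_le_mul h5 h3 (abs_nonneg _) (by positivity)
      have h7 : Filter.Tendsto (fun Z => |SSL L z - SSL L Z|) Filter.atTop
          (nhds |SSL L z - S|) := (tendsto_const_nhds.sub hS).abs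
      exact le_of_tendsto h7 h1
    · have hc' : (z : ℝ) < C₂ * (1 + (X.card : ℝ)) := lt_of_not_ge hc
      have h1 : 1 ≤ C₂ * (1 + (X.card : ℝ)) / z := (one_le_div hz0).2 hc'.le
      obtain ⟨h4, h5⟩ := hb J L hk hL hJ z
      have h6 : |SSL L z - S| ≤ C₁ * (1 + (J : ℝ)) ^ k := by
        rw [abs_sub_le_iff]
        constructor <;> linarith
      calc |SSL L z - S| ≤ C₁ * (1 + (J : ℝ)) ^ k * 1 := by rw [mul_one]; exact h6
        _ ≤ C₁ * (1 + (J : ℝ)) ^ k * (C₂ * (1 + X.card) / z) :=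
          mul_le_mul_of_nonneg_left h1 (by positivity)
  refine key.trans ?_
  rw [← mul_div_assoc]
  refine div_le_div_of_nonneg_right ?_ hz0.le
  calc C₁ * (1 + (J : ℝ)) ^ k * (C₂ * (1 + X.card))
      ≤ C₁ * (1 + (J : ℝ)) ^ k * (C₂ * ((1 + 2 * ((k : ℝ) + 1) ^ 2) * (1 + J))) :=
        mul_le_mul_of_nonneg_left (mul_le_mul_of_nonneg_left hXA hC₂.le) (by positivity)
    _ = C₁ * C₂ * (1 + 2 * ((k : ℝ) + 1) ^ 2) * (1 + (J : ℝ)) ^ (k + 1) := by ring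
    _ ≤ (C₁ + C₁ * C₂ * (1 + 2 * ((k : ℝ) + 1) ^ 2)) * (1 + (J : ℝ)) ^ (k + 1) :=
        mul_le_mul_of_nonneg_right (by linarith) (by positivity)

end Pool.MP_92ef0c_nt.SH
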