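import Pool.Agent.Lib_MP_92ef0c_sh.Defs

/-! # [SH-C3] the number of tests -/

set_option autoImplicit false

namespace Pool.MP_92ef0c_nt.SH

open Finset

/-- tests `(M, i, L, u, v, c)`: `M, |L| < N`, all parameters `< 2 ^ M`, colour `c ≤ Del |L| M` -/
def tests (N : ℕ) : Finset (ℕ × ℕ × Finset (ℕ × ℕ) × ℕ × ℕ × ℕ) :=
  (range N ×ˢ range N).biUnion (fun q =>
    (range (2 ^ q.1) ×ˢ (range (2 ^ q.1) ×ˢ range (2 ^ q.1)).powersetCard q.2 ×ˢ
      range (2 ^ q.1) ×ˢ range (2 ^ q.1) ×ˢ range (Del q.2 q.1 + 1)).image (fun t => (q.1, t)))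

/-- [SH-C3a] PROOF: unfold. -/
theorem mem_tests (N M i u v c : ℕ) (L : Finset (ℕ × ℕ)) :
    (M, i, L, u, v, c) ∈ tests N ↔ M < N ∧ L.card < N ∧ i < 2 ^ M ∧
      L ⊆ range (2 ^ M) ×ˢ range (2 ^ M) ∧ u < 2 ^ M ∧ v < 2 ^ M ∧ c ≤ Del L.card M := by
  unfold tests
  constructor
  · intro h
    obtain ⟨q, hq, ht⟩ := mem_biUnion.1 h
    obtain ⟨t, ht1, ht2⟩ := mem_image.1 ht
    obtain ⟨h1, h2⟩ := Prod.mk.inj ht2
    rw [h2] at ht1
    obtain ⟨hi, ht1⟩ := mem_product.1 ht1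
    obtain ⟨hL, ht1⟩ := mem_product.1 ht1
    obtain ⟨hu, ht1⟩ := mem_product.1 ht1
    obtain ⟨hv, hc⟩ := mem_product.1 ht1
    obtain ⟨hq1, hq2⟩ := mem_product.1 hq
    obtain ⟨hL1, hL2⟩ := mem_powersetCard.1 hL
    rw [mem_range] at hi hu hv hc hq1 hq2
    dsimp only at hi hu hv hc hL1 hL2
    rw [h1] at hq1 hi hu hv hc hL1
    rw [hL2]
    exact ⟨hq1, hq2, hi, hL1, hu, hv, Nat.lt_succ_iff.1 hc⟩
  · rintro ⟨h1, h2, h3, h4, h5, h6, h7⟩
    refine mem_biUnion.2 ⟨(M, L.card), mem_product.2 ⟨mem_range.2 h1, mem_range.2 h2⟩, ?_⟩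
    refine mem_image.2 ⟨(i, L, u, v, c), ?_, rfl⟩
    refine mem_product.2 ⟨mem_range.2 h3, mem_product.2 ⟨mem_powersetCard.2 ⟨h4, rfl⟩,
      mem_product.2 ⟨mem_range.2 h5, mem_product.2 ⟨mem_range.2 h6, mem_range.2 ?_⟩⟩⟩⟩
    exact Nat.lt_succ_iff.2 h7

/-- the number of tests with given `M` and `k` -/
private theorem card_fiber (N M k : ℕ) :
    ((((tests N).filter (fun t => (t.1, t.2.2.1.card) = (M, k))).card : ℕ) : ℝ) ≤
      Real.exp ((2 * k + 3) * M) * Real.exp (Del k M) := by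
  have h1 : (tests N).filter (fun t => (t.1, t.2.2.1.card) = (M, k)) ⊆
      (range (2 ^ M) ×ˢ (range (2 ^ M) ×ˢ range (2 ^ M)).powersetCard k ×ˢ
        range (2 ^ M) ×ˢ range (2 ^ M) ×ˢ range (Del k M + 1)).image (fun t => (M, t)) := by
    rintro ⟨M', i, L, u, v, c⟩ ht
    obtain ⟨h2, h3⟩ := mem_filter.1 ht
    obtain ⟨h4, h5⟩ := Prod.mk.inj h3
    dsimp only at h4 h5
    subst h4
    subst h5
    obtain ⟨-, -, hi, hL, hu, hv, hc⟩ := (mem_tests N M' i u v c L).1 h2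
    refine mem_image.2 ⟨(i, L, u, v, c), ?_, rfl⟩
    exact mem_product.2 ⟨mem_range.2 hi, mem_product.2 ⟨mem_powersetCard.2 ⟨hL, rfl⟩,
      mem_product.2 ⟨mem_range.2 hu, mem_product.2 ⟨mem_range.2 hv,
        mem_range.2 (Nat.lt_succ_iff.2 hc)⟩⟩⟩⟩
  have h2 : ((tests N).filter (fun t => (t.1, t.2.2.1.card) = (M, k))).card ≤
      2 ^ ((2 * k + 3) * M) * (Del k M + 1) := by
    refine (card_le_card h1).trans (card_image_le.trans ?_)
    rw [card_product, card_product, card_product, card_product, card_powersetCard, card_product]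
    simp only [card_range]
    have h3 : (2 ^ M * 2 ^ M).choose k ≤ (2 ^ M * 2 ^ M) ^ k := Nat.choose_le_pow _ _
    calc 2 ^ M * ((2 ^ M * 2 ^ M).choose k * (2 ^ M * (2 ^ M * (Del k M + 1))))
        ≤ 2 ^ M * ((2 ^ M * 2 ^ M) ^ k * (2 ^ M * (2 ^ M * (Del k M + 1)))) :=
          Nat.mul_le_mul_left _ (Nat.mul_le_mul_right _ h3)
      _ = 2 ^ ((2 * k + 3) * M) * (Del k M + 1) := by
          have e : (2 : ℕ) ^ ((2 * k + 3) * M) = (2 ^ M) ^ (2 * k + 3) := by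
            rw [← pow_mul]
            congr 1
            ring
          rw [e]
          ring
  have h3 : ((2 : ℝ)) ^ ((2 * k + 3) * M) ≤ Real.exp ((2 * k + 3) * M) := by
    have h4 : (2 : ℝ) ≤ Real.exp 1 := by
      have := Real.add_one_le_exp (1 : ℝ)
      linarith
    have h5 : Real.exp ((2 * k + 3) * M) = Real.exp 1 ^ ((2 * k + 3) * M) := by
      rw [← Real.exp_nat_mul]
      congr 1
      push_cast
      ring
    rw [h5]
    exact pow_le_pow_left₀ (by norm_num) h4 _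
  have h4 : ((Del k M : ℕ) : ℝ) + 1 ≤ Real.exp (Del k M) := Real.add_one_le_exp _
  calc ((((tests N).filter (fun t => (t.1, t.2.2.1.card) = (M, k))).card : ℕ) : ℝ)
      ≤ ((2 ^ ((2 * k + 3) * M) * (Del k M + 1) : ℕ) : ℝ) := by exact_mod_cast h2
    _ = (2 : ℝ) ^ ((2 * k + 3) * M) * ((Del k M : ℝ) + 1) := by push_cast; ring
    _ ≤ Real.exp ((2 * k + 3) * M) * Real.exp (Del k M) :=
        mul_le_mul h3 h4 (by positivity) (Real.exp_pos _).le

private theorem geom_le (N : ℕ) : ∑ i ∈ range N, Real.exp (-1) ^ i ≤ 8 / 5 := by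
  have h1 : Real.exp (-1) ≤ 3 / 8 := by
    rw [Real.exp_neg]
    have h2 : (8 / 3 : ℝ) ≤ Real.exp 1 := by
      have := Real.exp_one_gt_d9
      linarith
    calc (Real.exp 1)⁻¹ ≤ (8 / 3 : ℝ)⁻¹ := inv_anti₀ (by norm_num) h2
      _ = 3 / 8 := by norm_num
  have h0 : 0 < Real.exp (-1) := Real.exp_pos _
  have h2 := geom_sum_mul_neg (Real.exp (-1)) N
  have h3 : 0 ≤ Real.exp (-1) ^ N := by positivity
  have h4 : 0 ≤ ∑ i ∈ range N, Real.exp (-1) ^ i := sum_nonneg fun i _ => by positivity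
  nlinarith

/-- [SH-C3b] PROOF: the sum over the union is at most the sum over `(M, k) ∈ range N ×ˢ range N` of
`card * 2 exp (-Lam k M)`, `card ≤ 2^M * (4^M)^k * 2^M * 2^M * (Del k M + 1)` (`Nat.choose_le_pow`), and
`2^((2k+3) M) ≤ exp ((2k+3) M)`, `Del + 1 ≤ exp Del`, so the sum is at most
`∑_{M,k} 2 exp (-(M+k+2)) ≤ 2 e^(-2) / (1 - 1/e)^2 < 1` (finite geometric sums; `e > 2.7`). -/
theorem tests_sum (N : ℕ) :
    ∑ t ∈ tests N, 2 * Real.exp (-(Lam t.2.2.1.card t.1)) < 1 := by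
  have h1 : ∑ t ∈ tests N, 2 * Real.exp (-(Lam t.2.2.1.card t.1)) =
      ∑ q ∈ range N ×ˢ range N, ∑ t ∈ (tests N).filter (fun t => (t.1, t.2.2.1.card) = q),
        2 * Real.exp (-(Lam t.2.2.1.card t.1)) := by
    refine (sum_fiberwise_of_maps_to (fun t ht => ?_) _).symm
    obtain ⟨M, i, L, u, v, c⟩ := t
    obtain ⟨h2, h3, -⟩ := (mem_tests N M i u v c L).1 ht
    exact mem_product.2 ⟨mem_range.2 h2, mem_range.2 h3⟩
  have h2 : ∀ q ∈ range N ×ˢ range N,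
      ∑ t ∈ (tests N).filter (fun t => (t.1, t.2.2.1.card) = q),
        2 * Real.exp (-(Lam t.2.2.1.card t.1)) ≤
      2 * Real.exp (-1) ^ 2 * (Real.exp (-1) ^ q.1 * Real.exp (-1) ^ q.2) := by
    rintro ⟨M, k⟩ -
    have h3 : ∑ t ∈ (tests N).filter (fun t => (t.1, t.2.2.1.card) = (M, k)),
        2 * Real.exp (-(Lam t.2.2.1.card t.1)) =
        ((tests N).filter (fun t => (t.1, t.2.2.1.card) = (M, k))).card *
          (2 * Real.exp (-(Lam k M))) := by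
      rw [← nsmul_eq_mul, ← sum_const]
      refine sum_congr rfl fun t ht => ?_
      obtain ⟨h4, h5⟩ := Prod.mk.inj (mem_filter.1 ht).2
      rw [h4, h5]
    rw [h3]
    have h4 : 0 ≤ 2 * Real.exp (-(Lam k M)) := by positivity
    refine (mul_le_mul_of_nonneg_right (card_fiber N M k) h4).trans (le_of_eq ?_)
    dsimp only
    rw [← Real.exp_nat_mul, ← Real.exp_nat_mul, ← Real.exp_nat_mul]
    have e : Real.exp ((2 * k + 3) * M) * Real.exp (Del k M) * (2 * Real.exp (-(Lam k M))) =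
        2 * (Real.exp ((2 * k + 3) * M) * Real.exp (Del k M) * Real.exp (-(Lam k M))) := by ring
    rw [e, ← Real.exp_add, ← Real.exp_add, mul_assoc, ← Real.exp_add, ← Real.exp_add]
    congr 2
    unfold Lam
    push_cast
    ring
  rw [h1]
  have h0 : Real.exp (-1) ≤ 3 / 8 := by
    rw [Real.exp_neg]
    have h2 : (8 / 3 : ℝ) ≤ Real.exp 1 := by
      have := Real.exp_one_gt_d9
      linarith
    calc (Real.exp 1)⁻¹ ≤ (8 / 3 : ℝ)⁻¹ := inv_anti₀ (by norm_num) h2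
      _ = 3 / 8 := by norm_num
  have hg := geom_le N
  have hg0 : 0 ≤ ∑ i ∈ range N, Real.exp (-1) ^ i := sum_nonneg fun i _ => by positivity
  calc ∑ q ∈ range N ×ˢ range N, ∑ t ∈ (tests N).filter (fun t => (t.1, t.2.2.1.card) = q),
        2 * Real.exp (-(Lam t.2.2.1.card t.1))
      ≤ ∑ q ∈ range N ×ˢ range N,
        2 * Real.exp (-1) ^ 2 * (Real.exp (-1) ^ q.1 * Real.exp (-1) ^ q.2) := sum_le_sum h2
    _ = 2 * Real.exp (-1) ^ 2 * ((∑ i ∈ range N, Real.exp (-1) ^ i) *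
        ∑ i ∈ range N, Real.exp (-1) ^ i) := by
        rw [← mul_sum, sum_mul_sum, sum_product]
    _ ≤ 2 * (3 / 8) ^ 2 * (8 / 5 * (8 / 5)) := by
        have h5 : Real.exp (-1) ^ 2 ≤ (3 / 8) ^ 2 := pow_le_pow_left₀ (Real.exp_pos _).le h0 2
        have h6 : (∑ i ∈ range N, Real.exp (-1) ^ i) * ∑ i ∈ range N, Real.exp (-1) ^ i ≤
            8 / 5 * (8 / 5) := mul_le_mul hg hg hg0 (by norm_num)
        exact mul_le_mul (mul_le_mul_of_nonneg_left h5 (by norm_num)) h6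
          (mul_nonneg hg0 hg0) (by norm_num)
    _ < 1 := by norm_num

end Pool.MP_92ef0c_nt.SH
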