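import Pool.Agent.Lib_MP_92ef0c_sh.Defs

/-! # [SH-A4a] Moebius inversion -/

set_option autoImplicit false

namespace Pool.MP_92ef0c_nt.SH

open Finset

/-- [SH-A4a] PROOF: Moebius inversion: with `c T = ∑_{R ⊆ T} (-1)^|T \ R| f R` one has
`f S = ∑_{T ⊆ S} c T` for every finite `S`; for a function depending on `S ∩ A` only,
`f S = f (S ∩ A) = ∑_{T ⊆ A} c T [T ⊆ S]`. (Exchange the sums, `∑_{R ⊆ T ⊆ S} (-1)^|T \ R| = [R = S]`.) -/
theorem moebius {α : Type} [DecidableEq α] (A : Finset α) (f : Finset α → ℝ)
    (hf : ∀ S, f S = f (S ∩ A)) :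
    ∃ c : Finset α → ℝ, ∀ S, f S = ∑ T ∈ A.powerset, c T * (if T ⊆ S then 1 else 0) := by
  induction A using Finset.induction_on generalizing f with
  | empty =>
    refine ⟨fun _ => f ∅, fun S => ?_⟩
    rw [hf S]
    simp
  | insert a A ha ih =>
    have hf0 : ∀ S : Finset α, f (S.erase a) = f ((S ∩ A).erase a) := by
      intro S
      rw [hf (S.erase a), hf ((S ∩ A).erase a)]
      congr 1
      ext x
      simp only [mem_inter, mem_erase, mem_insert]
      tauto
    have hf1 : ∀ S : Finset α, f (insert a S) - f (S.erase a) =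
        f (insert a (S ∩ A)) - f ((S ∩ A).erase a) := by
      intro S
      rw [hf0 S, hf (insert a S), hf (insert a (S ∩ A))]
      congr 2
      ext x
      simp only [mem_inter, mem_insert]
      tauto
    obtain ⟨c0, h0⟩ := ih (fun S => f (S.erase a)) hf0
    obtain ⟨c1, h1⟩ := ih (fun S => f (insert a S) - f (S.erase a)) hf1
    refine ⟨fun T => if a ∈ T then c1 (T.erase a) else c0 T, fun S => ?_⟩
    rw [Finset.sum_powerset_insert ha]
    have e0 : ∑ T ∈ A.powerset, (if a ∈ T then c1 (T.erase a) else c0 T) *
        (if T ⊆ S then 1 else 0) = f (S.erase a) := by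
      refine (Finset.sum_congr rfl fun T hT => ?_).trans (h0 S).symm
      rw [if_neg fun h => ha (Finset.mem_powerset.1 hT h)]
    have e1 : ∑ T ∈ A.powerset, (if a ∈ insert a T then c1 ((insert a T).erase a) else
        c0 (insert a T)) * (if insert a T ⊆ S then 1 else 0) =
          (if a ∈ S then 1 else 0) * (f (insert a S) - f (S.erase a)) := by
      have h2 := h1 S
      beta_reduce at h2
      rw [h2, Finset.mul_sum]
      refine Finset.sum_congr rfl fun T hT => ?_
      rw [if_pos (Finset.mem_insert_self a T),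
        Finset.erase_insert fun h => ha (Finset.mem_powerset.1 hT h)]
      by_cases hS : a ∈ S
      · simp only [Finset.insert_subset_iff, hS, true_and, if_true, one_mul]
      · simp only [Finset.insert_subset_iff, hS, false_and, if_false, mul_zero, zero_mul]
    beta_reduce
    rw [e0, e1]
    by_cases hS : a ∈ S
    · rw [if_pos hS, Finset.insert_eq_self.2 hS]
      ring
    · rw [if_neg hS, Finset.erase_eq_of_notMem hS]
      ring

end Pool.MP_92ef0c_nt.SH
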