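import Pool.Agent.Lib_MP_92ef0c_sh.Defs

/-! # [SH-H2] comparison of two sets -/

set_option autoImplicit false

namespace Pool.MP_92ef0c_nt.SH

open Finset
open Pool.MP_92ef0c_nt.PB (Pz V zz Rough rho)

/-- [SH-H2] PROOF: `J = Nat.log 2 x + 1`; triangle inequality; `Bnd k (J + 1) y ≤ K log x (√y + 1)`. -/
theorem compare_of (N₁ : ℕ) (D D' : Set ℕ) (P P' : Set ℕ) (F : ℕ → ℕ → ℝ)
    (hP : ∀ (M i u v : ℕ) (L : Finset (ℕ × ℕ)), i < 2 ^ M → Bd M L → Good D L → u < 2 ^ M →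
        v < 2 ^ M →
        |∑ n ∈ Ioc u v, F i n * (ind P L n - rr N₁ L n)| ≤ Bnd L.card (M + 1) ((v : ℝ) - u))
    (hP' : ∀ (M i u v : ℕ) (L : Finset (ℕ × ℕ)), i < 2 ^ M → Bd M L → Good D' L → u < 2 ^ M →
        v < 2 ^ M →
        |∑ n ∈ Ioc u v, F i n * (ind P' L n - rr N₁ L n)| ≤ Bnd L.card (M + 1) ((v : ℝ) - u))
    (k : ℕ) : ∃ K : ℝ, 0 < K ∧ ∀ (x i : ℕ) (L : Finset (ℕ × ℕ)), 2 ≤ x → i ≤ x → L.card = k →
      (∀ l ∈ L, 0 < l.1 ∧ l.1 ≤ x ∧ l.2 ≤ x) → Good D L → Good D' L →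
      ∀ u v : ℕ, u ≤ v → v ≤ x →
        |∑ n ∈ Ioc u v, F i n * (ind P L n - ind P' L n)| ≤
          K * Real.log x * (√((v : ℝ) - u) + 1) := by
  refine ⟨240 * ((k : ℝ) + 1) ^ 2, by positivity, ?_⟩
  intro x i L hx hi hk hL hD hD' u v huv hvx
  set M := Nat.log 2 x + 1 with hM
  have hx2 : x < 2 ^ M := Nat.lt_pow_succ_log_self (by norm_num) x
  have hBd : Bd M L := fun l hl => ⟨(hL l hl).1, (hL l hl).2.1.trans_lt hx2, (hL l hl).2.2.trans_lt hx2⟩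
  have h1 := hP M i u v L (hi.trans_lt hx2) hBd hD ((huv.trans hvx).trans_lt hx2) (hvx.trans_lt hx2)
  have h2 := hP' M i u v L (hi.trans_lt hx2) hBd hD' ((huv.trans hvx).trans_lt hx2) (hvx.trans_lt hx2)
  rw [hk] at h1 h2
  have hsum : ∑ n ∈ Ioc u v, F i n * (ind P L n - ind P' L n) =
      ∑ n ∈ Ioc u v, F i n * (ind P L n - rr N₁ L n) - ∑ n ∈ Ioc u v, F i n * (ind P' L n - rr N₁ L n) := by
    rw [← Finset.sum_sub_distrib]
    refine Finset.sum_congr rfl fun n _ => ?_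
    ring
  have hx0 : (2 : ℝ) ≤ x := by exact_mod_cast hx
  have hlog2 := Real.log_two_gt_d9
  have hlogx : Real.log 2 ≤ Real.log x := Real.log_le_log (by norm_num) hx0
  have hlg : (Nat.log 2 x : ℝ) * Real.log 2 ≤ Real.log x := by
    have h3 : 2 ^ Nat.log 2 x ≤ x := Nat.pow_log_le_self 2 (by omega)
    have h4 : ((2 : ℝ) ^ Nat.log 2 x) ≤ x := by exact_mod_cast h3
    have h5 := Real.log_le_log (by positivity) h4
    rwa [Real.log_pow] at h5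
  have hMl : ((M + 1 : ℕ) : ℝ) + 1 ≤ 6 * Real.log x := by
    rw [hM]
    push_cast
    have h6 : (0 : ℝ) ≤ Nat.log 2 x := Nat.cast_nonneg _
    nlinarith
  have hs : 0 ≤ √((v : ℝ) - u) + 1 := by positivity
  have hB : Bnd k (M + 1) ((v : ℝ) - u) ≤ 120 * ((k : ℝ) + 1) ^ 2 * Real.log x * (√((v : ℝ) - u) + 1) := by
    unfold Bnd
    refine mul_le_mul_of_nonneg_right ?_ hs
    have h7 : 0 ≤ 20 * ((k : ℝ) + 1) ^ 2 := by positivity
    have h8 := mul_le_mul_of_nonneg_left hMl h7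
    linarith
  rw [hsum]
  have h9 := abs_sub (∑ n ∈ Ioc u v, F i n * (ind P L n - rr N₁ L n))
    (∑ n ∈ Ioc u v, F i n * (ind P' L n - rr N₁ L n))
  have h10 : 240 * ((k : ℝ) + 1) ^ 2 * Real.log x * (√((v : ℝ) - u) + 1) =
      120 * ((k : ℝ) + 1) ^ 2 * Real.log x * (√((v : ℝ) - u) + 1) +
      120 * ((k : ℝ) + 1) ^ 2 * Real.log x * (√((v : ℝ) - u) + 1) := by ring
  rw [h10]
  linarith

end Pool.MP_92ef0c_nt.SH
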