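import Pool.Agent.Lib_MP_92ef0c_sh.Defs

/-! # [SH-B] one configuration passes all tests -/

set_option autoImplicit false

namespace Pool.MP_92ef0c_nt.SH

open Finset

private theorem EXc_const {Ω : Type} (W : Finset Ω) (μ : Ω → ℝ) (h1 : ∑ ω ∈ W, μ ω = 1) (c : ℝ) :
    EX W μ (fun _ => c) = c := by
  unfold EX
  rw [← Finset.sum_mul, h1, one_mul]

private theorem EXc_add {Ω : Type} (W : Finset Ω) (μ : Ω → ℝ) (f g : Ω → ℝ) :
    EX W μ (fun v => f v + g v) = EX W μ f + EX W μ g := by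
  unfold EX
  rw [← Finset.sum_add_distrib]
  exact Finset.sum_congr rfl (fun v _ => by ring)

private theorem EXc_smul {Ω : Type} (W : Finset Ω) (μ : Ω → ℝ) (c : ℝ) (f : Ω → ℝ) :
    EX W μ (fun v => c * f v) = c * EX W μ f := by
  unfold EX
  rw [Finset.mul_sum]
  exact Finset.sum_congr rfl (fun v _ => by ring)

private theorem EXc_mono {Ω : Type} (W : Finset Ω) (μ : Ω → ℝ) (hμ : ∀ ω ∈ W, 0 ≤ μ ω)
    (f g : Ω → ℝ) (h : ∀ v ∈ W, f v ≤ g v) : EX W μ f ≤ EX W μ g := by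
  unfold EX
  exact Finset.sum_le_sum (fun v hv => mul_le_mul_of_nonneg_left (h v hv) (hμ v hv))

private theorem EXc_sum {Ω ι : Type} (W : Finset Ω) (μ : Ω → ℝ) (J : Finset ι)
    (f : ι → Ω → ℝ) : EX W μ (fun v => ∑ j ∈ J, f j v) = ∑ j ∈ J, EX W μ (f j) := by
  unfold EX
  rw [Finset.sum_comm]
  exact Finset.sum_congr rfl (fun v _ => by rw [Finset.mul_sum])

/-- the moment generating function of a centred function bounded by `2` -/
private theorem EXc_exp {Ω : Type} (W : Finset Ω) (μ : Ω → ℝ) (hμ : ∀ ω ∈ W, 0 ≤ μ ω)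
    (h1 : ∑ ω ∈ W, μ ω = 1) (f : Ω → ℝ) (hf : ∀ v ∈ W, |f v| ≤ 1) (s : ℝ) :
    EX W μ (fun v => Real.exp (s * (f v - EX W μ f))) ≤ Real.exp (2 * s ^ 2) := by
  have hE0 : -1 ≤ EX W μ f := by
    have := EXc_mono W μ hμ (fun _ => -1) f (fun v hv => (abs_le.mp (hf v hv)).1)
    rwa [EXc_const W μ h1] at this
  have hE1 : EX W μ f ≤ 1 := by
    have := EXc_mono W μ hμ f (fun _ => 1) (fun v hv => (abs_le.mp (hf v hv)).2)
    rwa [EXc_const W μ h1] at this
  have hc : ∀ x : ℝ, |x| ≤ 2 →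
      Real.exp (s * x) ≤ Real.cosh (2 * s) + x / 2 * Real.sinh (2 * s) := by
    intro x hx
    rw [abs_le] at hx
    have ha : 0 ≤ (1 - x / 2) / 2 := by linarith
    have hb : 0 ≤ (1 + x / 2) / 2 := by linarith
    have h2 := convexOn_exp.2 (Set.mem_univ (-(2 * s))) (Set.mem_univ (2 * s)) ha hb (by ring)
    simp only [smul_eq_mul] at h2
    have h3 : (1 - x / 2) / 2 * -(2 * s) + (1 + x / 2) / 2 * (2 * s) = s * x := by ring
    rw [h3] at h2
    refine h2.trans (le_of_eq ?_)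
    rw [Real.cosh_eq, Real.sinh_eq]
    ring
  calc EX W μ (fun v => Real.exp (s * (f v - EX W μ f)))
      ≤ EX W μ (fun v => (Real.cosh (2 * s) - EX W μ f / 2 * Real.sinh (2 * s)) +
          Real.sinh (2 * s) / 2 * f v) := by
        apply EXc_mono W μ hμ
        intro v hv
        have h1 := abs_le.mp (hf v hv)
        refine (hc (f v - EX W μ f) (by rw [abs_le]; constructor <;> linarith)).trans (le_of_eq ?_)
        ring
    _ = Real.cosh (2 * s) := by
        rw [EXc_add, EXc_const W μ h1, EXc_smul]; ring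
    _ ≤ Real.exp ((2 * s) ^ 2 / 2) := Real.cosh_le_exp_half_sq (2 * s)
    _ = Real.exp (2 * s ^ 2) := by
        congr 1
        ring

/-- [SH-B] PROOF: as `config` of `Lib_MP_92ef0c_pb/Fin.lean` (copy and adapt). With `Y j = ∑_n (f - E f)`, for all `s`:
`E exp (s Y) = ∏ E exp (s (f - E f)) ≤ exp (2 s^2 |T j|)` (`hind`; `|f - E f| ≤ 2`, convexity:
`exp (s x) ≤ cosh (2 s) + (x/2) sinh (2 s)` for `|x| ≤ 2`, mean value `0`, `Real.cosh_le_exp_half_sq`). Put
`σ j = √(Λ j / (2 |T j|))`, `Φ ω = ∑_j exp (-2 Λ j) (exp (σ j Y j ω) + exp (-σ j Y j ω))`; then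
`E Φ ≤ ∑_j 2 exp (-Λ j) < 1`, so `Φ ω < 1` for some `ω ∈ W` with `μ ω > 0`, hence `σ j |Y j ω| < 2 Λ j`,
i.e. `|Y j ω| ≤ √(8 |T j| Λ j)`. `T j = ∅` : trivial. -/
theorem config' {Ω ι : Type} (W : Finset Ω) (μ : Ω → ℝ) (hμ : ∀ ω ∈ W, 0 ≤ μ ω)
    (h1 : ∑ ω ∈ W, μ ω = 1) (J : Finset ι) (T : ι → Finset ℕ) (f : ι → ℕ → Ω → ℝ)
    (hf : ∀ j ∈ J, ∀ n ∈ T j, ∀ ω ∈ W, |f j n ω| ≤ 1)
    (hind : ∀ j ∈ J, ∀ s : ℝ,
      EX W μ (fun ω => ∏ n ∈ T j, Real.exp (s * (f j n ω - EX W μ (f j n)))) =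
        ∏ n ∈ T j, EX W μ (fun ω => Real.exp (s * (f j n ω - EX W μ (f j n)))))
    (Λ : ι → ℝ) (hΛ : ∀ j ∈ J, 0 < Λ j) (hsum : ∑ j ∈ J, 2 * Real.exp (-Λ j) < 1) :
    ∃ ω ∈ W, 0 < μ ω ∧
      ∀ j ∈ J, |∑ n ∈ T j, (f j n ω - EX W μ (f j n))| ≤ √(8 * (T j).card * Λ j) := by
  set σ : ι → ℝ := fun j => √(Λ j / (2 * (T j).card)) with hσ
  set Y : ι → Ω → ℝ := fun j v => ∑ n ∈ T j, (f j n v - EX W μ (f j n)) with hY
  have hmgf : ∀ j ∈ J, ∀ s : ℝ,
      EX W μ (fun v => Real.exp (s * Y j v)) ≤ Real.exp (2 * s ^ 2 * (T j).card) := by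
    intro j hj s
    have h2 : ∀ v, Real.exp (s * Y j v) =
        ∏ n ∈ T j, Real.exp (s * (f j n v - EX W μ (f j n))) := by
      intro v
      rw [hY, ← Real.exp_sum, Finset.mul_sum]
    simp only [h2]
    rw [hind j hj s]
    calc ∏ n ∈ T j, EX W μ (fun v => Real.exp (s * (f j n v - EX W μ (f j n))))
        ≤ ∏ _n ∈ T j, Real.exp (2 * s ^ 2) := by
          apply Finset.prod_le_prod
          · intro n _
            have := EXc_mono W μ hμ (fun _ => 0)
              (fun v => Real.exp (s * (f j n v - EX W μ (f j n)))) (fun v _ => (Real.exp_pos _).le)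
            rwa [EXc_const W μ h1] at this
          · intro n hn
            exact EXc_exp W μ hμ h1 (f j n) (hf j hj n hn) s
      _ = Real.exp (2 * s ^ 2 * (T j).card) := by
          rw [Finset.prod_const, ← Real.exp_nat_mul]; ring_nf
  have hσT : ∀ j ∈ J, 2 * σ j ^ 2 * (T j).card ≤ Λ j := by
    intro j hj
    have hL := hΛ j hj
    rcases Nat.eq_zero_or_pos (T j).card with h0 | hpos
    · rw [h0, Nat.cast_zero, mul_zero]
      exact hL.le
    · have hn : (0 : ℝ) < (T j).card := by exact_mod_cast hpos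
      have hσ2 : σ j ^ 2 = Λ j / (2 * (T j).card) := Real.sq_sqrt (by positivity)
      rw [hσ2]
      apply le_of_eq
      field_simp
  set Φ : Ω → ℝ := fun v => ∑ j ∈ J,
    Real.exp (-(2 * Λ j)) * (Real.exp (σ j * Y j v) + Real.exp (-σ j * Y j v))
    with hΦ
  have hEΦ : EX W μ Φ < 1 := by
    refine lt_of_le_of_lt ?_ hsum
    rw [hΦ, EXc_sum]
    apply Finset.sum_le_sum
    intro j hj
    rw [EXc_smul, EXc_add]
    have h2 := hmgf j hj (σ j)
    have h3 := hmgf j hj (-σ j)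
    rw [neg_sq] at h3
    have h4 : Real.exp (2 * σ j ^ 2 * (T j).card) ≤ Real.exp (Λ j) :=
      Real.exp_le_exp.mpr (hσT j hj)
    calc Real.exp (-(2 * Λ j)) * (EX W μ (fun v => Real.exp (σ j * Y j v)) +
          EX W μ (fun v => Real.exp (-σ j * Y j v))) ≤
          Real.exp (-(2 * Λ j)) * (2 * Real.exp (Λ j)) :=
          mul_le_mul_of_nonneg_left (by linarith) (Real.exp_pos _).le
      _ = 2 * (Real.exp (-(2 * Λ j)) * Real.exp (Λ j)) := by ring
      _ = 2 * Real.exp (-Λ j) := by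
          rw [← Real.exp_add]
          congr 2
          ring
  obtain ⟨v, hvW, hv1, hv2⟩ : ∃ v ∈ W, 0 < μ v ∧ Φ v < 1 := by
    by_contra hcon
    push Not at hcon
    have h2 : (1 : ℝ) ≤ EX W μ Φ := by
      rw [← h1]
      unfold EX
      apply Finset.sum_le_sum
      intro v hv
      rcases (hμ v hv).lt_or_eq with h | h
      · exact le_mul_of_one_le_right h.le (hcon v hv h)
      · rw [← h, zero_mul]
    linarith
  refine ⟨v, hvW, hv1, ?_⟩
  intro j hj
  show |Y j v| ≤ _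
  have hL := hΛ j hj
  rcases Nat.eq_zero_or_pos (T j).card with h0 | hpos
  · have : T j = ∅ := Finset.card_eq_zero.1 h0
    rw [hY]; simp [this]
  have hn : (0 : ℝ) < (T j).card := by exact_mod_cast hpos
  have hσ2 : σ j ^ 2 = Λ j / (2 * (T j).card) := Real.sq_sqrt (by positivity)
  have h2 : Real.exp (-(2 * Λ j)) *
      (Real.exp (σ j * Y j v) + Real.exp (-σ j * Y j v)) ≤ 1 := by
    refine le_trans ?_ hv2.le
    exact Finset.single_le_sum (f := fun j => Real.exp (-(2 * Λ j)) *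
      (Real.exp (σ j * Y j v) + Real.exp (-σ j * Y j v))) (fun i _ => by positivity) hj
  rw [Real.exp_neg, inv_mul_le_iff₀ (Real.exp_pos _), mul_one] at h2
  have h3 : Real.exp (σ j * |Y j v|) ≤ Real.exp (σ j * Y j v) + Real.exp (-σ j * Y j v) := by
    rcases abs_cases (Y j v) with h | h
    · rw [h.1]
      have := Real.exp_pos (-σ j * Y j v)
      linarith
    · rw [h.1]
      have := Real.exp_pos (σ j * Y j v)
      have h6 : σ j * -Y j v = -σ j * Y j v := by ring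
      rw [h6]
      linarith
  have h5 : σ j * |Y j v| ≤ 2 * Λ j := Real.exp_le_exp.1 (h3.trans h2)
  apply Real.le_sqrt_of_sq_le
  have hσ0 : 0 ≤ σ j := Real.sqrt_nonneg _
  have h6 : (σ j * |Y j v|) ^ 2 ≤ (2 * Λ j) ^ 2 := by
    apply pow_le_pow_left₀ (by positivity) h5
  rw [mul_pow, hσ2] at h6
  have h9 : |Y j v| ^ 2 * Λ j ≤ (8 * (T j).card * Λ j) * Λ j := by
    have h10 : Λ j / (2 * (T j).card) * |Y j v| ^ 2 * (2 * (T j).card) = |Y j v| ^ 2 * Λ j := by
      field_simp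
    rw [← h10]
    calc Λ j / (2 * (T j).card) * |Y j v| ^ 2 * (2 * (T j).card) ≤
          (2 * Λ j) ^ 2 * (2 * (T j).card) :=
          mul_le_mul_of_nonneg_right h6 (by positivity)
      _ = (8 * (T j).card * Λ j) * Λ j := by ring
  exact le_of_mul_le_mul_right h9 hL

end Pool.MP_92ef0c_nt.SH
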