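import Pool.Agent.Lib_MP_92ef0c_pb.Crt

/-! # [SH-D1] counting by the Chinese remainder theorem, general classes -/

set_option autoImplicit false

namespace Pool.MP_92ef0c_nt.SH

open Finset
open Pool.MP_92ef0c_nt.PB (Pz V zz Rough rho class_count)

/-- [SH-D1] PROOF: the proof of `crt_count` in `Lib_MP_92ef0c_pb/Crt.lean` with the classes `Ω p` in place of
the classes of `-H` (shorter: no `nu`). -/
theorem crt_gen (D : Finset ℕ) (hD : ∀ p ∈ D, p.Prime) (Ω : ℕ → Finset ℕ)
    (hΩ : ∀ p ∈ D, Ω p ⊆ range p) (q a u v : ℕ) (hq : 0 < q) (hcop : ∀ p ∈ D, ¬ p ∣ q)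
    (huv : u ≤ v) :
    |(((Ioc u v).filter (fun n => n ≡ a [MOD q] ∧ ∀ p ∈ D, n % p ∈ Ω p)).card : ℝ) -
      ((v : ℝ) - u) / q * ∏ p ∈ D, (((Ω p).card : ℝ) / p)| ≤ ∏ p ∈ D, ((Ω p).card : ℝ) := by
  induction D using Finset.induction_on generalizing q a with
  | empty =>
    have h := class_count q a u v hq huv
    simpa using h
  | insert p D' hpD ih =>
    have hp : p.Prime := hD p (mem_insert_self _ _)
    have hpq : ¬ p ∣ q := hcop p (mem_insert_self _ _)
    have hc : Nat.Coprime q p := ((Nat.Prime.coprime_iff_not_dvd hp).2 hpq).symm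
    have ih' := fun (b : ℕ) => ih (fun p' hp' => hD p' (mem_insert_of_mem hp'))
      (fun p' hp' => hΩ p' (mem_insert_of_mem hp')) (q * p) b
      (Nat.mul_pos hq hp.pos) (fun p' hp' hd => by
        have hpr := hD p' (mem_insert_of_mem hp')
        rcases (Nat.Prime.dvd_mul hpr).1 hd with h | h
        · exact hcop p' (mem_insert_of_mem hp') h
        · have := (Nat.prime_dvd_prime_iff_eq hpr hp).1 h
          exact hpD (this ▸ hp'))
    set A := (Ioc u v).filter (fun n => n ≡ a [MOD q] ∧ ∀ p' ∈ insert p D', n % p' ∈ Ω p') with hA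
    have hmap : ∀ n ∈ A, n % p ∈ Ω p := by
      intro n hn
      rw [hA, mem_filter] at hn
      exact hn.2.2 p (mem_insert_self _ _)
    have hcard : A.card = ∑ c ∈ Ω p, (A.filter (fun n => n % p = c)).card :=
      Finset.card_eq_sum_card_fiberwise hmap
    have hfib : ∀ c ∈ Ω p, A.filter (fun n => n % p = c) =
        (Ioc u v).filter (fun n => n ≡ (Nat.chineseRemainder hc a c : ℕ) [MOD q * p] ∧
          ∀ p' ∈ D', n % p' ∈ Ω p') := by
      intro c hcC
      have hcp : c < p := mem_range.1 (hΩ p (mem_insert_self _ _) hcC)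
      have hb := (Nat.chineseRemainder hc a c).2
      ext n
      rw [hA, mem_filter, mem_filter, mem_filter]
      constructor
      · rintro ⟨⟨hn, hna, hall⟩, hnc⟩
        refine ⟨hn, ?_, fun p' hp' => hall p' (mem_insert_of_mem hp')⟩
        have h2 : n ≡ c [MOD p] := by
          show n % p = c % p
          rw [hnc, Nat.mod_eq_of_lt hcp]
        exact (Nat.modEq_and_modEq_iff_modEq_mul hc).1 ⟨hna.trans hb.1.symm, h2.trans hb.2.symm⟩
      · rintro ⟨hn, hnb, hall⟩
        obtain ⟨h1, h2⟩ := (Nat.modEq_and_modEq_iff_modEq_mul hc).2 hnb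
        have h3 : n ≡ c [MOD p] := h2.trans hb.2
        have h4 : n % p = c % p := h3
        rw [Nat.mod_eq_of_lt hcp] at h4
        refine ⟨⟨hn, h1.trans hb.1, ?_⟩, h4⟩
        intro p' hp'
        rcases mem_insert.1 hp' with rfl | hp'
        · rw [h4]
          exact hcC
        · exact hall p' hp'
    rw [hcard, prod_insert hpD, prod_insert hpD, Nat.cast_sum]
    have hp0 : (p : ℝ) ≠ 0 := by exact_mod_cast hp.pos.ne'
    have e1 : ((v : ℝ) - u) / q * (((Ω p).card : ℝ) / p * ∏ p' ∈ D', (((Ω p').card : ℝ) / p')) =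
        ∑ _c ∈ Ω p, ((v : ℝ) - u) / ((q * p : ℕ) : ℝ) * ∏ p' ∈ D', (((Ω p').card : ℝ) / p') := by
      rw [sum_const, nsmul_eq_mul, Nat.cast_mul]
      generalize ((Ω p).card : ℝ) = k
      generalize (∏ p' ∈ D', (((Ω p').card : ℝ) / p')) = P
      rw [div_mul_eq_div_div]
      ring
    have e2 : ((Ω p).card : ℝ) * ∏ p' ∈ D', ((Ω p').card : ℝ) =
        ∑ _c ∈ Ω p, ∏ p' ∈ D', ((Ω p').card : ℝ) := by
      rw [sum_const, nsmul_eq_mul]
    rw [e1, e2, ← sum_sub_distrib]
    refine (abs_sum_le_sum_abs _ _).trans (sum_le_sum fun c hcC => ?_)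
    rw [hfib c hcC]
    exact ih' _

end Pool.MP_92ef0c_nt.SH
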