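import Pool.Agent.Lib_MP_92ef0c_pb.Defs

/-!
# MP_92ef0c_nt, independence theorem: definitions

Shearer's measure, systems of linear forms `n ↦ l.1 * n + l.2`, their local densities.
-/

set_option autoImplicit false

namespace Pool.MP_92ef0c_nt.SH

open Finset
open Pool.MP_92ef0c_nt.PB (Pz V zz Rough rho)

noncomputable section

/-! ## Shearer's measure -/

/-- no two adjacent elements -/
def Indep {α : Type} (adj : α → α → Prop) (T : Finset α) : Prop := ∀ s ∈ T, ∀ t ∈ T, ¬ adj s t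

/-- `∏_{t ∈ T} ρ t` for independent `T`, otherwise `0` -/
def wt {α : Type} (adj : α → α → Prop) (ρ : α → ℝ) (T : Finset α) : ℝ :=
  open Classical in if Indep adj T then ∏ t ∈ T, ρ t else 0

/-- Shearer's (signed) measure on the subsets of `U` -/
def mu {α : Type} [DecidableEq α] (U : Finset α) (adj : α → α → Prop) (ρ : α → ℝ)
    (S : Finset α) : ℝ :=
  ∑ T ∈ U.powerset.filter (fun T => S ⊆ T), (-1 : ℝ) ^ (T \ S).card * wt adj ρ T

/-- expectation of `g` -/
def EX {Ω : Type} (W : Finset Ω) (μ : Ω → ℝ) (g : Ω → ℝ) : ℝ := ∑ ω ∈ W, μ ω * g ω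

/-! ## the graph on the natural numbers -/

/-- range of the exclusion at `n` -/
def ww (C₀ n : ℕ) : ℕ := Nat.sqrt (Nat.log 2 n) / C₀

/-- `n` and `m` are adjacent if their difference lies in `D` and is at most `ww (max n m)` -/
def adjD (C₀ : ℕ) (D : Set ℕ) (n m : ℕ) : Prop :=
  (n < m ∧ m - n ∈ D ∧ m - n ≤ ww C₀ m) ∨ (m < n ∧ n - m ∈ D ∧ n - m ≤ ww C₀ n)

/-! ## systems of linear forms -/

/-- no two forms of the system differ by an element of `D` -/
def Good (D : Set ℕ) (L : Finset (ℕ × ℕ)) : Prop :=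
  ∀ l ∈ L, ∀ l' ∈ L, l.1 = l'.1 → ∀ d ∈ D, l.2 + d ≠ l'.2

/-- all forms are primitive -/
def Prim (L : Finset (ℕ × ℕ)) : Prop := ∀ l ∈ L, 0 < l.1 ∧ Nat.Coprime l.1 l.2

/-- all coefficients are smaller than `2 ^ M`, the leading ones positive -/
def Bd (M : ℕ) (L : Finset (ℕ × ℕ)) : Prop := ∀ l ∈ L, 0 < l.1 ∧ l.1 < 2 ^ M ∧ l.2 < 2 ^ M

/-- indicator of: all values of the forms at `n` lie in `P` -/
def ind (P : Set ℕ) (L : Finset (ℕ × ℕ)) (n : ℕ) : ℝ :=
  open Classical in if ∀ l ∈ L, l.1 * n + l.2 ∈ P then 1 else 0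

/-- product of the intensities at the values of the forms -/
def rr (N₁ : ℕ) (L : Finset (ℕ × ℕ)) (n : ℕ) : ℝ := ∏ l ∈ L, rho N₁ (l.1 * n + l.2)

/-- the classes `c` modulo `p` for which `p` divides one of the values at `c` -/
def bad (L : Finset (ℕ × ℕ)) (p : ℕ) : Finset ℕ :=
  (range p).filter (fun c => ∃ l ∈ L, p ∣ l.1 * c + l.2)

def nuL (L : Finset (ℕ × ℕ)) (p : ℕ) : ℕ := (bad L p).card

/-- local factor -/
def ph (p m ν : ℕ) : ℝ := (1 - (ν : ℝ) / p) * ((1 - 1 / (p : ℝ))⁻¹) ^ m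

/-- product of the local factors up to `z` -/
def SSL (L : Finset (ℕ × ℕ)) (z : ℕ) : ℝ := ∏ p ∈ Pz z, ph p L.card (nuL L p)

/-- `S` is the singular series of the system -/
def IsD (L : Finset (ℕ × ℕ)) (S : ℝ) : Prop :=
  Filter.Tendsto (fun z => SSL L z) Filter.atTop (nhds S)

/-- `∏ 1 / log` of the values at `n` -/
def gg (L : Finset (ℕ × ℕ)) (n : ℕ) : ℝ := ∏ l ∈ L, 1 / Real.log ((l.1 * n + l.2 : ℕ) : ℝ)

/-! ## parameters of the union bound -/

/-- bound for the number of neighbours -/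
def Del (k M : ℕ) : ℕ := k ^ 2 * (4 * M + 3)

/-- exponent in the union bound -/
def Lam (k M : ℕ) : ℝ := (2 * k + 3) * M + (M + k + 2) + Del k M

/-- error bound of the random part -/
def Bnd (k M : ℕ) (y : ℝ) : ℝ := 20 * ((k : ℝ) + 1) ^ 2 * ((M : ℝ) + 1) * (√y + 1)

end

end Pool.MP_92ef0c_nt.SH
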