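import Pool.Agent.Lib_MP_92ef0c_sh.Defs
import Pool.Agent.Lib_MP_92ef0c_pb.Mert

/-! # [SH-E5a] density as a product -/

set_option autoImplicit false

namespace Pool.MP_92ef0c_nt.SH

open Finset
open Pool.MP_92ef0c_nt.PB (Pz V zz Rough rho)

/-- the forms of the system which are sieved by `p`, for the levels `jj` -/
def act (L : Finset (ℕ × ℕ)) (jj : ℕ × ℕ → ℕ) (p : ℕ) : Finset (ℕ × ℕ) :=
  L.filter (fun l => p ≤ zz (jj l))

/-- [SH-E5a] PROOF: `V (zz (jj l)) = ∏_{p ∈ Pz (zz J), p ≤ zz (jj l)} (1 - 1/p)` (`zz` monotone), exchange the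
products; every factor `1 - 1/p > 0`. -/
theorem dens_eq (L : Finset (ℕ × ℕ)) (jj : ℕ × ℕ → ℕ) (J : ℕ) (hJ : ∀ l ∈ L, jj l ≤ J) :
    (∏ p ∈ Pz (zz J), (1 - (nuL (act L jj p) p : ℝ) / p)) * ∏ l ∈ L, (V (zz (jj l)))⁻¹ =
      ∏ p ∈ Pz (zz J), ph p (act L jj p).card (nuL (act L jj p) p) := by
  classical
  have h1 : ∀ l ∈ L, (V (zz (jj l)))⁻¹ =
      ∏ p ∈ Pz (zz J), if p ≤ zz (jj l) then (1 - 1 / (p : ℝ))⁻¹ else 1 := by
    intro l hl
    have h2 : zz (jj l) ≤ zz J := by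
      unfold zz
      exact Nat.pow_le_pow_right (by norm_num) (Nat.sqrt_le_sqrt (hJ l hl))
    have h3 : Pz (zz (jj l)) = (Pz (zz J)).filter (fun p => p ≤ zz (jj l)) := by
      ext p
      unfold Pz
      simp only [mem_filter, mem_Icc]
      constructor
      · rintro ⟨⟨h4, h5⟩, h6⟩
        exact ⟨⟨⟨h4, h5.trans h2⟩, h6⟩, h5⟩
      · rintro ⟨⟨⟨h4, -⟩, h6⟩, h5⟩
        exact ⟨⟨h4, h5⟩, h6⟩
    rw [← Finset.prod_filter, ← h3]
    unfold V
    rw [Finset.prod_inv_distrib]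
  rw [Finset.prod_congr rfl h1, Finset.prod_comm, ← Finset.prod_mul_distrib]
  refine Finset.prod_congr rfl fun p _ => ?_
  unfold ph
  congr 1
  rw [← Finset.prod_filter, Finset.prod_const]
  rfl

end Pool.MP_92ef0c_nt.SH
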