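import Pool.Agent.Lib_MP_92ef0c_sh.Series
import Pool.Agent.Lib_MP_92ef0c_sh.DensEq
import Pool.Agent.Lib_MP_92ef0c_pb.Mert

/-! # [SH-E5] comparison of densities -/

set_option autoImplicit false

namespace Pool.MP_92ef0c_nt.SH

open Finset
open Pool.MP_92ef0c_nt.PB (Pz V zz Rough rho)

private theorem dc_zz_mono {a b : ℕ} (h : a ≤ b) : zz a ≤ zz b := by
  unfold zz
  exact Nat.pow_le_pow_right (by norm_num) (Nat.sqrt_le_sqrt h)

/-- the product splits -/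
private theorem dc_split (L : Finset (ℕ × ℕ)) (jj : ℕ × ℕ → ℕ) (J j₀ : ℕ) (h0 : j₀ ≤ J)
    (h1 : ∀ l ∈ L, j₀ ≤ jj l) :
    ∏ p ∈ Pz (zz J), ph p (act L jj p).card (nuL (act L jj p) p) =
      SSL L (zz j₀) * ∏ p ∈ (Pz (zz J)).filter (fun p => zz j₀ < p),
        ph p (act L jj p).card (nuL (act L jj p) p) := by
  rw [← Finset.prod_filter_mul_prod_filter_not (Pz (zz J)) (fun p => zz j₀ < p), mul_comm]
  congr 1
  unfold SSL
  have hset : (Pz (zz J)).filter (fun p => ¬ zz j₀ < p) = Pz (zz j₀) := by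
    have h2 := dc_zz_mono h0
    ext p
    unfold Pz
    simp only [mem_filter, mem_Icc, not_lt]
    constructor
    · rintro ⟨⟨⟨h4, -⟩, h6⟩, h5⟩
      exact ⟨⟨h4, h5⟩, h6⟩
    · rintro ⟨⟨h4, h5⟩, h6⟩
      exact ⟨⟨⟨h4, h5.trans h2⟩, h6⟩, h5⟩
  rw [hset]
  refine prod_congr rfl fun p hp => ?_
  have hact : act L jj p = L := by
    unfold act
    rw [filter_true_of_mem]
    intro l hl
    exact (mem_Icc.1 (mem_filter.1 hp).1).2.trans (dc_zz_mono (h1 l hl))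
  rw [hact]

private theorem dc_Vinv : ∃ C : ℝ, 1 ≤ C ∧ ∀ J j : ℕ, j ≤ 2 * J →
    (V (zz j))⁻¹ ≤ C * (1 + (J : ℝ)) := by
  obtain ⟨c, hc, hV⟩ := Pool.MP_92ef0c_nt.PB.V_lower
  have h2c : 0 < 2 / c := by positivity
  refine ⟨1 + 2 / c, by linarith, fun J j hj => ?_⟩
  have hJ0 : (0 : ℝ) ≤ J := Nat.cast_nonneg J
  by_cases h : 2 ≤ zz j
  · have h1 := hV (zz j) h
    have hl0 : 0 < Real.log ((zz j : ℕ) : ℝ) := Real.log_pos (by exact_mod_cast h)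
    have hlog : Real.log ((zz j : ℕ) : ℝ) ≤ 2 * J := by
      have e : ((zz j : ℕ) : ℝ) = (2 : ℝ) ^ Nat.sqrt j := by
        unfold zz
        push_cast
        rfl
      rw [e, Real.log_pow]
      have h3 : Real.log 2 ≤ 1 := by
        have := Real.log_two_lt_d9
        linarith
      have h4 : ((Nat.sqrt j : ℕ) : ℝ) ≤ 2 * J := by
        exact_mod_cast (Nat.sqrt_le_self j).trans hj
      have h5 : 0 ≤ Real.log 2 := Real.log_nonneg (by norm_num)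
      have h6 : (0 : ℝ) ≤ (Nat.sqrt j : ℕ) := Nat.cast_nonneg _
      nlinarith
    have h7 : (V (zz j))⁻¹ ≤ (c / Real.log ((zz j : ℕ) : ℝ))⁻¹ := inv_anti₀ (by positivity) h1
    rw [inv_div] at h7
    have h8 : Real.log ((zz j : ℕ) : ℝ) / c ≤ 2 * J / c := div_le_div_of_nonneg_right hlog hc.le
    have h9 : 2 * (J : ℝ) / c = 2 / c * J := by ring
    nlinarith
  · have h1 : zz j = 1 := by
      have h2 : 1 ≤ zz j := Nat.one_le_two_pow
      omega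
    have h3 : V 1 = 1 := by
      unfold V Pz
      rw [Finset.filter_eq_empty_iff.2]
      · exact Finset.prod_empty
      · intro p hp hp'
        have h4 := (mem_Icc.1 hp).2
        have h5 := hp'.two_le
        omega
    rw [h1, h3, inv_one]
    nlinarith

/-- the product is bounded by a power of `1 + J` -/
private theorem dc_bound (k : ℕ) : ∃ C : ℝ, 0 < C ∧ ∀ (J : ℕ) (L : Finset (ℕ × ℕ)) (jj : ℕ × ℕ → ℕ),
    L.card ≤ k → (∀ l ∈ L, jj l ≤ 2 * J) →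
      0 ≤ (∏ p ∈ Pz (zz (2 * J)), (1 - (nuL (act L jj p) p : ℝ) / p)) *
        (∏ l ∈ L, (V (zz (jj l)))⁻¹) ∧
      (∏ p ∈ Pz (zz (2 * J)), (1 - (nuL (act L jj p) p : ℝ) / p)) *
        (∏ l ∈ L, (V (zz (jj l)))⁻¹) ≤ C * (1 + (J : ℝ)) ^ k := by
  obtain ⟨C, hC1, hC⟩ := dc_Vinv
  refine ⟨C ^ k, by positivity, fun J L jj hk hjj => ?_⟩
  have hJ0 : (0 : ℝ) ≤ J := Nat.cast_nonneg J
  have hf : ∀ p ∈ Pz (zz (2 * J)), 0 ≤ 1 - (nuL (act L jj p) p : ℝ) / p ∧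
      1 - (nuL (act L jj p) p : ℝ) / p ≤ 1 := by
    intro p hp
    have h2 : (2 : ℝ) ≤ p := by exact_mod_cast (mem_filter.1 hp).2.two_le
    have h3 : (nuL (act L jj p) p : ℝ) ≤ p := by exact_mod_cast nuL_le_p _ _
    constructor
    · rw [sub_nonneg, div_le_one (by linarith)]
      exact h3
    · have : 0 ≤ (nuL (act L jj p) p : ℝ) / p := by positivity
      linarith
  have hg : ∀ l ∈ L, 0 ≤ (V (zz (jj l)))⁻¹ := fun l _ =>
    (inv_pos.2 (Pool.MP_92ef0c_nt.PB.V_pos _)).le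
  have h1 : 0 ≤ ∏ p ∈ Pz (zz (2 * J)), (1 - (nuL (act L jj p) p : ℝ) / p) :=
    prod_nonneg fun p hp => (hf p hp).1
  have h2 : ∏ p ∈ Pz (zz (2 * J)), (1 - (nuL (act L jj p) p : ℝ) / p) ≤ 1 :=
    prod_le_one (fun p hp => (hf p hp).1) fun p hp => (hf p hp).2
  have h3 : 0 ≤ ∏ l ∈ L, (V (zz (jj l)))⁻¹ := prod_nonneg hg
  have h4 : ∏ l ∈ L, (V (zz (jj l)))⁻¹ ≤ (C * (1 + (J : ℝ))) ^ k := by
    calc ∏ l ∈ L, (V (zz (jj l)))⁻¹ ≤ ∏ _l ∈ L, (C * (1 + (J : ℝ))) :=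
          prod_le_prod hg fun l hl => hC J (jj l) (hjj l hl)
      _ = (C * (1 + (J : ℝ))) ^ L.card := by rw [prod_const]
      _ ≤ (C * (1 + (J : ℝ))) ^ k := pow_le_pow_right₀ (by nlinarith) hk
  refine ⟨mul_nonneg h1 h3, ?_⟩
  rw [mul_pow] at h4
  calc _ ≤ 1 * ∏ l ∈ L, (V (zz (jj l)))⁻¹ := mul_le_mul_of_nonneg_right h2 h3
    _ ≤ C ^ k * (1 + (J : ℝ)) ^ k := by rw [one_mul]; exact h4

/-- the real variable estimate -/
private theorem dc_exp (k : ℕ) (κ : ℝ) (hκ : 0 < κ) : ∃ c K : ℝ, 0 < c ∧ 0 < K ∧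
    ∀ J j₀ : ℕ, κ * J ≤ j₀ → (1 + (J : ℝ)) ^ (k + 1) / (zz j₀ : ℕ) ≤ K * Real.exp (-(c * √J)) := by
  have hl2 : 0 < Real.log 2 := Real.log_pos (by norm_num)
  have hsκ : 0 < √κ := Real.sqrt_pos.2 hκ
  obtain ⟨b, hb⟩ : ∃ b, b = Real.log 2 * √κ / 2 := ⟨_, rfl⟩
  have hb0 : 0 < b := by rw [hb]; positivity
  obtain ⟨n, hn⟩ : ∃ n, n = 2 * (k + 1) := ⟨_, rfl⟩
  refine ⟨b, 2 * ((n.factorial : ℝ) / b ^ n * Real.exp b), hb0, by positivity, fun J j₀ h => ?_⟩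
  have hJ0 : (0 : ℝ) ≤ J := Nat.cast_nonneg J
  obtain ⟨t, ht⟩ : ∃ t, t = √(J : ℝ) := ⟨_, rfl⟩
  have ht0 : 0 ≤ t := by rw [ht]; exact Real.sqrt_nonneg _
  have ht2 : t ^ 2 = J := by rw [ht]; exact Real.sq_sqrt hJ0
  -- lower bound of the level
  have hz : Real.exp (2 * b * t) ≤ 2 * ((zz j₀ : ℕ) : ℝ) := by
    have h1 : √κ * t ≤ (Nat.sqrt j₀ : ℝ) + 1 := by
      rw [ht, ← Real.sqrt_mul hκ.le]
      apply Real.sqrt_le_iff.2
      refine ⟨by positivity, h.trans ?_⟩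
      have h2 := (Nat.lt_succ_sqrt' j₀).le
      have h3 : (j₀ : ℝ) ≤ ((Nat.sqrt j₀).succ : ℝ) ^ 2 := by exact_mod_cast h2
      rw [Nat.cast_succ] at h3
      exact h3
    have e : 2 * ((zz j₀ : ℕ) : ℝ) = Real.exp (Real.log 2 * ((Nat.sqrt j₀ : ℝ) + 1)) := by
      unfold zz
      push_cast
      rw [mul_add, mul_one, Real.exp_add, Real.exp_log (by norm_num), mul_comm (Real.log 2),
        Real.exp_nat_mul, Real.exp_log (by norm_num), mul_comm]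
    rw [e]
    apply Real.exp_le_exp.2
    have h2 : Real.log 2 * (√κ * t) ≤ Real.log 2 * ((Nat.sqrt j₀ : ℝ) + 1) :=
      mul_le_mul_of_nonneg_left h1 hl2.le
    rw [hb]
    linarith
  have hz0 : (0 : ℝ) < (zz j₀ : ℕ) := by
    have : 0 < Real.exp (2 * b * t) := Real.exp_pos _
    linarith
  -- the polynomial
  have hp : (1 + (J : ℝ)) ^ (k + 1) ≤ (n.factorial : ℝ) / b ^ n * Real.exp b * Real.exp (b * t) := by
    have h1 : 1 + (J : ℝ) ≤ (1 + t) ^ 2 := by nlinarith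
    have h2 : (1 + (J : ℝ)) ^ (k + 1) ≤ (1 + t) ^ n := by
      rw [hn, pow_mul]
      exact pow_le_pow_left₀ (by positivity) h1 _
    have h3 := Real.pow_div_factorial_le_exp (b * (1 + t)) (by positivity) n
    rw [div_le_iff₀ (by positivity), mul_pow] at h3
    have h4 : (1 + t) ^ n ≤ Real.exp (b * (1 + t)) * n.factorial / b ^ n := by
      rw [le_div_iff₀ (by positivity)]
      linarith
    refine h2.trans (h4.trans (le_of_eq ?_))
    rw [mul_add, mul_one, Real.exp_add]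
    ring
  rw [← ht, div_le_iff₀ hz0]
  have h5 : Real.exp (b * t) = Real.exp (-(b * t)) * Real.exp (2 * b * t) := by
    rw [← Real.exp_add]
    congr 1
    ring
  have h6 : 0 < (n.factorial : ℝ) / b ^ n * Real.exp b := by positivity
  calc (1 + (J : ℝ)) ^ (k + 1) ≤ (n.factorial : ℝ) / b ^ n * Real.exp b * Real.exp (b * t) := hp
    _ = (n.factorial : ℝ) / b ^ n * Real.exp b * Real.exp (-(b * t)) * Real.exp (2 * b * t) := by
        rw [h5]; ring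
    _ ≤ (n.factorial : ℝ) / b ^ n * Real.exp b * Real.exp (-(b * t)) * (2 * ((zz j₀ : ℕ) : ℝ)) :=
        mul_le_mul_of_nonneg_left hz (by positivity)
    _ = 2 * ((n.factorial : ℝ) / b ^ n * Real.exp b) * Real.exp (-(b * t)) * ((zz j₀ : ℕ) : ℝ) := by
        ring

/-- [SH-E5b] PROOF: let `z₀ = zz j₀`, `j₀ = ⌈η J⌉ ≤ jj l` (so `z₀ ≥ 2^(√(η J) - 1)`). By `dens_eq` the left product is
`SSL L z₀ * R` (for `p ≤ z₀`: `act = L`), `R` the product over `z₀ < p ≤ zz (2 J)`, and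
`|R - 1| ≤ C (1 + |X|)/z₀` by `tail_prod` if `z₀ ≥ C (1 + |X|)`, `|X| ≤ 2 (k+1)^2 J` (`exists_disc`, for `A = act L jj p ⊆ L`;
`nuL_le` for `A` gives `ν ≤ m`); with `SSL_bound`, `SSL_quant` the difference is at most
`C' (1+J)^(k+1) / z₀ ≤ K exp (-c √J)`. If `z₀ < C (1 + |X|)` then `J` is bounded: all terms are bounded, `K` large
(the product is `≤ C^..`: `(1 - ν/p) ≤ 1` and `V⁻¹` bounded for bounded `J`). `L = ∅` is included. -/
theorem dens_cmp (k : ℕ) (η : ℝ) (hη : 0 < η) : ∃ c K : ℝ, 0 < c ∧ 0 < K ∧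
    ∀ (J : ℕ) (L : Finset (ℕ × ℕ)) (jj : ℕ × ℕ → ℕ), L.card ≤ k → Prim L → Bd J L →
      (∀ l ∈ L, η * J ≤ jj l ∧ jj l ≤ 2 * J) → ∀ S, IsD L S →
      |(∏ p ∈ Pz (zz (2 * J)), (1 - (nuL (act L jj p) p : ℝ) / p)) *
        (∏ l ∈ L, (V (zz (jj l)))⁻¹) - S| ≤ K * Real.exp (-(c * √J)) := by
  have hκ : 0 < min η 2 := lt_min hη (by norm_num)
  obtain ⟨c, K, hc, hK, hexp⟩ := dc_exp k (min η 2) hκ
  obtain ⟨C1, hC1, hb1⟩ := SSL_bound k
  obtain ⟨C2, hC2, hb2⟩ := SSL_quant k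
  obtain ⟨C3, hC3, hb3⟩ := dc_bound k
  obtain ⟨C, hC, htail⟩ := tail_prod k
  obtain ⟨B, hB⟩ : ∃ B : ℝ, B = C * (1 + 2 * ((k : ℝ) + 1) ^ 2) := ⟨_, rfl⟩
  have hB0 : 0 < B := by rw [hB]; positivity
  obtain ⟨C4, hC4⟩ : ∃ C4 : ℝ, C4 = C1 * B + C2 + (C3 + C2) * B := ⟨_, rfl⟩
  have hC40 : 0 < C4 := by rw [hC4]; positivity
  refine ⟨c, C4 * K, hc, by positivity, ?_⟩
  intro J L jj hk hL hJ hjj S hS
  have hJ0 : (0 : ℝ) ≤ J := Nat.cast_nonneg J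
  obtain ⟨j₀, hj₀⟩ : ∃ j₀ : ℕ, j₀ = min ⌈η * J⌉₊ (2 * J) := ⟨_, rfl⟩
  have hj1 : ∀ l ∈ L, j₀ ≤ jj l := by
    intro l hl
    rw [hj₀]
    exact (min_le_left _ _).trans (Nat.ceil_le.2 (hjj l hl).1)
  have hj2 : j₀ ≤ 2 * J := by rw [hj₀]; exact min_le_right _ _
  have hj3 : min η 2 * J ≤ j₀ := by
    rw [hj₀, Nat.cast_min]
    refine le_min ?_ ?_
    · exact (mul_le_mul_of_nonneg_right (min_le_left _ _) hJ0).trans (Nat.le_ceil _)
    · push_cast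
      exact mul_le_mul_of_nonneg_right (min_le_right _ _) hJ0
  have hjj2 : ∀ l ∈ L, jj l ≤ 2 * J := by
    intro l hl
    exact_mod_cast (hjj l hl).2
  obtain ⟨z₀, hz₀⟩ : ∃ z₀ : ℕ, z₀ = zz j₀ := ⟨_, rfl⟩
  have hz1 : 1 ≤ z₀ := by rw [hz₀]; exact Nat.one_le_two_pow
  have hz1' : (0 : ℝ) < z₀ := by exact_mod_cast hz1
  obtain ⟨X, hX, hXp⟩ := exists_disc k J L hk hL hJ
  obtain ⟨D, hD⟩ : ∃ D : ℝ, D = (∏ p ∈ Pz (zz (2 * J)), (1 - (nuL (act L jj p) p : ℝ) / p)) *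
        (∏ l ∈ L, (V (zz (jj l)))⁻¹) := ⟨_, rfl⟩
  have hbD := hb3 J L jj hk hjj2
  rw [← hD] at hbD ⊢
  obtain ⟨hS0, hS1, hSq⟩ := hb2 J L hk hL hJ S hS
  have hXr : C * (1 + (X.card : ℝ)) ≤ B * (1 + J) := by
    have h1 : (X.card : ℝ) ≤ 2 * ((k : ℝ) + 1) ^ 2 * J := by exact_mod_cast hX
    rw [hB, mul_assoc]
    apply mul_le_mul_of_nonneg_left _ hC.le
    have h2 : (0 : ℝ) ≤ 2 * ((k : ℝ) + 1) ^ 2 := by positivity
    nlinarith
  have hP0 : 0 ≤ (1 + (J : ℝ)) ^ k := by positivity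
  have hP1 : 0 ≤ (1 + (J : ℝ)) ^ (k + 1) := by positivity
  have hPP : (1 + (J : ℝ)) ^ k * (1 + J) = (1 + (J : ℝ)) ^ (k + 1) := (pow_succ _ _).symm
  have key : |D - S| ≤ C4 * ((1 + (J : ℝ)) ^ (k + 1) / z₀) := by
    by_cases hcase : C * (1 + (X.card : ℝ)) ≤ z₀
    · have ht := htail X (fun p => (act L jj p).card) (fun p => nuL (act L jj p) p)
        (fun p hp => ⟨nuL_le _ (fun l hl => hL l (mem_filter.1 hl).1) p hp,
          (card_le_card (filter_subset _ _)).trans hk⟩)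
        (fun p hp hpX => hXp p hp hpX _ (filter_subset _ _)) z₀ (zz (2 * J)) hcase
      obtain ⟨R, hR⟩ : ∃ R : ℝ, R = ∏ p ∈ (Pz (zz (2 * J))).filter (fun p => z₀ < p),
        ph p (act L jj p).card (nuL (act L jj p) p) := ⟨_, rfl⟩
      have hsplit : D = SSL L z₀ * R := by
        rw [hD, dens_eq L jj (2 * J) hjj2, dc_split L jj (2 * J) j₀ hj2 hj1, hR, hz₀]
      rw [← hR] at ht
      obtain ⟨hs0, hs1⟩ := hb1 J L hk hL hJ z₀
      have hq := hSq z₀ hz1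
      have e : D - S = SSL L z₀ * (R - 1) + (SSL L z₀ - S) := by rw [hsplit]; ring
      have h1 : |SSL L z₀ * (R - 1)| ≤ C1 * (1 + (J : ℝ)) ^ k * (B * (1 + J) / z₀) := by
        rw [abs_mul, abs_of_nonneg hs0]
        refine mul_le_mul hs1 (ht.trans ?_) (abs_nonneg _) (by positivity)
        exact div_le_div_of_nonneg_right hXr hz1'.le
      have h2 : C1 * (1 + (J : ℝ)) ^ k * (B * (1 + J) / z₀) =
          C1 * B * ((1 + (J : ℝ)) ^ (k + 1) / z₀) := by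
        rw [← hPP]
        ring
      have h3 : C2 * (1 + (J : ℝ)) ^ (k + 1) / z₀ = C2 * ((1 + (J : ℝ)) ^ (k + 1) / z₀) := by ring
      rw [h2] at h1
      rw [h3] at hq
      rw [e]
      refine (abs_add_le _ _).trans ?_
      have h4 : 0 ≤ (C3 + C2) * B * ((1 + (J : ℝ)) ^ (k + 1) / z₀) := by positivity
      have h5 : C4 * ((1 + (J : ℝ)) ^ (k + 1) / z₀) = C1 * B * ((1 + (J : ℝ)) ^ (k + 1) / z₀) +
          C2 * ((1 + (J : ℝ)) ^ (k + 1) / z₀) + (C3 + C2) * B * ((1 + (J : ℝ)) ^ (k + 1) / z₀) := by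
        rw [hC4]
        ring
      linarith
    · push Not at hcase
      have h1 : |D - S| ≤ (C3 + C2) * (1 + (J : ℝ)) ^ k := by
        rw [abs_le]
        have h2 : 0 ≤ C3 * (1 + (J : ℝ)) ^ k := by positivity
        have h3 : 0 ≤ C2 * (1 + (J : ℝ)) ^ k := by positivity
        constructor
        · linarith [hbD.1]
        · linarith [hbD.2]
      have h2 : 1 ≤ B * (1 + J) / z₀ := by
        rw [le_div_iff₀ hz1', one_mul]
        linarith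
      have h3 : (C3 + C2) * (1 + (J : ℝ)) ^ k ≤ (C3 + C2) * (1 + (J : ℝ)) ^ k * (B * (1 + J) / z₀) :=
        le_mul_of_one_le_right (by positivity) h2
      have h4 : (C3 + C2) * (1 + (J : ℝ)) ^ k * (B * (1 + J) / z₀) =
          (C3 + C2) * B * ((1 + (J : ℝ)) ^ (k + 1) / z₀) := by
        rw [← hPP]
        ring
      have h5 : 0 ≤ (C1 * B + C2) * ((1 + (J : ℝ)) ^ (k + 1) / z₀) := by positivity
      have h6 : C4 * ((1 + (J : ℝ)) ^ (k + 1) / z₀) = (C1 * B + C2) * ((1 + (J : ℝ)) ^ (k + 1) / z₀) +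
          (C3 + C2) * B * ((1 + (J : ℝ)) ^ (k + 1) / z₀) := by
        rw [hC4]
        ring
      linarith
  have h7 := hexp J j₀ hj3
  rw [← hz₀] at h7
  calc |D - S| ≤ C4 * ((1 + (J : ℝ)) ^ (k + 1) / z₀) := key
    _ ≤ C4 * (K * Real.exp (-(c * √J))) := mul_le_mul_of_nonneg_left h7 hC40.le
    _ = C4 * K * Real.exp (-(c * √J)) := by ring

end Pool.MP_92ef0c_nt.SH
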