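import Pool.Agent.Lib_MP_92ef0c_sh.Defs
import Pool.Agent.Lib_MP_92ef0c_pb.Mert
import Pool.Agent.Lib_MP_92ef0c_sh.RhoSmall

/-! # [SH-C5] the width `ww` -/

set_option autoImplicit false

namespace Pool.MP_92ef0c_nt.SH

open Finset
open Pool.MP_92ef0c_nt.PB (Pz V zz Rough rho V_pos V_lower rho_bounds)

/-- [SH-C5b] PROOF: `N₁` from `rho_bounds`, `C₀` large. For `u ∈ T` : `ww C₀ v ≤ Nat.log 2 v ≤ v / 2`-like
bounds give `v ≤ 2 u` and `u ≤ 2 v`, so `|log₂ u - log₂ v| ≤ 1`, all `u ∈ T` lie in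
`[v - s, v + s]` with `s = Nat.sqrt (Nat.log 2 v + 1) / C₀`, `u ≠ v`, hence `|T| ≤ 2 s` and each term is at most
`C / √(log₂ v - 1)`. If `log₂ v ≤ 2` then `s = 0` for `C₀ ≥ 2` and `T` is empty. -/
theorem ww_sum : ∃ N₁ C₀ : ℕ, 0 < C₀ ∧ (∀ n, 0 ≤ rho N₁ n ∧ rho N₁ n ≤ 1 / 4) ∧
    ∀ (v : ℕ) (T : Finset ℕ),
      (∀ u ∈ T, (u < v ∧ v - u ≤ ww C₀ v) ∨ (v < u ∧ u - v ≤ ww C₀ u)) →
      ∑ u ∈ T, rho N₁ u ≤ 1 / 4 := by
  obtain ⟨N₁, hN⟩ := rho_bounds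
  obtain ⟨C, hC, hCr⟩ := rho_small
  obtain ⟨C₀, hC₀⟩ := exists_nat_ge (max 2 (16 * C))
  have hC2 : 2 ≤ C₀ := by
    have : (2 : ℝ) ≤ C₀ := (le_max_left _ _).trans hC₀
    exact_mod_cast this
  have hC16 : 16 * C ≤ (C₀ : ℝ) := (le_max_right _ _).trans hC₀
  refine ⟨N₁, C₀, by omega, hN N₁ le_rfl, fun v T hT => ?_⟩
  rcases T.eq_empty_or_nonempty with rfl | ⟨u₀, hu₀⟩
  · simp
  have hhalf : ∀ n : ℕ, 0 < n → 2 * ww C₀ n ≤ n := by
    intro n hn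
    have h1 : ww C₀ n ≤ Nat.log 2 n / 2 := by
      unfold ww
      exact (Nat.div_le_div_right (Nat.sqrt_le_self _)).trans (Nat.div_le_div_left hC2 (by norm_num))
    have h2 : 2 ^ Nat.log 2 n ≤ n := Nat.pow_log_le_self 2 hn.ne'
    have h3 : Nat.log 2 n < 2 ^ Nat.log 2 n := Nat.lt_two_pow_self
    omega
  have hmono : ∀ a b : ℕ, a ≤ b → Nat.sqrt a ≤ Nat.sqrt b := fun a b h => Nat.sqrt_le_sqrt h
  -- the logarithms
  have hlog : ∀ u ∈ T, Nat.log 2 v ≤ Nat.log 2 u + 1 ∧ u ≠ v ∧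
      v ≤ u + Nat.sqrt (Nat.log 2 v + 1) / C₀ ∧ u ≤ v + Nat.sqrt (Nat.log 2 v + 1) / C₀ := by
    intro u hu
    rcases hT u hu with ⟨h1, h2⟩ | ⟨h1, h2⟩
    · have h3 := hhalf v (by omega)
      have h4 : v ≤ u * 2 := by omega
      have h5 : Nat.log 2 v ≤ Nat.log 2 (u * 2) := Nat.log_mono_right h4
      have hu0 : u ≠ 0 := by omega
      rw [Nat.log_mul_base (by norm_num) hu0] at h5
      have h6 : ww C₀ v ≤ Nat.sqrt (Nat.log 2 v + 1) / C₀ :=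
        Nat.div_le_div_right (hmono _ _ (Nat.le_succ _))
      exact ⟨h5, by omega, by omega, by omega⟩
    · have h3 := hhalf u (by omega)
      have h4 : u ≤ v * 2 := by omega
      have hv0 : v ≠ 0 := by
        rintro rfl
        omega
      have h5 : Nat.log 2 u ≤ Nat.log 2 (v * 2) := Nat.log_mono_right h4
      rw [Nat.log_mul_base (by norm_num) hv0] at h5
      have h6 : ww C₀ u ≤ Nat.sqrt (Nat.log 2 v + 1) / C₀ :=
        Nat.div_le_div_right (hmono _ _ h5)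
      have h7 : Nat.log 2 v ≤ Nat.log 2 u := Nat.log_mono_right h1.le
      exact ⟨by omega, by omega, by omega, by omega⟩
  set k := Nat.log 2 v with hk
  set s := Nat.sqrt (k + 1) / C₀ with hs
  have hs1 : 1 ≤ s := by
    obtain ⟨-, h1, h2, h3⟩ := hlog u₀ hu₀
    by_contra h
    have : s = 0 := by omega
    rw [this] at h2 h3
    omega
  have hsq : 2 ≤ Nat.sqrt (k + 1) := by
    have h1 : 1 * C₀ ≤ Nat.sqrt (k + 1) := (Nat.le_div_iff_mul_le (by omega)).1 hs1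
    omega
  have hk3 : 3 ≤ k := by
    have h1 := Nat.sqrt_le' (k + 1)
    have h2 : 2 ^ 2 ≤ Nat.sqrt (k + 1) ^ 2 := Nat.pow_le_pow_left hsq 2
    omega
  have hkR : (3 : ℝ) ≤ k := by exact_mod_cast hk3
  have hcard : T.card ≤ 2 * s := by
    have h1 : T ⊆ (Icc (v - s) (v + s)).erase v := by
      intro u hu
      obtain ⟨-, h1, h2, h3⟩ := hlog u hu
      rw [mem_erase, mem_Icc]
      exact ⟨h1, by omega, h3⟩
    refine (card_le_card h1).trans ?_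
    rw [card_erase_of_mem (by rw [mem_Icc]; omega), Nat.card_Icc]
    omega
  have hterm : ∀ u ∈ T, rho N₁ u ≤ C / √((k : ℝ) - 1) := by
    intro u hu
    obtain ⟨h1, -⟩ := hlog u hu
    refine (hCr N₁ u (by omega)).trans ?_
    have h2 : ((k : ℝ) - 1) ≤ (Nat.log 2 u : ℝ) := by
      have : (k : ℝ) ≤ (Nat.log 2 u : ℝ) + 1 := by exact_mod_cast h1
      linarith
    exact div_le_div_of_nonneg_left hC.le (Real.sqrt_pos.2 (by linarith)) (Real.sqrt_le_sqrt h2)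
  have hC₀pos : (0 : ℝ) < C₀ := by
    have : 0 < C₀ := by omega
    exact_mod_cast this
  have hsR : (s : ℝ) ≤ √((k : ℝ) + 1) / C₀ := by
    rw [le_div_iff₀ hC₀pos]
    have h1 : s * C₀ ≤ Nat.sqrt (k + 1) := Nat.div_mul_le_self _ _
    have h2 : ((s * C₀ : ℕ) : ℝ) ≤ (Nat.sqrt (k + 1) : ℝ) := by exact_mod_cast h1
    have h3 : (Nat.sqrt (k + 1) : ℝ) ≤ √((k + 1 : ℕ) : ℝ) := Real.nat_sqrt_le_real_sqrt
    push_cast at h2 h3
    linarith
  have hsqrt : √((k : ℝ) + 1) ≤ 2 * √((k : ℝ) - 1) := by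
    have h1 : (2 : ℝ) * √((k : ℝ) - 1) = √(4 * ((k : ℝ) - 1)) := by
      rw [Real.sqrt_mul (by norm_num), show (4 : ℝ) = 2 ^ 2 by norm_num,
        Real.sqrt_sq (by norm_num)]
    rw [h1]
    exact Real.sqrt_le_sqrt (by linarith)
  have hpos : 0 < √((k : ℝ) - 1) := Real.sqrt_pos.2 (by linarith)
  calc ∑ u ∈ T, rho N₁ u ≤ ∑ _u ∈ T, C / √((k : ℝ) - 1) := sum_le_sum hterm
    _ = T.card * (C / √((k : ℝ) - 1)) := by rw [sum_const, nsmul_eq_mul]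
    _ ≤ (2 * (2 * √((k : ℝ) - 1) / C₀)) * (C / √((k : ℝ) - 1)) := by
        refine mul_le_mul_of_nonneg_right ?_ (by positivity)
        have h1 : (T.card : ℝ) ≤ 2 * s := by exact_mod_cast hcard
        have h2 : √((k : ℝ) + 1) / C₀ ≤ 2 * √((k : ℝ) - 1) / C₀ :=
          div_le_div_of_nonneg_right hsqrt hC₀pos.le
        linarith
    _ = 4 * C / C₀ := by
        field_simp
        ring
    _ ≤ 1 / 4 := by
        rw [div_le_iff₀ hC₀pos]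
        linarith

/-- [SH-C5c] PROOF: `ww C₀ (n + d) < d` means `Nat.sqrt (Nat.log 2 (n + d)) < d C₀`, so `n + d < 2 ^ ((d C₀)^2)`. -/
theorem ww_finite (C₀ d : ℕ) (hC : 0 < C₀) : {n : ℕ | ww C₀ (n + d) < d}.Finite := by
  refine (Set.finite_lt_nat (2 ^ ((d * C₀) ^ 2))).subset fun n hn => ?_
  have h1 : ww C₀ (n + d) < d := hn
  unfold ww at h1
  rw [Nat.div_lt_iff_lt_mul hC, Nat.sqrt_lt'] at h1
  have h2 : n + d < 2 ^ ((d * C₀) ^ 2) := Nat.lt_pow_of_log_lt (by norm_num) h1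
  show n < 2 ^ ((d * C₀) ^ 2)
  omega

end Pool.MP_92ef0c_nt.SH
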