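import Pool.Agent.Lib_MP_92ef0c_sh.Finite
import Pool.Agent.Lib_MP_92ef0c_sh.Width
import Pool.Agent.Lib_MP_92ef0c_sh.Compact

/-! # [SH-C7] the sets -/

set_option autoImplicit false

namespace Pool.MP_92ef0c_nt.SH

open Finset
open Pool.MP_92ef0c_nt.PB (Pz V zz Rough rho)

/-- [SH-C7] PROOF: `compact` applied to the sets of `finite_config` for `N = 0, 1, 2, ...`; every statement on `P` below
involves only finitely many numbers (all `< m` for some `m`); choose `N ≥ m`, `N > M`, `N > |L|` with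
`n ∈ P ↔ n ∈ S N` for `n < m`. If `u > v` the sum is empty (`Bnd ≥ 0`). `n ∈ P`, `n + d ∈ P`, `d ∈ D`, `0 < d` : not adjacent
in `S N`, so `ww C₀ (n + d) < d`. -/
theorem exists_P : ∃ N₁ C₀ : ℕ, 0 < C₀ ∧ (∀ n, 0 ≤ rho N₁ n ∧ rho N₁ n ≤ 1 / 4) ∧
    ∀ (D : Set ℕ) (F : ℕ → ℕ → ℝ), (∀ i n, |F i n| ≤ 1) → ∃ P : Set ℕ,
      (∀ n ∈ P, 0 < rho N₁ n) ∧
      (∀ n ∈ P, ∀ d ∈ D, 0 < d → n + d ∈ P → ww C₀ (n + d) < d) ∧
      ∀ (M i u v : ℕ) (L : Finset (ℕ × ℕ)), i < 2 ^ M → Bd M L → Good D L → u < 2 ^ M →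
        v < 2 ^ M →
        |∑ n ∈ Ioc u v, F i n * (ind P L n - rr N₁ L n)| ≤ Bnd L.card M ((v : ℝ) - u) := by
  obtain ⟨N₁, C₀, hC₀, hρ, hww⟩ := ww_sum
  refine ⟨N₁, C₀, hC₀, hρ, fun D F hF => ?_⟩
  choose S hS1 hS2 hS3 using finite_config N₁ C₀ hρ hww D F hF
  obtain ⟨P, hP⟩ := compact (fun N => (S N : Set ℕ))
  refine ⟨P, ?_, ?_, ?_⟩
  · intro n hn
    obtain ⟨N, -, h⟩ := hP (n + 1) 0
    exact hS1 N n ((h n (Nat.lt_succ_self n)).1 hn)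
  · intro n hn d hd hd0 hnd
    obtain ⟨N, -, h⟩ := hP (n + d + 1) 0
    have h1 : n ∈ S N := (h n (by omega)).1 hn
    have h2 : n + d ∈ S N := (h (n + d) (by omega)).1 hnd
    by_contra hlt
    have hlt' : d ≤ ww C₀ (n + d) := not_lt.1 hlt
    have h3 : n + d - n = d := by omega
    exact hS2 N n h1 (n + d) h2 (Or.inl ⟨by omega, by rw [h3]; exact hd, by rw [h3]; exact hlt'⟩)
  · intro M i u v L hi hBd hG hu hv
    have hm : ∀ l ∈ L, l.1 * v + l.2 < ∑ l ∈ L, (l.1 * v + l.2) + 1 := fun l hl =>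
      Nat.lt_succ_of_le (Finset.single_le_sum (f := fun l : ℕ × ℕ => l.1 * v + l.2)
        (fun _ _ => Nat.zero_le _) hl)
    obtain ⟨N, hN, h⟩ := hP (∑ l ∈ L, (l.1 * v + l.2) + 1)
      (M + 1 + (L.card + 1) + (∑ l ∈ L, (l.1 * v + l.2) + 1))
    have h1 := hS3 N M i u v L (by omega) (by omega) hi hBd hG hu hv
      (fun l hl => by have := hm l hl; omega)
    have h2 : ∀ n ∈ Ioc u v, ind P L n = ind (S N : Set ℕ) L n := by
      intro n hn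
      have hnv : n ≤ v := (mem_Ioc.1 hn).2
      have h3 : (∀ l ∈ L, l.1 * n + l.2 ∈ P) ↔ ∀ l ∈ L, l.1 * n + l.2 ∈ (S N : Set ℕ) := by
        refine forall₂_congr fun l hl => h _ ?_
        have h4 := hm l hl
        have h5 : l.1 * n ≤ l.1 * v := Nat.mul_le_mul_left _ hnv
        omega
      unfold ind
      by_cases h4 : ∀ l ∈ L, l.1 * n + l.2 ∈ P
      · rw [if_pos h4, if_pos (h3.1 h4)]
      · rw [if_neg h4, if_neg (fun h5 => h4 (h3.2 h5))]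
    rw [Finset.sum_congr rfl (fun n hn => by rw [h2 n hn])]
    exact h1

end Pool.MP_92ef0c_nt.SH
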