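import Pool.Agent.Lib_MP_92ef0c_pb.NotQ1

/-! # [SH-Q3] Q1 fails if there are only finitely many pairs -/

set_option autoImplicit false

namespace Pool.MP_92ef0c_nt.SH

open Finset

/-- [SH-Q3] PROOF: as `main_term_large` of `Lib_MP_92ef0c_pb/NotQ1.lean` (copy): there the main term is shown to be
`≥ (x/2) / (log x)^2`; take `log x > 4 |K| + 1` and `x` so large that `A₀ ≤ (x/4) / (log x)^2`. -/
theorem main_term_large' (e : ℕ) (K x0 A₀ : ℝ) :
    ∃ x : ℝ, x0 ≤ x ∧ (1 : ℝ) ≤ (Real.log x) ^ (0 : ℝ) ∧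
      ∀ A : ℝ, 0 ≤ A → A ≤ A₀ → K * x / (Real.log x) ^ (3 : ℝ) <
      |A - 2 / (((Finset.range 1).filter
                (fun A => Nat.Coprime A 1 ∧ Nat.Coprime (A + e) 1)).card : ℝ)
            * (∏ p ∈ e.primeFactors.filter (fun p => 2 < p),
                (((p : ℝ) - 1) / ((p : ℝ) - 2)))
            * (∏' p : {p : ℕ // p.Prime ∧ 2 < p}, (1 - 1 / (((p : ℕ) : ℝ) - 1) ^ 2))
            * (∫ t in (2 : ℝ)..x, 1 / (Real.log t) ^ 2)| := by
  have hcard : ((Finset.range 1).filter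
      (fun A => Nat.Coprime A 1 ∧ Nat.Coprime (A + e) 1)).card = 1 := by
    simp
  have hprod : 1 ≤ ∏ p ∈ e.primeFactors.filter (fun p => 2 < p), (((p : ℝ) - 1) / ((p : ℝ) - 2)) := by
    have h0 : ∏ _p ∈ e.primeFactors.filter (fun p => 2 < p), (1 : ℝ) ≤
        ∏ p ∈ e.primeFactors.filter (fun p => 2 < p), (((p : ℝ) - 1) / ((p : ℝ) - 2)) := by
      apply Finset.prod_le_prod (fun _ _ => zero_le_one)
      intro p hp
      rw [mem_filter] at hp
      have h1 : (3 : ℝ) ≤ p := by exact_mod_cast hp.2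
      rw [one_le_div (by linarith)]
      linarith
    rwa [Finset.prod_const_one] at h0
  have hC := Pool.MP_92ef0c_nt.PB.twin_const_ge
  rw [hcard]
  generalize (∏ p ∈ e.primeFactors.filter (fun p => 2 < p), (((p : ℝ) - 1) / ((p : ℝ) - 2))) = A
    at hprod
  generalize (∏' p : {p : ℕ // p.Prime ∧ 2 < p}, (1 - 1 / (((p : ℕ) : ℝ) - 1) ^ 2)) = C₂ at hC
  -- choose `x` with `log x > 4 |K| + 1` and `A₀ ≤ (x/4) / (log x)^2`
  have hev : ∀ᶠ x : ℝ in Filter.atTop, 4 * |K| + 1 ≤ Real.log x :=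
    Real.tendsto_log_atTop.eventually_ge_atTop _
  have hlo : (fun x : ℝ => Real.log x ^ 2) =o[Filter.atTop] (fun x : ℝ => x) :=
    Real.isLittleO_pow_log_id_atTop
  have hev2 : ∀ᶠ x : ℝ in Filter.atTop,
      ‖Real.log x ^ 2‖ ≤ (1 / (4 * (|A₀| + 1))) * ‖x‖ :=
    hlo.def (by positivity)
  obtain ⟨x, hx1, hx2, hx3, hx4⟩ := (hev.and ((Filter.eventually_ge_atTop (4 : ℝ)).and
    ((Filter.eventually_ge_atTop x0).and hev2))).exists
  have hlog : 0 < Real.log x := Real.log_pos (by linarith)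
  refine ⟨x, hx3, by rw [Real.rpow_zero], ?_⟩
  intro A' hA'0 hA'1
  have hint : (x - 2) / (Real.log x) ^ 2 ≤ ∫ t in (2 : ℝ)..x, 1 / (Real.log t) ^ 2 := by
    have hcont : ContinuousOn (fun t : ℝ => 1 / (Real.log t) ^ 2) (Set.uIcc 2 x) := by
      intro t ht
      rw [Set.uIcc_of_le (by linarith)] at ht
      have h1 : 0 < Real.log t := Real.log_pos (by linarith [ht.1])
      apply ContinuousAt.continuousWithinAt
      apply ContinuousAt.div continuousAt_const
      · exact (Real.continuousAt_log (by linarith [ht.1])).pow 2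
      · positivity
    have h1 : ∫ _t in (2 : ℝ)..x, 1 / (Real.log x) ^ 2 ≤ ∫ t in (2 : ℝ)..x, 1 / (Real.log t) ^ 2 := by
      apply intervalIntegral.integral_mono_on (by linarith) intervalIntegrable_const
        hcont.intervalIntegrable
      intro t ht
      have h2 : 0 < Real.log t := Real.log_pos (by linarith [ht.1])
      have h3 : Real.log t ≤ Real.log x := Real.log_le_log (by linarith [ht.1]) ht.2
      apply one_div_le_one_div_of_le (by positivity)
      exact pow_le_pow_left₀ h2.le h3 2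
    rw [intervalIntegral.integral_const, smul_eq_mul] at h1
    refine le_trans (le_of_eq ?_) h1
    ring
  have hI0 : 0 ≤ (x - 2) / (Real.log x) ^ 2 := by
    apply div_nonneg (by linarith) (by positivity)
  have h1 : (x / 2) / (Real.log x) ^ 2 ≤
      2 / ((1 : ℕ) : ℝ) * A * C₂ * (∫ t in (2 : ℝ)..x, 1 / (Real.log t) ^ 2) := by
    have h2 : (1 : ℝ) ≤ 2 / ((1 : ℕ) : ℝ) * A * C₂ := by
      rw [Nat.cast_one, div_one]
      nlinarith
    calc (x / 2) / (Real.log x) ^ 2 ≤ (x - 2) / (Real.log x) ^ 2 := by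
          apply div_le_div_of_nonneg_right (by linarith) (by positivity)
      _ ≤ ∫ t in (2 : ℝ)..x, 1 / (Real.log t) ^ 2 := hint
      _ ≤ _ := le_mul_of_one_le_left (hI0.trans hint) h2
  have h0 : 0 ≤ (x / 2) / (Real.log x) ^ 2 := by positivity
  have hx0 : 0 < x := by linarith
  have hA0 : A₀ ≤ (x / 4) / (Real.log x) ^ 2 := by
    rw [Real.norm_of_nonneg (by positivity), Real.norm_of_nonneg hx0.le] at hx4
    rw [le_div_iff₀ (by positivity)]
    have h6 : 0 < |A₀| + 1 := by positivity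
    have h7 : (|A₀| + 1) * Real.log x ^ 2 ≤ x / 4 := by
      calc (|A₀| + 1) * Real.log x ^ 2 ≤ (|A₀| + 1) * (1 / (4 * (|A₀| + 1)) * x) :=
            mul_le_mul_of_nonneg_left hx4 h6.le
        _ = x / 4 := by field_simp
    have h8 : A₀ * Real.log x ^ 2 ≤ (|A₀| + 1) * Real.log x ^ 2 := by
      apply mul_le_mul_of_nonneg_right _ (by positivity)
      linarith [le_abs_self A₀]
    linarith
  have h9 : (x / 4) / (Real.log x) ^ 2 ≤
      2 / ((1 : ℕ) : ℝ) * A * C₂ * (∫ t in (2 : ℝ)..x, 1 / (Real.log t) ^ 2) - A' := by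
    have h10 : (x / 2) / (Real.log x) ^ 2 = (x / 4) / (Real.log x) ^ 2 + (x / 4) / (Real.log x) ^ 2 := by
      ring
    linarith
  rw [abs_sub_comm]
  refine lt_of_lt_of_le ?_ (h9.trans (le_abs_self _))
  have h3 : (Real.log x) ^ (3 : ℝ) = (Real.log x) ^ 2 * Real.log x := by
    rw [show (3 : ℝ) = ((3 : ℕ) : ℝ) by norm_num, Real.rpow_natCast]; ring
  rw [h3, div_lt_div_iff₀ (by positivity) (by positivity)]
  have h4 : K < 1 / 4 * Real.log x := by
    have := le_abs_self K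
    linarith
  have h5 : 0 < x * (Real.log x) ^ 2 := by positivity
  calc K * x * (Real.log x) ^ 2 = K * (x * (Real.log x) ^ 2) := by ring
    _ < 1 / 4 * Real.log x * (x * (Real.log x) ^ 2) := mul_lt_mul_of_pos_right h4 h5
    _ = x / 4 * ((Real.log x) ^ 2 * Real.log x) := by ring

end Pool.MP_92ef0c_nt.SH
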