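import Pool.Agent.Lib_MP_92ef0c_sh.ExistsP
import Pool.Agent.Lib_MP_92ef0c_sh.Dickson
import Pool.Agent.Lib_MP_92ef0c_sh.Compare
import Pool.Agent.Lib_MP_92ef0c_sh.Q1b
import Pool.Agent.Lib_MP_92ef0c_sh.Q1c

/-! # assembly -/

set_option autoImplicit false

namespace Pool.MP_92ef0c_nt.SH

open Finset
open Pool.MP_92ef0c_nt.PB (Pz V zz Rough rho adm rough_of_rho_pos)

/-- everything for all sets `D` at once -/
theorem main (F : ℕ → ℕ → ℝ) (hF : ∀ i n, |F i n| ≤ 1) : ∃ P : Set ℕ → Set ℕ,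
    ∀ D : Set ℕ, 0 ∉ D →
      (∀ n ∈ P D, ∀ p, p.Prime → p ∣ n → 2 ^ Nat.sqrt (Nat.log 2 n) < p) ∧
      (∀ d ∈ D, {n | n ∈ P D ∧ n + d ∈ P D}.Finite) ∧
      (∀ (k : ℕ) (ε : ℝ), 0 < ε → ∃ c K : ℝ, 0 < c ∧ 0 < K ∧ ∀ (x : ℕ) (L : Finset (ℕ × ℕ)),
        2 ≤ x → L.card = k → Prim L → (∀ l ∈ L, l.1 ≤ x ∧ l.2 ≤ x) → Good D L →
        ∀ u v : ℕ, u ≤ v → v ≤ x → (x : ℝ) ^ ε ≤ (v : ℝ) - u → ∃ S : ℝ, IsD L S ∧
          |∑ n ∈ Ioc u v, ind (P D) L n - S * ∑ n ∈ Ioc (max u 1) v, gg L n| ≤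
            K * ((v : ℝ) - u) * Real.exp (-(c * √(Real.log x)))) ∧
      (∀ D' : Set ℕ, 0 ∉ D' → ∀ k : ℕ, ∃ K : ℝ, 0 < K ∧ ∀ (x i : ℕ) (L : Finset (ℕ × ℕ)), 2 ≤ x →
        i ≤ x → L.card = k → (∀ l ∈ L, 0 < l.1 ∧ l.1 ≤ x ∧ l.2 ≤ x) → Good D L → Good D' L →
        ∀ u v : ℕ, u ≤ v → v ≤ x →
          |∑ n ∈ Ioc u v, F i n * (ind (P D) L n - ind (P D') L n)| ≤
            K * Real.log x * (√((v : ℝ) - u) + 1)) := by
  classical
  obtain ⟨N₁, C₀, hC₀, hρ, hex⟩ := exists_P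
  set F' : ℕ → ℕ → ℝ := fun i n => if i = 0 then 1 else F (i - 1) n with hF'
  have hF1 : ∀ i n, |F' i n| ≤ 1 := by
    intro i n
    rw [hF']
    dsimp only
    split_ifs
    · simp
    · exact hF _ _
  choose P hP1 hP2 hP3 using fun D => hex D F' hF1
  refine ⟨P, fun D h0 => ⟨?_, ?_, ?_, ?_⟩⟩
  · intro n hn p hp hpn
    have h2 := rough_of_rho_pos (hP1 D n hn)
    by_contra h3
    exact h2 p hp (not_lt.1 h3) hpn
  · intro d hd
    have hd0 : 0 < d := Nat.pos_of_ne_zero (fun h => h0 (h ▸ hd))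
    refine (ww_finite C₀ d hC₀).subset ?_
    rintro n ⟨h1, h2⟩
    exact hP2 D n h1 d hd hd0 h2
  · intro k ε hε
    refine dickson_of N₁ hρ D (P D) ?_ k ε hε
    intro M u v L hB hG hu hv
    have h := hP3 D M 0 u v L (by positivity) hB hG hu hv
    simpa [hF'] using h
  · intro D' h0' k
    have shift : ∀ D : Set ℕ, ∀ (M i u v : ℕ) (L : Finset (ℕ × ℕ)), i < 2 ^ M → Bd M L →
        Good D L → u < 2 ^ M → v < 2 ^ M →
        |∑ n ∈ Ioc u v, F i n * (ind (P D) L n - rr N₁ L n)| ≤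
          Bnd L.card (M + 1) ((v : ℝ) - u) := by
      intro D M i u v L hi hB hG hu hv
      have h2 : 2 ^ M ≤ 2 ^ (M + 1) := Nat.pow_le_pow_right (by norm_num) (Nat.le_succ M)
      have hi' : i + 1 < 2 ^ (M + 1) := by
        have : 1 ≤ 2 ^ M := Nat.one_le_two_pow
        rw [pow_succ]
        omega
      have h := hP3 D (M + 1) (i + 1) u v L hi'
        (fun l hl => ⟨(hB l hl).1, (hB l hl).2.1.trans_le h2, (hB l hl).2.2.trans_le h2⟩) hG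
        (hu.trans_le h2) (hv.trans_le h2)
      simpa [hF'] using h
    exact compare_of N₁ D D' (P D) (P D') F (shift D) (shift D') k

end Pool.MP_92ef0c_nt.SH
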