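import Pool.Agent.Lib_MP_92ef0c_sh.ShA1
import Pool.Agent.Lib_MP_92ef0c_sh.ShA4a

/-! # [SH-A4] independence of separated functions -/

set_option autoImplicit false

namespace Pool.MP_92ef0c_nt.SH

open Finset

private theorem EX_lin {Ω ι : Type} (W : Finset Ω) (μ : Ω → ℝ) (P : Finset ι) (c : ι → ℝ)
    (e : ι → Ω → ℝ) : EX W μ (fun S => ∑ T ∈ P, c T * e T S) = ∑ T ∈ P, c T * EX W μ (e T) := by
  unfold EX
  simp_rw [mul_sum]
  rw [sum_comm]
  refine sum_congr rfl fun T _ => sum_congr rfl fun S _ => ?_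
  ring

private theorem wt_union {α : Type} [DecidableEq α] (adj : α → α → Prop) (ρ : α → ℝ)
    (hsymm : ∀ s t, adj s t → adj t s) (T T' : Finset α) (hd : Disjoint T T')
    (hno : ∀ s ∈ T, ∀ t ∈ T', ¬ adj s t) : wt adj ρ (T ∪ T') = wt adj ρ T * wt adj ρ T' := by
  classical
  have h : Indep adj (T ∪ T') ↔ Indep adj T ∧ Indep adj T' := by
    constructor
    · intro h
      exact ⟨fun s hs t ht => h s (mem_union_left _ hs) t (mem_union_left _ ht),
        fun s hs t ht => h s (mem_union_right _ hs) t (mem_union_right _ ht)⟩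
    · rintro ⟨h1, h2⟩ s hs t ht
      rcases mem_union.mp hs with hs | hs
      · rcases mem_union.mp ht with ht | ht
        · exact h1 s hs t ht
        · exact hno s hs t ht
      · rcases mem_union.mp ht with ht | ht
        · exact fun h3 => hno t ht s hs (hsymm _ _ h3)
        · exact h2 s hs t ht
  unfold wt
  by_cases h1 : Indep adj T
  · by_cases h2 : Indep adj T'
    · rw [if_pos (h.mpr ⟨h1, h2⟩), if_pos h1, if_pos h2, prod_union hd]
    · rw [if_neg (fun h3 => h2 (h.mp h3).2), if_neg h2, mul_zero]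
  · rw [if_neg (fun h3 => h1 (h.mp h3).1), if_neg h1, zero_mul]

/-- [SH-A4b] PROOF: write `f`, `g` by `moebius`; by linearity and `EX_sub` (`T ⊆ S ∧ T' ⊆ S ↔ T ∪ T' ⊆ S`)
`E (f g) = ∑_{T ⊆ A} ∑_{T' ⊆ B} c T c' T' wt (T ∪ T')` and `wt (T ∪ T') = wt T * wt T'` since `T`, `T'` are
disjoint and there is no edge between `A` and `B`. -/
theorem EX_mul {α : Type} [DecidableEq α] (U : Finset α) (adj : α → α → Prop) (ρ : α → ℝ)
    (hsymm : ∀ s t, adj s t → adj t s) (A B : Finset α) (hA : A ⊆ U) (hB : B ⊆ U)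
    (hAB : Disjoint A B) (hno : ∀ s ∈ A, ∀ t ∈ B, ¬ adj s t) (f g : Finset α → ℝ)
    (hf : ∀ S, f S = f (S ∩ A)) (hg : ∀ S, g S = g (S ∩ B)) :
    EX U.powerset (mu U adj ρ) (fun S => f S * g S) =
      EX U.powerset (mu U adj ρ) f * EX U.powerset (mu U adj ρ) g := by
  classical
  obtain ⟨c, hc⟩ := moebius A f hf
  obtain ⟨c', hc'⟩ := moebius B g hg
  have e1 : EX U.powerset (mu U adj ρ) f = ∑ T ∈ A.powerset, c T * wt adj ρ T := by
    rw [show f = fun S => ∑ T ∈ A.powerset, c T * (if T ⊆ S then 1 else 0) from funext hc,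
      EX_lin]
    refine sum_congr rfl fun T hT => ?_
    rw [EX_sub U adj ρ T ((mem_powerset.mp hT).trans hA)]
  have e2 : EX U.powerset (mu U adj ρ) g = ∑ T ∈ B.powerset, c' T * wt adj ρ T := by
    rw [show g = fun S => ∑ T ∈ B.powerset, c' T * (if T ⊆ S then 1 else 0) from funext hc',
      EX_lin]
    refine sum_congr rfl fun T hT => ?_
    rw [EX_sub U adj ρ T ((mem_powerset.mp hT).trans hB)]
  have e3 : (fun S => f S * g S) = fun S => ∑ p ∈ A.powerset ×ˢ B.powerset,
      (c p.1 * c' p.2) * (if p.1 ∪ p.2 ⊆ S then 1 else 0) := by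
    funext S
    rw [hc S, hc' S, sum_mul_sum, sum_product]
    refine sum_congr rfl fun T _ => sum_congr rfl fun T' _ => ?_
    by_cases h1 : T ⊆ S
    · by_cases h2 : T' ⊆ S
      · rw [if_pos h1, if_pos h2, if_pos (union_subset h1 h2)]
        ring
      · rw [if_neg h2, if_neg (fun h => h2 (subset_union_right.trans h))]
        ring
    · rw [if_neg h1, if_neg (fun h => h1 (subset_union_left.trans h))]
      ring
  rw [e3, EX_lin, e1, e2, sum_mul_sum, sum_product]
  refine sum_congr rfl fun T hT => sum_congr rfl fun T' hT' => ?_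
  have hT1 : T ⊆ A := mem_powerset.mp hT
  have hT2 : T' ⊆ B := mem_powerset.mp hT'
  rw [EX_sub U adj ρ (T ∪ T') (union_subset (hT1.trans hA) (hT2.trans hB)),
    wt_union adj ρ hsymm T T' (disjoint_of_subset_left hT1 (disjoint_of_subset_right hT2 hAB))
      (fun s hs t ht => hno s (hT1 hs) t (hT2 ht))]
  ring

/-- [SH-A4c] PROOF: induction on `T`, `EX_mul` with `A = K a`, `B = T.biUnion K`; `T = ∅`: `mu_total`. -/
theorem EX_prod {α : Type} [DecidableEq α] (U : Finset α) (adj : α → α → Prop) (ρ : α → ℝ)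
    (hsymm : ∀ s t, adj s t → adj t s) (T : Finset ℕ) (K : ℕ → Finset α)
    (hK : ∀ n ∈ T, K n ⊆ U)
    (hsep : ∀ n ∈ T, ∀ m ∈ T, n ≠ m → Disjoint (K n) (K m) ∧ ∀ s ∈ K n, ∀ t ∈ K m, ¬ adj s t)
    (φ : ℕ → Finset α → ℝ) (hφ : ∀ n ∈ T, ∀ S, φ n S = φ n (S ∩ K n)) :
    EX U.powerset (mu U adj ρ) (fun S => ∏ n ∈ T, φ n S) =
      ∏ n ∈ T, EX U.powerset (mu U adj ρ) (φ n) := by
  classical
  induction T using Finset.induction_on with
  | empty =>
    unfold EX
    simp only [prod_empty, mul_one]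
    exact mu_total U adj ρ
  | insert a T ha ih =>
    have hK' : ∀ n ∈ T, K n ⊆ U := fun n hn => hK n (mem_insert_of_mem hn)
    have hφ' : ∀ n ∈ T, ∀ S, φ n S = φ n (S ∩ K n) := fun n hn => hφ n (mem_insert_of_mem hn)
    have hsep' : ∀ n ∈ T, ∀ m ∈ T, n ≠ m → Disjoint (K n) (K m) ∧
        ∀ s ∈ K n, ∀ t ∈ K m, ¬ adj s t := fun n hn m hm =>
      hsep n (mem_insert_of_mem hn) m (mem_insert_of_mem hm)
    have hne : ∀ n ∈ T, a ≠ n := fun n hn h => ha (h ▸ hn)
    have e0 : (fun S => ∏ n ∈ insert a T, φ n S) = fun S => φ a S * ∏ n ∈ T, φ n S := by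
      funext S
      rw [prod_insert ha]
    rw [e0, prod_insert ha, ← ih hK' hsep' hφ']
    refine EX_mul U adj ρ hsymm (K a) (T.biUnion K) (hK a (mem_insert_self a T))
      (biUnion_subset.mpr hK') ?_ ?_ (φ a) (fun S => ∏ n ∈ T, φ n S)
      (hφ a (mem_insert_self a T)) ?_
    · rw [disjoint_biUnion_right]
      exact fun n hn => (hsep a (mem_insert_self a T) n (mem_insert_of_mem hn) (hne n hn)).1
    · intro s hs t ht
      obtain ⟨n, hn, hnt⟩ := mem_biUnion.mp ht
      exact (hsep a (mem_insert_self a T) n (mem_insert_of_mem hn) (hne n hn)).2 s hs t hnt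
    · intro S
      refine prod_congr rfl fun n hn => ?_
      rw [hφ' n hn S, hφ' n hn (S ∩ T.biUnion K), inter_assoc,
        inter_eq_right.mpr (subset_biUnion_of_mem K hn)]

end Pool.MP_92ef0c_nt.SH
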