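import Pool.Agent.Lib_MP_92ef0c_sh.ShA2
import Pool.Agent.Lib_MP_92ef0c_sh.ShA4
import Pool.Agent.Lib_MP_92ef0c_sh.Config
import Pool.Agent.Lib_MP_92ef0c_sh.Color
import Pool.Agent.Lib_MP_92ef0c_sh.Tests

/-! # [SH-C4] the finite configuration (helper11) -/

set_option autoImplicit false

namespace Pool.MP_92ef0c_nt.SH

open Finset
open Pool.MP_92ef0c_nt.PB (Pz V zz Rough rho)

theorem adjD_symm (C₀ : ℕ) (D : Set ℕ) (s t : ℕ) (h : adjD C₀ D s t) : adjD C₀ D t s := by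
  rcases h with h | h
  · exact Or.inr h
  · exact Or.inl h

theorem adjD_irr (C₀ : ℕ) (D : Set ℕ) (s : ℕ) : ¬ adjD C₀ D s s := by
  rintro (h | h)
  · exact lt_irrefl _ h.1
  · exact lt_irrefl _ h.1

/-- the values of the forms at `n` -/
def sites (L : Finset (ℕ × ℕ)) (n : ℕ) : Finset ℕ := L.image (fun l => l.1 * n + l.2)

theorem mem_sites (L : Finset (ℕ × ℕ)) (n s : ℕ) :
    s ∈ sites L n ↔ ∃ l ∈ L, l.1 * n + l.2 = s := by
  unfold sites
  rw [mem_image]

theorem site_lt (M n : ℕ) (l : ℕ × ℕ) (h1 : l.1 < 2 ^ M) (h2 : l.2 < 2 ^ M) (hn : n < 2 ^ M) :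
    l.1 * n + l.2 < 2 ^ (2 * M) := by
  have e : 2 ^ (2 * M) = 2 ^ M * 2 ^ M := by rw [two_mul, pow_add]
  rw [e]
  calc l.1 * n + l.2 < l.1 * n + 2 ^ M := by omega
    _ ≤ (2 ^ M - 1) * 2 ^ M + 2 ^ M := by
        apply Nat.add_le_add_right
        exact Nat.mul_le_mul (by omega) hn.le
    _ = 2 ^ M * 2 ^ M := by
        have h3 : 1 ≤ 2 ^ M := Nat.one_le_two_pow
        calc (2 ^ M - 1) * 2 ^ M + 2 ^ M = ((2 ^ M - 1) + 1) * 2 ^ M := by ring
          _ = 2 ^ M * 2 ^ M := by rw [Nat.sub_add_cancel h3]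

theorem ww_le (C₀ M s : ℕ) (hs : s < 2 ^ (2 * M)) : ww C₀ s ≤ 2 * M + 1 := by
  unfold ww
  calc Nat.sqrt (Nat.log 2 s) / C₀ ≤ Nat.sqrt (Nat.log 2 s) := Nat.div_le_self _ _
    _ ≤ Nat.log 2 s := Nat.sqrt_le_self _
    _ ≤ 2 * M := by
        rcases Nat.eq_zero_or_pos s with h | h
        · subst h; simp
        · exact (Nat.log_lt_of_lt_pow h.ne' hs).le
    _ ≤ 2 * M + 1 := Nat.le_succ _

/-- adjacent numbers below `2 ^ (2 M)` differ by at most `2 M + 1` -/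
theorem adjD_close (C₀ M : ℕ) (D : Set ℕ) (s t : ℕ) (hs : s < 2 ^ (2 * M)) (ht : t < 2 ^ (2 * M))
    (h : adjD C₀ D s t) : s ≤ t + (2 * M + 1) ∧ t ≤ s + (2 * M + 1) := by
  have h1 := ww_le C₀ M s hs
  have h2 := ww_le C₀ M t ht
  rcases h with h | h <;> omega

theorem Lam_nonneg (k M : ℕ) : 0 ≤ Lam k M := by
  unfold Lam
  positivity

theorem Lam_pos (k M : ℕ) : 0 < Lam k M := by
  unfold Lam
  positivity

theorem Bnd_nonneg (k M : ℕ) (y : ℝ) : 0 ≤ Bnd k M y := by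
  unfold Bnd
  positivity

theorem sqrt_split (k M : ℕ) (c : ℕ) : √(8 * c * Lam k M) = √(8 * Lam k M) * √(c : ℝ) := by
  rw [← Real.sqrt_mul (mul_nonneg (by norm_num) (Lam_nonneg k M))]
  congr 1
  ring

theorem sqrt_join (k M : ℕ) (d y : ℝ) : √(8 * Lam k M) * √(d * y) = √(8 * Lam k M * d * y) := by
  rw [← Real.sqrt_mul (mul_nonneg (by norm_num) (Lam_nonneg k M))]
  congr 1
  ring

/-- numerical bound -/
theorem final_num (k M : ℕ) (y : ℝ) (hy : 0 ≤ y) :
    √(8 * Lam k M * ((Del k M : ℝ) + 1) * y) + Del k M ≤ Bnd k M y := by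
  have hD : (Del k M : ℝ) + 1 ≤ 4 * ((k : ℝ) + 1) ^ 2 * ((M : ℝ) + 1) := by
    unfold Del
    push_cast
    have hk : (0 : ℝ) ≤ k := Nat.cast_nonneg k
    have hM : (0 : ℝ) ≤ M := Nat.cast_nonneg M
    nlinarith [mul_nonneg hk hM, mul_nonneg (mul_nonneg hk hk) hM, mul_nonneg hk hk]
  have hD0 : (0 : ℝ) ≤ Del k M := Nat.cast_nonneg _
  have hL : Lam k M ≤ 8 * ((k : ℝ) + 1) ^ 2 * ((M : ℝ) + 1) := by
    unfold Lam
    have hk : (0 : ℝ) ≤ k := Nat.cast_nonneg k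
    have hM : (0 : ℝ) ≤ M := Nat.cast_nonneg M
    nlinarith [mul_nonneg hk hM, mul_nonneg (mul_nonneg hk hk) hM, mul_nonneg hk hk]
  have hL0 : 0 ≤ Lam k M := by
    unfold Lam
    positivity
  set a : ℝ := ((k : ℝ) + 1) ^ 2 * ((M : ℝ) + 1) with ha
  have ha0 : 0 ≤ a := by positivity
  have h1 : 8 * Lam k M * ((Del k M : ℝ) + 1) * y ≤ (16 * a) ^ 2 * y := by
    apply mul_le_mul_of_nonneg_right _ hy
    have h2 : 8 * Lam k M ≤ 64 * a := by linarith
    have h3 : (Del k M : ℝ) + 1 ≤ 4 * a := by linarith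
    calc 8 * Lam k M * ((Del k M : ℝ) + 1) ≤ 64 * a * (4 * a) :=
          mul_le_mul h2 h3 (by linarith) (by linarith)
      _ = (16 * a) ^ 2 := by ring
  have h2 : √(8 * Lam k M * ((Del k M : ℝ) + 1) * y) ≤ 16 * a * √y := by
    refine (Real.sqrt_le_sqrt h1).trans (le_of_eq ?_)
    rw [Real.sqrt_mul (by positivity), Real.sqrt_sq (by positivity)]
  have h3 := Real.sqrt_nonneg y
  have h4 : Bnd k M y = 20 * a * (√y + 1) := by
    unfold Bnd
    rw [ha]; ring
  rw [h4]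
  have h5 : (Del k M : ℝ) ≤ 4 * a := by linarith
  nlinarith [mul_nonneg ha0 h3]

/-- [SH-C4] (helper11) -/
theorem finite_config (N₁ C₀ : ℕ) (hρ : ∀ n, 0 ≤ rho N₁ n ∧ rho N₁ n ≤ 1 / 4)
    (hww : ∀ (v : ℕ) (T : Finset ℕ),
      (∀ u ∈ T, (u < v ∧ v - u ≤ ww C₀ v) ∨ (v < u ∧ u - v ≤ ww C₀ u)) →
      ∑ u ∈ T, rho N₁ u ≤ 1 / 4)
    (D : Set ℕ) (F : ℕ → ℕ → ℝ) (hF : ∀ i n, |F i n| ≤ 1) (N : ℕ) :
    ∃ S : Finset ℕ, (∀ n ∈ S, 0 < rho N₁ n) ∧ Indep (adjD C₀ D) S ∧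
      ∀ (M i u v : ℕ) (L : Finset (ℕ × ℕ)), M < N → L.card < N → i < 2 ^ M → Bd M L →
        Good D L → u < 2 ^ M → v < 2 ^ M → (∀ l ∈ L, l.1 * v + l.2 < N) →
        |∑ n ∈ Ioc u v, F i n * (ind S L n - rr N₁ L n)| ≤ Bnd L.card M ((v : ℝ) - u) := by
  classical
  set U : Finset ℕ := range N with hU
  set adj := adjD C₀ D with hadj
  set ρ := rho N₁ with hρd
  have hsymm : ∀ s t, adj s t → adj t s := fun s t => adjD_symm C₀ D s t
  have hirr : ∀ s, ¬ adj s s := fun s => adjD_irr C₀ D s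
  have hN : ∀ v ∈ U, ∀ T ⊆ U, (∀ u ∈ T, adj v u) → ∑ u ∈ T, ρ u ≤ 1 / 4 := by
    intro v _ T _ hT
    apply hww v T
    intro u hu
    rcases hT u hu with h | h
    · exact Or.inr ⟨h.1, h.2.2⟩
    · exact Or.inl ⟨h.1, h.2.2⟩
  set μ := mu U adj ρ with hμd
  have hμ : ∀ S ∈ U.powerset, 0 ≤ μ S := fun S hS =>
    mu_nonneg U adj ρ hsymm hirr hρ hN S (mem_powerset.1 hS)
  -- colourings
  have hcolex : ∀ (M : ℕ) (L : Finset (ℕ × ℕ)) (T : Finset ℕ), ∃ col : ℕ → ℕ,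
      (∀ n, col n ≤ Del L.card M) ∧ ((∀ l ∈ L, 0 < l.1) →
        ∀ n ∈ T, ∀ m ∈ T, m < n → Inter L (2 * M + 1) m n → col m ≠ col n) := by
    intro M L T
    by_cases h0 : ∀ l ∈ L, 0 < l.1
    · obtain ⟨col, h1, h2⟩ := greedy T (Inter L (2 * M + 1)) (Del L.card M) (by
        intro n _
        have h3 := inter_deg L h0 (2 * M + 1) T n
        have h4 : L.card ^ 2 * (2 * (2 * M + 1) + 1) = Del L.card M := by
          unfold Del; ring
        rw [h4] at h3
        refine le_trans (card_le_card ?_) h3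
        intro m hm
        rw [mem_filter] at hm ⊢
        exact ⟨hm.1, hm.2.2⟩)
      exact ⟨col, h1, fun _ => h2⟩
    · exact ⟨fun _ => 0, fun _ => Nat.zero_le _, fun h => absurd h h0⟩
  choose col hcol1 hcol2 using hcolex
  -- the tests
  set valid : ℕ × ℕ × Finset (ℕ × ℕ) × ℕ × ℕ × ℕ → Prop := fun t =>
    Bd t.1 t.2.2.1 ∧ Good D t.2.2.1 ∧ t.2.2.2.2.1 < 2 ^ t.1 ∧
      ∀ l ∈ t.2.2.1, l.1 * t.2.2.2.2.1 + l.2 < N with hvalid
  set T0 : ℕ → Finset (ℕ × ℕ) → ℕ → ℕ → Finset ℕ := fun M L u v =>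
    (Ioc u v).filter (fun n => ¬ Exc L (2 * M + 1) n) with hT0
  set T : ℕ × ℕ × Finset (ℕ × ℕ) × ℕ × ℕ × ℕ → Finset ℕ := fun t =>
    if valid t then (T0 t.1 t.2.2.1 t.2.2.2.1 t.2.2.2.2.1).filter
      (fun n => col t.1 t.2.2.1 (T0 t.1 t.2.2.1 t.2.2.2.1 t.2.2.2.2.1) n = t.2.2.2.2.2)
    else ∅ with hT
  set f : ℕ × ℕ × Finset (ℕ × ℕ) × ℕ × ℕ × ℕ → ℕ → Finset ℕ → ℝ := fun t n S =>
    F t.2.1 n * (if sites t.2.2.1 n ⊆ S then 1 else 0) with hf
  have hf1 : ∀ t ∈ tests N, ∀ n ∈ T t, ∀ S ∈ U.powerset, |f t n S| ≤ 1 := by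
    intro t _ n _ S _
    rw [hf]
    dsimp only
    rw [abs_mul]
    split_ifs
    · rw [abs_one, mul_one]; exact hF _ _
    · rw [abs_zero, mul_zero]; exact zero_le_one
  have hTmem : ∀ t n, n ∈ T t → valid t ∧ n ∈ T0 t.1 t.2.2.1 t.2.2.2.1 t.2.2.2.2.1 ∧
      col t.1 t.2.2.1 (T0 t.1 t.2.2.1 t.2.2.2.1 t.2.2.2.2.1) n = t.2.2.2.2.2 := by
    intro t n hn
    rw [hT] at hn
    dsimp only at hn
    split_ifs at hn with hv
    · rw [mem_filter] at hn
      exact ⟨hv, hn.1, hn.2⟩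
    · exact absurd hn (notMem_empty _)
  -- the values for valid tests
  have hsite : ∀ (M : ℕ) (L : Finset (ℕ × ℕ)) (v n : ℕ), Bd M L → v < 2 ^ M → n ≤ v →
      (∀ l ∈ L, l.1 * v + l.2 < N) → ∀ s ∈ sites L n, s < N ∧ s < 2 ^ (2 * M) := by
    intro M L v n hB hv hn hvN s hs
    obtain ⟨l, hl, rfl⟩ := (mem_sites L n s).1 hs
    refine ⟨lt_of_le_of_lt ?_ (hvN l hl), site_lt M n l (hB l hl).2.1 (hB l hl).2.2 (by omega)⟩
    exact Nat.add_le_add_right (Nat.mul_le_mul_left _ hn) _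
  have hind : ∀ t ∈ tests N, ∀ s : ℝ,
      EX U.powerset μ (fun S => ∏ n ∈ T t, Real.exp (s * (f t n S - EX U.powerset μ (f t n)))) =
        ∏ n ∈ T t, EX U.powerset μ (fun S => Real.exp (s * (f t n S - EX U.powerset μ (f t n)))) := by
    intro t _ s
    apply EX_prod U adj ρ hsymm (T t) (fun n => sites t.2.2.1 n)
    · intro n hn x hx
      obtain ⟨hv, h1, -⟩ := hTmem t n hn
      rw [hT0, mem_filter, mem_Ioc] at h1
      rw [hU, mem_range]
      exact (hsite t.1 t.2.2.1 _ n hv.1 hv.2.2.1 h1.1.2 hv.2.2.2 x hx).1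
    · intro n hn m hm hnm
      obtain ⟨hv, h1, h1c⟩ := hTmem t n hn
      obtain ⟨-, h2, h2c⟩ := hTmem t m hm
      have h0 : ∀ l ∈ t.2.2.1, 0 < l.1 := fun l hl => (hv.1 l hl).1
      have hno : ∀ s ∈ sites t.2.2.1 n, ∀ s' ∈ sites t.2.2.1 m,
          ¬ (s ≤ s' + (2 * t.1 + 1) ∧ s' ≤ s + (2 * t.1 + 1)) := by
        intro s hs s' hs' hclose
        obtain ⟨l, hl, rfl⟩ := (mem_sites _ _ _).1 hs
        obtain ⟨l', hl', rfl⟩ := (mem_sites _ _ _).1 hs'
        rcases lt_or_gt_of_ne hnm with h | h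
        · exact hcol2 t.1 t.2.2.1 _ h0 m h2 n h1 h ⟨l, hl, l', hl', hclose.1, hclose.2⟩
            (h1c.trans h2c.symm)
        · exact hcol2 t.1 t.2.2.1 _ h0 n h1 m h2 h ⟨l', hl', l, hl, hclose.2, hclose.1⟩
            (h2c.trans h1c.symm)
      rw [hT0, mem_filter, mem_Ioc] at h1 h2
      constructor
      · rw [Finset.disjoint_left]
        intro s hs hs'
        exact hno s hs s hs' ⟨by omega, by omega⟩
      · intro s hs s' hs' hadj'
        have e1 := (hsite t.1 t.2.2.1 _ n hv.1 hv.2.2.1 h1.1.2 hv.2.2.2 s hs).2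
        have e2 := (hsite t.1 t.2.2.1 _ m hv.1 hv.2.2.1 h2.1.2 hv.2.2.2 s' hs').2
        exact hno s hs s' hs' (adjD_close C₀ t.1 D s s' e1 e2 hadj')
    · intro n _ S
      have h1 : ∀ S : Finset ℕ, (sites t.2.2.1 n ⊆ S ∩ sites t.2.2.1 n) ↔ (sites t.2.2.1 n ⊆ S) := by
        intro S
        constructor
        · intro h; exact h.trans inter_subset_left
        · intro h; exact subset_inter h (Subset.refl _)
      rw [hf]
      dsimp only
      simp only [h1]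
  obtain ⟨S, hSU, hSpos, hStest⟩ := config' U.powerset μ hμ (mu_total U adj ρ) (tests N) T f hf1
    hind (fun t => Lam t.2.2.1.card t.1) (fun t _ => Lam_pos _ _) (tests_sum N)
  obtain ⟨hS1, hS2⟩ := mu_supp U adj ρ S hSpos.ne'
  refine ⟨S, fun n hn => lt_of_le_of_ne (hρ n).1 (Ne.symm (hS2 n hn)), hS1, ?_⟩
  intro M i u v L hM hk hi hB hG hu hv hvN
  rcases lt_or_ge v u with hvu | huv
  · rw [Ioc_eq_empty (by omega), sum_empty, abs_zero]
    exact Bnd_nonneg _ _ _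
  have hLs : L ⊆ range (2 ^ M) ×ˢ range (2 ^ M) := by
    intro l hl
    rw [mem_product, mem_range, mem_range]
    exact (hB l hl).2
  -- expectation of a test function
  have hE : ∀ n ∈ T0 M L u v, ∀ c, EX U.powerset μ (f (M, i, L, u, v, c) n) = F i n * rr N₁ L n := by
    intro n hn c
    rw [hT0, mem_filter, mem_Ioc] at hn
    obtain ⟨⟨hn1, hn2⟩, hnE⟩ := hn
    have hst := hsite M L v n hB hv hn2 hvN
    have hinj : Set.InjOn (fun l : ℕ × ℕ => l.1 * n + l.2) (L : Set (ℕ × ℕ)) := by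
      intro l hl l' hl' hll
      simp only at hll
      by_cases h : l.1 = l'.1
      · rw [h] at hll
        exact Prod.ext h (Nat.add_left_cancel hll)
      · exact absurd ⟨l, hl, l', hl', h, by omega, by omega⟩ hnE
    have hsub : sites L n ⊆ U := by
      intro s hs
      rw [hU, mem_range]
      exact (hst s hs).1
    have hindep : Indep adj (sites L n) := by
      intro s hs s' hs' hadj'
      have hclose := adjD_close C₀ M D s s' (hst s hs).2 (hst s' hs').2 hadj'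
      obtain ⟨l, hl, rfl⟩ := (mem_sites _ _ _).1 hs
      obtain ⟨l', hl', rfl⟩ := (mem_sites _ _ _).1 hs'
      by_cases h : l.1 = l'.1
      · rcases hadj' with ⟨h1, h2, -⟩ | ⟨h1, h2, -⟩
        · rw [h] at h1 h2
          have e : l'.1 * n + l'.2 - (l'.1 * n + l.2) = l'.2 - l.2 := by omega
          rw [e] at h2
          exact hG l hl l' hl' h _ h2 (by omega)
        · rw [h] at h1 h2
          have e : l'.1 * n + l.2 - (l'.1 * n + l'.2) = l.2 - l'.2 := by omega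
          rw [e] at h2
          exact hG l' hl' l hl h.symm _ h2 (by omega)
      · exact hnE ⟨l, hl, l', hl', h, hclose.1, hclose.2⟩
    have h1 : EX U.powerset μ (f (M, i, L, u, v, c) n) = F i n *
        EX U.powerset μ (fun S => if sites L n ⊆ S then 1 else 0) := by
      unfold EX
      rw [mul_sum]
      apply sum_congr rfl
      intro S _
      rw [hf]
      ring
    rw [h1, hμd, EX_sub U adj ρ (sites L n) hsub]
    congr 1
    unfold wt
    rw [if_pos hindep]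
    unfold sites rr
    rw [prod_image hinj]
  have hval : ∀ c, valid (M, i, L, u, v, c) := fun c => ⟨hB, hG, hv, hvN⟩
  have hTeq : ∀ c, T (M, i, L, u, v, c) =
      (T0 M L u v).filter (fun n => col M L (T0 M L u v) n = c) := by
    intro c
    rw [hT]
    dsimp only
    rw [if_pos (hval c)]
  have hindS : ∀ n c, f (M, i, L, u, v, c) n S = F i n * ind (S : Set ℕ) L n := by
    intro n c
    rw [hf]
    dsimp only
    congr 1
    unfold ind
    have h1 : (sites L n ⊆ S) ↔ (∀ l ∈ L, l.1 * n + l.2 ∈ (S : Set ℕ)) := by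
      constructor
      · intro h l hl
        exact h ((mem_sites L n _).2 ⟨l, hl, rfl⟩)
      · intro h s hs
        obtain ⟨l, hl, rfl⟩ := (mem_sites L n s).1 hs
        exact h l hl
    by_cases h2 : sites L n ⊆ S
    · rw [if_pos h2, if_pos (h1.1 h2)]
    · rw [if_neg h2, if_neg (fun h3 => h2 (h1.2 h3))]
  set Δ : ℕ := Del L.card M with hΔ
  set y : ℝ := (v : ℝ) - u with hy
  have hy0 : 0 ≤ y := by
    rw [hy]
    have : (u : ℝ) ≤ v := by exact_mod_cast huv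
    linarith
  have hmain : |∑ n ∈ T0 M L u v, F i n * (ind (S : Set ℕ) L n - rr N₁ L n)| ≤
      √(8 * Lam L.card M * ((Δ : ℝ) + 1) * y) := by
    have h1 : ∑ n ∈ T0 M L u v, F i n * (ind (S : Set ℕ) L n - rr N₁ L n) =
        ∑ c ∈ range (Δ + 1), ∑ n ∈ T (M, i, L, u, v, c),
          (f (M, i, L, u, v, c) n S - EX U.powerset μ (f (M, i, L, u, v, c) n)) := by
      rw [← Finset.sum_fiberwise_of_maps_to (s := T0 M L u v) (t := range (Δ + 1))
        (g := fun n => col M L (T0 M L u v) n)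
        (fun n _ => mem_range.2 (Nat.lt_succ_of_le (hcol1 M L _ n)))]
      apply sum_congr rfl
      intro c _
      rw [hTeq c]
      apply sum_congr rfl
      intro n hn
      rw [mem_filter] at hn
      rw [hE n hn.1 c, hindS n c]
      ring
    rw [h1]
    have h2 : ∀ c ∈ range (Δ + 1), |∑ n ∈ T (M, i, L, u, v, c),
        (f (M, i, L, u, v, c) n S - EX U.powerset μ (f (M, i, L, u, v, c) n))| ≤
        √(8 * Lam L.card M) * √((T (M, i, L, u, v, c)).card : ℝ) := by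
      intro c hc
      rw [mem_range] at hc
      have h3 := hStest (M, i, L, u, v, c) ((mem_tests N M i u v c L).2
        ⟨hM, hk, hi, hLs, hu, hv, by omega⟩)
      exact h3.trans (le_of_eq (sqrt_split _ _ _))
    refine (abs_sum_le_sum_abs _ _).trans ((sum_le_sum h2).trans ?_)
    rw [← mul_sum]
    have h3 : (∑ c ∈ range (Δ + 1), √((T (M, i, L, u, v, c)).card : ℝ)) ≤
        √(((Δ : ℝ) + 1) * y) := by
      apply Real.le_sqrt_of_sq_le
      have h5 : (∑ c ∈ range (Δ + 1), √((T (M, i, L, u, v, c)).card : ℝ)) ^ 2 ≤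
          ((range (Δ + 1)).card : ℝ) *
            ∑ c ∈ range (Δ + 1), (√((T (M, i, L, u, v, c)).card : ℝ)) ^ 2 :=
        sq_sum_le_card_mul_sum_sq
      refine h5.trans ?_
      rw [card_range]
      push_cast
      apply mul_le_mul_of_nonneg_left _ (add_nonneg (Nat.cast_nonneg _) zero_le_one)
      have h6 : ∀ c ∈ range (Δ + 1), (√((T (M, i, L, u, v, c)).card : ℝ)) ^ 2 =
          ((T (M, i, L, u, v, c)).card : ℝ) := fun c _ => Real.sq_sqrt (Nat.cast_nonneg _)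
      rw [sum_congr rfl h6]
      have h7 : ∑ c ∈ range (Δ + 1), (T (M, i, L, u, v, c)).card = (T0 M L u v).card := by
        rw [Finset.card_eq_sum_card_fiberwise (s := T0 M L u v) (t := range (Δ + 1))
          (f := fun n => col M L (T0 M L u v) n)
          (fun n _ => mem_coe.2 (mem_range.2 (Nat.lt_succ_of_le (hcol1 M L _ n))))]
        apply sum_congr rfl
        intro c _
        rw [hTeq c]
      have h8 : (T0 M L u v).card ≤ v - u := by
        refine (card_filter_le _ _).trans ?_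
        rw [Nat.card_Ioc]
      have h9 : (∑ c ∈ range (Δ + 1), ((T (M, i, L, u, v, c)).card : ℝ)) ≤ ((v - u : ℕ) : ℝ) := by
        rw [← Nat.cast_sum, h7]
        exact_mod_cast h8
      rw [Nat.cast_sub huv] at h9
      exact h9
    calc √(8 * Lam L.card M) * ∑ c ∈ range (Δ + 1), √((T (M, i, L, u, v, c)).card : ℝ)
        ≤ √(8 * Lam L.card M) * √(((Δ : ℝ) + 1) * y) :=
          mul_le_mul_of_nonneg_left h3 (Real.sqrt_nonneg _)
      _ = √(8 * Lam L.card M * ((Δ : ℝ) + 1) * y) := sqrt_join _ _ _ _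
  have hrr : ∀ n, 0 ≤ rr N₁ L n ∧ rr N₁ L n ≤ 1 := by
    intro n
    unfold rr
    exact ⟨prod_nonneg (fun l _ => (hρ _).1),
      prod_le_one (fun l _ => (hρ _).1) (fun l _ => (hρ _).2.trans (by norm_num))⟩
  have hexc : |∑ n ∈ (Ioc u v).filter (fun n => Exc L (2 * M + 1) n),
      F i n * (ind (S : Set ℕ) L n - rr N₁ L n)| ≤ Δ := by
    refine (abs_sum_le_sum_abs _ _).trans ?_
    have h1 : ∀ n ∈ (Ioc u v).filter (fun n => Exc L (2 * M + 1) n),
        |F i n * (ind (S : Set ℕ) L n - rr N₁ L n)| ≤ 1 := by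
      intro n _
      rw [abs_mul]
      have h2 : |ind (S : Set ℕ) L n - rr N₁ L n| ≤ 1 := by
        have h3 := hrr n
        unfold ind
        split_ifs <;> rw [abs_le] <;> constructor <;> linarith [h3.1, h3.2]
      calc |F i n| * |ind (S : Set ℕ) L n - rr N₁ L n| ≤ 1 * 1 :=
            mul_le_mul (hF i n) h2 (abs_nonneg _) zero_le_one
        _ = 1 := one_mul 1
    refine (sum_le_card_nsmul _ _ 1 h1).trans ?_
    rw [nsmul_eq_mul, mul_one]
    have h4 := exc_card L (2 * M + 1) (Ioc u v)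
    have h5 : L.card ^ 2 * (2 * (2 * M + 1) + 1) = Δ := by
      rw [hΔ]; unfold Del; ring
    rw [h5] at h4
    exact_mod_cast h4
  have hsplit := Finset.sum_filter_add_sum_filter_not (Ioc u v)
    (fun n => Exc L (2 * M + 1) n) (fun n => F i n * (ind (S : Set ℕ) L n - rr N₁ L n))
  rw [← hsplit]
  refine (abs_add_le _ _).trans ?_
  have h1 := final_num L.card M y hy0
  linarith

end Pool.MP_92ef0c_nt.SH
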