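import Pool.Agent.Lib_MP_92ef0c_sh.Defs

/-! # [SH-E1] local counts -/

set_option autoImplicit false

namespace Pool.MP_92ef0c_nt.SH

open Finset

/-- [SH-E1a] PROOF: each primitive form has at most one root modulo `p` (none if `p ∣ l.1`, as then
`p ∤ l.2`; one if `p ∤ l.1`). -/
theorem nuL_le (L : Finset (ℕ × ℕ)) (hL : Prim L) (p : ℕ) (hp : p.Prime) : nuL L p ≤ L.card := by
  classical
  have h1 : bad L p ⊆ L.biUnion (fun l => (range p).filter (fun c => p ∣ l.1 * c + l.2)) := by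
    intro c hc
    unfold bad at hc
    rw [mem_filter] at hc
    obtain ⟨hc1, l, hl, hd⟩ := hc
    rw [mem_biUnion]
    exact ⟨l, hl, mem_filter.2 ⟨hc1, hd⟩⟩
  have h2 := card_biUnion_le_card_mul L
    (fun l => (range p).filter (fun c => p ∣ l.1 * c + l.2)) 1 (by
      intro l hl
      obtain ⟨_, hcop⟩ := hL l hl
      rw [card_le_one]
      intro c hc c' hc'
      rw [mem_filter, mem_range] at hc hc'
      obtain ⟨hc1, hc2⟩ := hc
      obtain ⟨hc1', hc2'⟩ := hc'
      have hn : ¬ p ∣ l.1 := by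
        intro h
        have h3 : p ∣ l.2 := (Nat.dvd_add_right (h.mul_right c)).1 hc2
        have h4 : p ∣ 1 := by
          have := Nat.dvd_gcd h h3
          rwa [hcop] at this
        exact hp.one_lt.ne' (Nat.dvd_one.1 h4)
      have h5 : l.1 * c + l.2 ≡ l.1 * c' + l.2 [MOD p] :=
        ((Nat.modEq_zero_iff_dvd.2 hc2).trans (Nat.modEq_zero_iff_dvd.2 hc2').symm)
      have h6 : l.1 * c ≡ l.1 * c' [MOD p] := Nat.ModEq.add_right_cancel' l.2 h5
      have h7 : c ≡ c' [MOD p] :=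
        Nat.ModEq.cancel_left_of_coprime ((Nat.Prime.coprime_iff_not_dvd hp).2 hn) h6
      exact Nat.ModEq.eq_of_lt_of_lt h7 hc1 hc1')
  unfold nuL
  rw [mul_one] at h2
  exact (card_le_card h1).trans h2

theorem nuL_le_p (L : Finset (ℕ × ℕ)) (p : ℕ) : nuL L p ≤ p := by
  unfold nuL bad
  exact (card_filter_le _ _).trans (card_range p).le

end Pool.MP_92ef0c_nt.SH
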