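import Pool.Agent.Lib_MP_92ef0c_sh.DensEq

/-! # [SH-G1a] the intensities on a piece -/

set_option autoImplicit false

namespace Pool.MP_92ef0c_nt.SH

open Finset
open Pool.MP_92ef0c_nt.PB (Pz V zz Rough rho)

private theorem g1a_mem_Pz {z p : ℕ} : p ∈ Pz z ↔ p.Prime ∧ p ≤ z := by
  unfold Pz
  rw [Finset.mem_filter, Finset.mem_Icc]
  constructor
  · rintro ⟨⟨_, h⟩, hp⟩
    exact ⟨hp, h⟩
  · rintro ⟨hp, h⟩
    exact ⟨⟨hp.one_lt.le, h⟩, hp⟩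

private theorem g1a_zz_mono {i j : ℕ} (h : i ≤ j) : zz i ≤ zz j := by
  unfold zz
  exact Nat.pow_le_pow_right (by norm_num) (Nat.sqrt_le_sqrt h)

private theorem g1a_dvd (p a n b : ℕ) : p ∣ a * (n % p) + b ↔ p ∣ a * n + b := by
  rw [Nat.dvd_iff_mod_eq_zero, Nat.dvd_iff_mod_eq_zero]
  have : (a * (n % p) + b) % p = (a * n + b) % p := by
    rw [Nat.add_mod, Nat.mul_mod, Nat.mod_mod, ← Nat.mul_mod, ← Nat.add_mod]
  rw [this]

private theorem g1a_iff (J : ℕ) (L : Finset (ℕ × ℕ)) (jj : ℕ × ℕ → ℕ) (n : ℕ)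
    (hJ : ∀ l ∈ L, jj l ≤ J) :
    (∀ l ∈ L, Rough (zz (jj l)) (l.1 * n + l.2)) ↔
      ∀ p ∈ Pz (zz J), n % p ∉ bad (act L jj p) p := by
  constructor
  · intro h p hp hb
    rw [g1a_mem_Pz] at hp
    unfold bad at hb
    rw [Finset.mem_filter] at hb
    obtain ⟨_, l, hl, hd⟩ := hb
    unfold act at hl
    rw [Finset.mem_filter] at hl
    rw [g1a_dvd] at hd
    exact h l hl.1 p hp.1 hl.2 hd
  · intro h l hl p hp hpz hd
    have hpJ : p ∈ Pz (zz J) := g1a_mem_Pz.2 ⟨hp, hpz.trans (g1a_zz_mono (hJ l hl))⟩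
    refine h p hpJ ?_
    unfold bad
    rw [Finset.mem_filter]
    refine ⟨Finset.mem_range.2 (Nat.mod_lt _ hp.pos), l, ?_, ?_⟩
    · unfold act
      rw [Finset.mem_filter]
      exact ⟨hl, hpz⟩
    · rw [g1a_dvd]
      exact hd

/-- [SH-G1a] PROOF: `rho N₁ m = [Rough (zz j) m] / (V (zz j) log m)` for `m ≥ N₁`, `j = Nat.log 2 m`;
`Rough (zz j) (l.1 n + l.2) ↔ ∀ p ∈ Pz (zz j), ¬ p ∣ l.1 n + l.2`, and `p ∣ l.1 n + l.2 ↔ p ∣ l.1 (n % p) + l.2`;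
all `jj l ≤ J`, so all forms are rough iff `∀ p ∈ Pz (zz J), n % p ∉ bad (act L jj p) p`. -/
theorem rr_eq (N₁ J : ℕ) (L : Finset (ℕ × ℕ)) (jj : ℕ × ℕ → ℕ) (n : ℕ)
    (hjj : ∀ l ∈ L, Nat.log 2 (l.1 * n + l.2) = jj l ∧ jj l ≤ J ∧ N₁ ≤ l.1 * n + l.2) :
    rr N₁ L n = (if ∀ p ∈ Pz (zz J), n % p ∉ bad (act L jj p) p then 1 else 0) *
      (∏ l ∈ L, (V (zz (jj l)))⁻¹) * gg L n := by
  classical
  have hstep : ∀ l ∈ L, rho N₁ (l.1 * n + l.2) =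
      (if Rough (zz (jj l)) (l.1 * n + l.2) then (1 : ℝ) else 0) * (V (zz (jj l)))⁻¹ *
        (1 / Real.log ((l.1 * n + l.2 : ℕ) : ℝ)) := by
    intro l hl
    obtain ⟨h1, h2, h3⟩ := hjj l hl
    unfold rho
    rw [h1]
    by_cases hR : Rough (zz (jj l)) (l.1 * n + l.2)
    · rw [if_pos ⟨h3, hR⟩, if_pos hR, one_mul, one_div, one_div, mul_inv]
    · rw [if_neg (fun h => hR h.2), if_neg hR, zero_mul, zero_mul]
  unfold rr gg
  rw [Finset.prod_congr rfl hstep, Finset.prod_mul_distrib, Finset.prod_mul_distrib]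
  congr 2
  have hiff := g1a_iff J L jj n (fun l hl => (hjj l hl).2.1)
  by_cases hA : ∀ l ∈ L, Rough (zz (jj l)) (l.1 * n + l.2)
  · rw [if_pos (hiff.1 hA)]
    exact Finset.prod_eq_one (fun l hl => if_pos (hA l hl))
  · rw [if_neg (fun h => hA (hiff.2 h))]
    push Not at hA
    obtain ⟨l, hl, hn⟩ := hA
    exact Finset.prod_eq_zero hl (if_neg hn)

end Pool.MP_92ef0c_nt.SH
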