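import Pool.Agent.Lib_MP_92ef0c_pb.Bonf
import Pool.Agent.Lib_MP_92ef0c_pb.Mert
import Pool.Agent.Lib_MP_92ef0c_sh.Crt2

/-! # [SH-D2] the sieve estimate, general classes -/

set_option autoImplicit false

namespace Pool.MP_92ef0c_nt.SH

open Finset
open Pool.MP_92ef0c_nt.PB (Pz V zz Rough rho)

private theorem mem_Pz {z p : ℕ} : p ∈ Pz z ↔ p.Prime ∧ p ≤ z := by
  unfold Pz
  rw [mem_filter, mem_Icc]
  constructor
  · rintro ⟨⟨-, h2⟩, h3⟩
    exact ⟨h3, h2⟩
  · rintro ⟨h1, h2⟩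
    exact ⟨⟨h1.one_lt.le, h2⟩, h1⟩

private theorem sieve_main_gen (z k r : ℕ) (hr : 1 ≤ r) (Ω : ℕ → Finset ℕ)
    (hΩ : ∀ p, p.Prime → Ω p ⊆ range p ∧ (Ω p).card ≤ k) (u v : ℕ) (huv : u ≤ v) :
    |(((Ioc u v).filter (fun n => ∀ p ∈ Pz z, n % p ∉ Ω p)).card : ℝ) -
        ((v : ℝ) - u) * ∏ p ∈ Pz z, (1 - ((Ω p).card : ℝ) / p)| ≤
      2 * ((v : ℝ) - u) * (((k : ℝ) * ∑ p ∈ Pz z, (1 : ℝ) / p) ^ r / (r.factorial : ℝ)) +
        (1 + (k : ℝ) * z) ^ r := by
  classical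
  set Q : Finset ℕ := Pz z with hQ
  set A : Finset ℕ := Ioc u v with hA
  set D : ℕ → Finset ℕ := fun n => Q.filter (fun p => n % p ∈ Ω p) with hD
  set g : ℕ → ℝ := fun p => ((Ω p).card : ℝ) / p with hg
  set X : ℝ := (v : ℝ) - u with hX
  have huv' : (u : ℝ) ≤ v := by exact_mod_cast huv
  have hX0 : 0 ≤ X := by rw [hX]; linarith
  have hQp : ∀ p ∈ Q, p.Prime ∧ p ≤ z := by
    intro p hp
    rw [hQ, mem_Pz] at hp
    exact hp
  -- the count as a sieve count
  have hG : ((A.filter (fun n => ∀ p ∈ Q, n % p ∉ Ω p)).card : ℝ) =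
      ((A.filter (fun n => D n = ∅)).card : ℝ) := by
    congr 2
    ext n
    rw [mem_filter, mem_filter]
    refine and_congr_right fun _ => ?_
    rw [hD]
    simp only [filter_eq_empty_iff]
  have hb := Pool.MP_92ef0c_nt.PB.bonf_count A Q D (fun n _ => filter_subset _ _) r hr
  -- the counts for sets of primes
  have hE : ∀ E ⊆ Q, |((A.filter (fun n => E ⊆ D n)).card : ℝ) - X * ∏ p ∈ E, g p| ≤ (k : ℝ) ^ E.card := by
    intro E hEQ
    have h1 := crt_gen E (fun p hp => (hQp p (hEQ hp)).1) Ω (fun p hp => (hΩ p (hQp p (hEQ hp)).1).1) 1 0 u v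
      one_pos (fun p hp h => (hQp p (hEQ hp)).1.one_lt.ne' (Nat.dvd_one.1 h)) huv
    have h2 : A.filter (fun n => E ⊆ D n) =
        (Ioc u v).filter (fun n => n ≡ 0 [MOD 1] ∧ ∀ p ∈ E, n % p ∈ Ω p) := by
      ext n
      rw [mem_filter, hA, mem_filter]
      refine and_congr_right fun _ => ?_
      rw [hD]
      constructor
      · intro h3
        exact ⟨Nat.modEq_one, fun p hp => (mem_filter.1 (h3 hp)).2⟩
      · intro h3 p hp
        exact mem_filter.2 ⟨hEQ hp, h3.2 p hp⟩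
    rw [Nat.cast_one, div_one] at h1
    rw [h2]
    refine h1.trans ?_
    calc ∏ p ∈ E, ((Ω p).card : ℝ) ≤ ∏ _p ∈ E, (k : ℝ) := by
          refine prod_le_prod (fun p _ => Nat.cast_nonneg _) fun p hp => ?_
          exact_mod_cast (hΩ p (hQp p (hEQ hp)).1).2
      _ = (k : ℝ) ^ E.card := by rw [prod_const]
  have hg01 : ∀ p ∈ Q, 0 ≤ g p ∧ g p ≤ 1 := by
    intro p hp
    have hp0 := (hQp p hp).1.pos
    refine ⟨div_nonneg (Nat.cast_nonneg _) (Nat.cast_nonneg _), ?_⟩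
    rw [hg]
    simp only
    rw [div_le_one (by exact_mod_cast hp0)]
    have h1 := card_le_card (hΩ p (hQp p hp).1).1
    rw [card_range] at h1
    exact_mod_cast h1
  set e : ℕ → ℝ := fun i => ∑ E ∈ Q.powersetCard i, ∏ p ∈ E, g p with he
  set N : ℕ → ℝ := fun i => ∑ E ∈ Q.powersetCard i, ((A.filter (fun n => E ⊆ D n)).card : ℝ) with hN
  set B : ℕ → ℝ := fun i => ∑ _E ∈ Q.powersetCard i, (k : ℝ) ^ i with hB
  have hNe : ∀ i, |N i - X * e i| ≤ B i := by
    intro i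
    rw [hN, he, hB]
    simp only
    rw [mul_sum, ← sum_sub_distrib]
    refine (abs_sum_le_sum_abs _ _).trans (sum_le_sum fun E hE' => ?_)
    obtain ⟨h1, h2⟩ := mem_powersetCard.1 hE'
    have := hE E h1
    rwa [h2] at this
  have hsum : |∑ i ∈ range r, (-1 : ℝ) ^ i * N i - X * ∑ i ∈ range r, (-1 : ℝ) ^ i * e i| ≤ ∑ i ∈ range r, B i := by
    rw [mul_sum, ← sum_sub_distrib]
    refine (abs_sum_le_sum_abs _ _).trans (sum_le_sum fun i _ => ?_)
    have h1 : (-1 : ℝ) ^ i * N i - X * ((-1 : ℝ) ^ i * e i) = (-1) ^ i * (N i - X * e i) := by ring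
    rw [h1, abs_mul, abs_pow, abs_neg, abs_one, one_pow, one_mul]
    exact hNe i
  have hp := Pool.MP_92ef0c_nt.PB.bonf_prod' Q g hg01 r
  have hBs : ∑ i ∈ range (r + 1), B i ≤ (1 + (k : ℝ) * z) ^ r := by
    refine (Pool.MP_92ef0c_nt.PB.sum_pow_le Q k r).trans ?_
    refine pow_le_pow_left₀ (by positivity) ?_ r
    have hcard : Q.card ≤ z := by
      calc Q.card ≤ (Icc 1 z).card := card_le_card (filter_subset _ _)
        _ = z := by rw [Nat.card_Icc]; omega
    have hcard' : (Q.card : ℝ) ≤ z := by exact_mod_cast hcard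
    have hk0 : (0 : ℝ) ≤ k := Nat.cast_nonneg k
    nlinarith
  have her : e r ≤ ((k : ℝ) * ∑ p ∈ Pz z, (1 : ℝ) / p) ^ r / (r.factorial : ℝ) := by
    refine (Pool.MP_92ef0c_nt.PB.esymm_le' Q g (fun p hp => (hg01 p hp).1) r).trans ?_
    refine div_le_div_of_nonneg_right ?_ (Nat.cast_nonneg _)
    refine pow_le_pow_left₀ (sum_nonneg fun p hp => (hg01 p hp).1) ?_ r
    rw [mul_sum]
    refine sum_le_sum fun p hp => ?_
    rw [hg]
    simp only
    rw [mul_one_div]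
    refine div_le_div_of_nonneg_right ?_ (Nat.cast_nonneg _)
    exact_mod_cast (hΩ p (hQp p hp).1).2
  rw [hG]
  have he0 : 0 ≤ e r := sum_nonneg fun E hE' => prod_nonneg fun p hp' =>
    (hg01 p ((mem_powersetCard.1 hE').1 hp')).1
  have hb' : |((A.filter (fun n => D n = ∅)).card : ℝ) - ∑ i ∈ range r, (-1 : ℝ) ^ i * N i| ≤ N r := hb
  change |((A.filter (fun n => D n = ∅)).card : ℝ) - X * ∏ p ∈ Q, (1 - g p)| ≤ _
  have hp' : |∏ p ∈ Q, (1 - g p) - ∑ i ∈ range r, (-1 : ℝ) ^ i * e i| ≤ e r := hp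
  have hNr : N r ≤ X * e r + B r := by
    have := (abs_le.1 (hNe r)).2
    linarith
  have hXp : |X * ∏ p ∈ Q, (1 - g p) - X * ∑ i ∈ range r, (-1 : ℝ) ^ i * e i| ≤ X * e r := by
    rw [← mul_sub, abs_mul, abs_of_nonneg hX0]
    exact mul_le_mul_of_nonneg_left hp' hX0
  have hBs' : ∑ i ∈ range r, B i + B r ≤ (1 + (k : ℝ) * z) ^ r := by
    rw [← sum_range_succ]
    exact hBs
  have hfin : 2 * X * e r ≤ 2 * X * (((k : ℝ) * ∑ p ∈ Pz z, (1 : ℝ) / p) ^ r / (r.factorial : ℝ)) :=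
    mul_le_mul_of_nonneg_left her (by positivity)
  rw [abs_le] at hb' hsum hXp ⊢
  constructor <;> linarith [hb'.1, hb'.2, hsum.1, hsum.2, hXp.1, hXp.2]

/-- the sum of the reciprocals of the primes up to `zz j` -/
private theorem sum_inv_zz : ∃ C : ℝ, 0 < C ∧ ∀ j : ℕ, ∑ p ∈ Pz (zz j), (1 : ℝ) / p ≤ Real.log j + C := by
  obtain ⟨C, hC, hS⟩ := Pool.MP_92ef0c_nt.PB.sum_inv_primes
  refine ⟨C, hC, fun j => ?_⟩
  rcases Nat.eq_zero_or_pos j with hj | hj
  · subst hj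
    have h1 : Pz (zz 0) = ∅ := by
      rw [eq_empty_iff_forall_notMem]
      intro p hp
      have h2 := mem_Pz.1 hp
      have h3 : zz 0 = 1 := by simp [zz]
      rw [h3] at h2
      have := h2.1.two_le
      omega
    rw [h1, sum_empty]
    simp only [Nat.cast_zero, Real.log_zero]
    linarith
  · have hs : 1 ≤ Nat.sqrt j := Nat.sqrt_pos.2 hj
    have hz : 2 ≤ zz j := by
      unfold zz
      calc 2 = 2 ^ 1 := (pow_one 2).symm
        _ ≤ 2 ^ Nat.sqrt j := Nat.pow_le_pow_right (by norm_num) hs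
    refine (hS (zz j) hz).trans ?_
    have h1 : Real.log (zz j) = Nat.sqrt j * Real.log 2 := by
      unfold zz
      push_cast
      rw [Real.log_pow]
    have h2 : (1 : ℝ) ≤ Nat.sqrt j := by exact_mod_cast hs
    have hl2 : 0 < Real.log 2 := Real.log_pos (by norm_num)
    have h3 : 0 < Real.log (zz j) := by
      rw [h1]
      positivity
    have h4 : Real.log (zz j) ≤ j := by
      rw [h1]
      have h5 : ((Nat.sqrt j : ℕ) : ℝ) ≤ j := by exact_mod_cast Nat.sqrt_le_self j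
      have h6 : Real.log 2 ≤ 1 := by
        have := Real.log_two_lt_d9
        linarith
      nlinarith
    have h7 := Real.log_le_log h3 h4
    linarith

private theorem log_bound (δ : ℝ) (hδ : 0 < δ) (k : ℕ) (j : ℕ) :
    8 * (k : ℝ) * Real.log j - δ * √(j : ℝ) ≤ 256 * (k : ℝ) ^ 2 / δ := by
  rcases Nat.eq_zero_or_pos j with hj | hj
  · subst hj
    simp only [Nat.cast_zero, Real.log_zero, Real.sqrt_zero, mul_zero, sub_zero]
    positivity
  have hj' : (0 : ℝ) < j := by exact_mod_cast hj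
  set y : ℝ := √(√(j : ℝ)) with hy
  have hy0 : 0 < y := Real.sqrt_pos.2 (Real.sqrt_pos.2 hj')
  have hy2 : y ^ 2 = √(j : ℝ) := Real.sq_sqrt (Real.sqrt_nonneg _)
  have hy4 : y ^ 4 = j := by
    have : y ^ 4 = (y ^ 2) ^ 2 := by ring
    rw [this, hy2, Real.sq_sqrt hj'.le]
  have hlog : Real.log j = 4 * Real.log y := by
    rw [← hy4, Real.log_pow]
    norm_num
  have hly : Real.log y ≤ y := (Real.log_le_sub_one_of_pos hy0).trans (by linarith)
  rw [hlog, ← hy2, le_div_iff₀ hδ]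
  have hk0 : (0 : ℝ) ≤ k := Nat.cast_nonneg k
  have h1 : 8 * (k : ℝ) * (4 * Real.log y) ≤ 32 * k * y := by nlinarith
  have h2 : (8 * (k : ℝ) * (4 * Real.log y) - δ * y ^ 2) * δ ≤ (32 * k * y - δ * y ^ 2) * δ :=
    mul_le_mul_of_nonneg_right (by linarith) hδ.le
  nlinarith [sq_nonneg (δ * y - 16 * k)]

/-- [SH-D2] PROOF: the proof of `sieve` in `Lib_MP_92ef0c_pb/Sieve.lean` with `q = 1`, `Ω p` in place of the
classes of `-H`, `(Ω p).card` in place of `nu H p` (`crt_gen` with `q = 1`). The numerical part is identical. -/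
theorem sieve_gen (k : ℕ) (ε : ℝ) (hε : 0 < ε) : ∃ c K : ℝ, 0 < c ∧ 0 < K ∧ ∀ J : ℕ,
    ∀ Ω : ℕ → Finset ℕ, (∀ p, p.Prime → Ω p ⊆ range p ∧ (Ω p).card ≤ k) →
      ∀ u v : ℕ, u ≤ v →
        |(((Ioc u v).filter (fun n => ∀ p ∈ Pz (zz J), n % p ∉ Ω p)).card : ℝ) -
          ((v : ℝ) - u) * ∏ p ∈ Pz (zz J), (1 - ((Ω p).card : ℝ) / p)| ≤
        K * (((v : ℝ) - u) * Real.exp (-(c * √J)) + (2 : ℝ) ^ (ε * J)) := by
  obtain ⟨C, hC, hS⟩ := sum_inv_zz
  set δ : ℝ := ε / 2 with hδ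
  have hδ0 : 0 < δ := by rw [hδ]; linarith
  have hl2 : 0 < Real.log 2 := Real.log_pos (by norm_num)
  set L : ℝ := Real.log (1 + k) with hL
  have hk0 : (0 : ℝ) ≤ k := Nat.cast_nonneg k
  have hL0 : 0 ≤ L := Real.log_nonneg (by linarith)
  set A : ℝ := Real.log 2 + δ * L with hA
  have hA0 : 0 < A := by positivity
  set η : ℝ := δ * Real.log 2 with hη
  have hη0 : 0 < η := by positivity
  set K1 : ℝ := 2 * Real.exp (8 * k * C + 256 * (k : ℝ) ^ 2 / δ) with hK1
  set K2 : ℝ := Real.exp (L + A ^ 2 / (4 * η)) with hK2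
  refine ⟨δ, K1 + K2, hδ0, by positivity, ?_⟩
  intro j Ω hΩ u v huv
  set s : ℝ := √(j : ℝ) with hs
  have hs0 : 0 ≤ s := Real.sqrt_nonneg _
  have hs2 : s ^ 2 = j := Real.sq_sqrt (Nat.cast_nonneg j)
  set r : ℕ := ⌊δ * s⌋₊ + 1 with hr
  have hr1 : 1 ≤ r := by omega
  have hrl : δ * s ≤ r := by
    rw [hr]
    push_cast
    exact (Nat.lt_floor_add_one _).le
  have hru : (r : ℝ) ≤ δ * s + 1 := by
    rw [hr]
    push_cast
    have := Nat.floor_le (show 0 ≤ δ * s by positivity)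
    linarith
  have huv' : (u : ℝ) ≤ v := by exact_mod_cast huv
  have hX0 : 0 ≤ (v : ℝ) - u := by linarith
  have hmain := sieve_main_gen (zz j) k r hr1 Ω hΩ u v huv
  -- the first term
  have hS0 : 0 ≤ ∑ p ∈ Pz (zz j), (1 : ℝ) / p := sum_nonneg fun p _ => by positivity
  set y : ℝ := (k : ℝ) * ∑ p ∈ Pz (zz j), (1 : ℝ) / p with hy
  have hy0 : 0 ≤ y := mul_nonneg hk0 hS0
  have hyle : y ≤ k * (Real.log j + C) := mul_le_mul_of_nonneg_left (hS j) hk0
  have hT1 : y ^ r / (r.factorial : ℝ) ≤ Real.exp (8 * k * C + 256 * (k : ℝ) ^ 2 / δ) * Real.exp (-(δ * s)) := by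
    have h1 := Real.pow_div_factorial_le_exp (8 * y) (by positivity) r
    rw [mul_pow, mul_div_assoc] at h1
    have h8 : Real.exp 2 ≤ 8 := by
      have h2 : Real.exp 2 = Real.exp 1 * Real.exp 1 := by
        rw [← Real.exp_add]
        norm_num
      rw [h2]
      have := Real.exp_one_lt_d9
      have := Real.exp_pos 1
      nlinarith
    have h3 : Real.exp (2 * r) ≤ (8 : ℝ) ^ r := by
      rw [mul_comm, Real.exp_nat_mul]
      exact pow_le_pow_left₀ (Real.exp_pos 2).le h8 r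
    have h4 : 0 ≤ y ^ r / (r.factorial : ℝ) := by positivity
    have h5 : Real.exp (2 * r) * (y ^ r / (r.factorial : ℝ)) ≤ Real.exp (8 * y) :=
      (mul_le_mul_of_nonneg_right h3 h4).trans h1
    have h6 : y ^ r / (r.factorial : ℝ) ≤ Real.exp (8 * y - 2 * r) := by
      rw [Real.exp_sub, le_div_iff₀ (Real.exp_pos _), mul_comm]
      exact h5
    refine h6.trans ?_
    rw [← Real.exp_add]
    refine Real.exp_le_exp.2 ?_
    have h7 := log_bound δ hδ0 k j
    rw [← hs] at h7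
    have h8' : 8 * y ≤ 8 * k * Real.log j + 8 * k * C := by
      calc 8 * y ≤ 8 * (k * (Real.log j + C)) := mul_le_mul_of_nonneg_left hyle (by norm_num)
        _ = _ := by ring
    linarith
  -- the second term
  have hT2 : (1 + (k : ℝ) * (zz j : ℕ)) ^ r ≤ K2 * (2 : ℝ) ^ (ε * j) := by
    have hz : ((zz j : ℕ) : ℝ) ≤ Real.exp (s * Real.log 2) := by
      unfold zz
      push_cast
      rw [← Real.rpow_natCast, Real.rpow_def_of_pos (by norm_num), mul_comm]
      refine Real.exp_le_exp.2 (mul_le_mul_of_nonneg_right ?_ hl2.le)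
      rw [hs]
      exact Real.nat_sqrt_le_real_sqrt
    have h1 : 1 + (k : ℝ) * (zz j : ℕ) ≤ Real.exp (L + s * Real.log 2) := by
      rw [Real.exp_add, hL, Real.exp_log (by linarith), add_mul, one_mul]
      have h2 : 1 ≤ Real.exp (s * Real.log 2) := Real.one_le_exp (by positivity)
      exact add_le_add h2 (mul_le_mul_of_nonneg_left hz hk0)
    calc (1 + (k : ℝ) * (zz j : ℕ)) ^ r ≤ Real.exp (L + s * Real.log 2) ^ r :=
          pow_le_pow_left₀ (by positivity) h1 r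
      _ = Real.exp (r * (L + s * Real.log 2)) := by rw [← Real.exp_nat_mul]
      _ ≤ Real.exp ((L + A ^ 2 / (4 * η)) + Real.log 2 * (ε * j)) := by
          refine Real.exp_le_exp.2 ?_
          have h3 : 0 ≤ L + s * Real.log 2 := by positivity
          have h4 : (r : ℝ) * (L + s * Real.log 2) ≤ (δ * s + 1) * (L + s * Real.log 2) :=
            mul_le_mul_of_nonneg_right hru h3
          have h5 : (δ * s + 1) * (L + s * Real.log 2) = η * j + A * s + L := by
            rw [hη, hA, ← hs2]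
            ring
          have h6 : A * s ≤ η * j + A ^ 2 / (4 * η) := by
            rw [← hs2]
            have h7 : 0 ≤ (2 * η * s - A) ^ 2 / (4 * η) := by positivity
            have h8 : (2 * η * s - A) ^ 2 / (4 * η) = η * s ^ 2 - A * s + A ^ 2 / (4 * η) := by
              field_simp
              ring
            linarith
          have h9 : Real.log 2 * (ε * j) = η * j + η * j := by
            rw [hη, hδ]
            ring
          linarith
      _ = K2 * (2 : ℝ) ^ (ε * j) := by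
          rw [Real.exp_add, Real.rpow_def_of_pos (by norm_num)]
  have hexp : 0 ≤ Real.exp (-(δ * s)) := (Real.exp_pos _).le
  have h2pos : 0 ≤ (2 : ℝ) ^ (ε * j) := by positivity
  have hK10 : 0 ≤ K1 := by positivity
  have hK20 : 0 ≤ K2 := by positivity
  calc |(((Ioc u v).filter (fun n => ∀ p ∈ Pz (zz j), n % p ∉ Ω p)).card : ℝ) -
          ((v : ℝ) - u) * ∏ p ∈ Pz (zz j), (1 - ((Ω p).card : ℝ) / p)|
      ≤ 2 * ((v : ℝ) - u) * (y ^ r / (r.factorial : ℝ)) + (1 + (k : ℝ) * (zz j : ℕ)) ^ r := hmain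
    _ ≤ 2 * ((v : ℝ) - u) * (Real.exp (8 * k * C + 256 * (k : ℝ) ^ 2 / δ) * Real.exp (-(δ * s))) +
        K2 * (2 : ℝ) ^ (ε * j) := add_le_add (mul_le_mul_of_nonneg_left hT1 (by positivity)) hT2
    _ = K1 * (((v : ℝ) - u) * Real.exp (-(δ * s))) + K2 * (2 : ℝ) ^ (ε * j) := by rw [hK1]; ring
    _ ≤ (K1 + K2) * (((v : ℝ) - u) * Real.exp (-(δ * s)) + (2 : ℝ) ^ (ε * j)) := by
        have h1 : 0 ≤ ((v : ℝ) - u) * Real.exp (-(δ * s)) := mul_nonneg hX0 hexp
        have h2 := mul_nonneg hK20 h1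
        have h3 := mul_nonneg hK10 h2pos
        rw [add_mul, mul_add, mul_add]
        linarith

end Pool.MP_92ef0c_nt.SH
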