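import Pool.Agent.Lib_MP_92ef0c_sh.DensCmp
import Pool.Agent.Lib_MP_92ef0c_sh.Sieve2
import Pool.Agent.Lib_MP_92ef0c_pb.Abel
import Pool.Agent.Lib_MP_92ef0c_sh.RrEq

/-! # [SH-G1] the deterministic part on a piece where all values keep their binary length -/

set_option autoImplicit false

namespace Pool.MP_92ef0c_nt.SH

open Finset
open Pool.MP_92ef0c_nt.PB (Pz V zz Rough rho abel_bound V_pos V_lower)

private theorem pc_pow (b : ℝ) (hb : 0 < b) (n : ℕ) : ∃ A : ℝ, 0 < A ∧ ∀ y : ℝ, 0 ≤ y →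
    (1 + y) ^ n ≤ A * Real.exp (b * y) := by
  refine ⟨(n.factorial : ℝ) / b ^ n * Real.exp b, by positivity, fun y hy => ?_⟩
  have h1 := Real.pow_div_factorial_le_exp (b * (1 + y)) (by positivity) n
  have hf : (0 : ℝ) < n.factorial := by positivity
  have hbn : 0 < b ^ n := by positivity
  rw [div_le_iff₀ hf, mul_pow] at h1
  have h2 : Real.exp (b * (1 + y)) = Real.exp b * Real.exp (b * y) := by
    rw [← Real.exp_add]; congr 1; ring
  rw [h2] at h1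
  have h3 : (1 + y) ^ n ≤ (Real.exp b * Real.exp (b * y) * n.factorial) / b ^ n := by
    rw [le_div_iff₀ hbn]; linarith
  refine h3.trans (le_of_eq ?_)
  field_simp

private theorem pc_pow_sqrt (a : ℝ) (ha : 0 < a) (k : ℕ) : ∃ A : ℝ, 0 < A ∧ ∀ J : ℕ,
    (1 + (J : ℝ)) ^ k ≤ A * Real.exp (a * √J) := by
  obtain ⟨A, hA, h⟩ := pc_pow a ha (2 * k)
  refine ⟨A, hA, fun J => ?_⟩
  have h1 := h (√J) (Real.sqrt_nonneg _)
  refine le_trans ?_ h1
  rw [pow_mul]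
  refine pow_le_pow_left₀ (by positivity) ?_ k
  have h2 := Real.sq_sqrt (Nat.cast_nonneg J : (0 : ℝ) ≤ J)
  nlinarith [Real.sqrt_nonneg (J : ℝ)]

private theorem pc_pow_two (a : ℝ) (ha : 0 < a) (k : ℕ) : ∃ A : ℝ, 0 < A ∧ ∀ J : ℕ,
    (1 + (J : ℝ)) ^ k ≤ A * (2 : ℝ) ^ (a * J) := by
  obtain ⟨A, hA, h⟩ := pc_pow (Real.log 2 * a) (by positivity) k
  refine ⟨A, hA, fun J => ?_⟩
  have h1 := h J (Nat.cast_nonneg _)
  rwa [Real.rpow_def_of_pos two_pos, ← mul_assoc]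

private theorem pc_V : ∃ C : ℝ, 1 ≤ C ∧ ∀ j : ℕ, (V (zz j))⁻¹ ≤ C * (1 + j) := by
  obtain ⟨c, hc, hV⟩ := V_lower
  refine ⟨max 1 (1 / c), le_max_left _ _, fun j => ?_⟩
  have hm : (1 : ℝ) ≤ max 1 (1 / c) := le_max_left _ _
  rcases Nat.eq_zero_or_pos j with rfl | hj
  · have h0 : V (zz 0) = 1 := by
      unfold V zz Pz
      simp
      rw [Finset.filter_eq_empty_iff.2]
      · simp
      · intro p hp h
        rw [Finset.mem_singleton] at hp
        exact Nat.not_prime_one (hp ▸ h)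
    rw [h0]
    simp only [inv_one, Nat.cast_zero, add_zero, mul_one]
    exact hm
  · have hs : 1 ≤ Nat.sqrt j := Nat.le_sqrt.2 (by omega)
    have hz : 2 ≤ zz j := by
      unfold zz
      calc 2 = 2 ^ 1 := rfl
        _ ≤ 2 ^ Nat.sqrt j := Nat.pow_le_pow_right two_pos hs
    have h1 := hV (zz j) hz
    have hlog : Real.log (zz j : ℕ) ≤ 1 + j := by
      unfold zz
      push_cast
      rw [Real.log_pow]
      have h2 : Real.log 2 ≤ 1 := by
        have := Real.log_two_lt_d9; linarith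
      have h3 : (Nat.sqrt j : ℝ) ≤ j := by exact_mod_cast Nat.sqrt_le_self j
      have h4 : (0 : ℝ) ≤ Nat.sqrt j := Nat.cast_nonneg _
      nlinarith [Real.log_pos (show (1 : ℝ) < 2 by norm_num)]
    have hlog0 : 0 < Real.log (zz j : ℕ) := Real.log_pos (by exact_mod_cast hz)
    have h5 : (V (zz j))⁻¹ ≤ (c / Real.log (zz j : ℕ))⁻¹ :=
      inv_anti₀ (by positivity) h1
    refine h5.trans ?_
    rw [inv_div]
    calc Real.log (zz j : ℕ) / c = 1 / c * Real.log (zz j : ℕ) := by ring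
      _ ≤ max 1 (1 / c) * (1 + j) := by
        gcongr
        exact le_max_right _ _

private theorem pc_log_two_inv : 1 ≤ 1 / Real.log 2 := by
  have h1 := Real.log_two_lt_d9
  have h2 : 0 < Real.log 2 := Real.log_pos (by norm_num)
  rw [le_div_iff₀ h2]; linarith

private theorem pc_val {L : Finset (ℕ × ℕ)} (hL : Prim L) {l : ℕ × ℕ} (hl : l ∈ L) {n : ℕ} :
    n ≤ l.1 * n + l.2 := by
  have h := (hL l hl).1
  calc n = 1 * n := (one_mul n).symm
    _ ≤ l.1 * n := Nat.mul_le_mul_right n h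
    _ ≤ _ := Nat.le_add_right _ _

private theorem pc_gg_nonneg {L : Finset (ℕ × ℕ)} (n : ℕ) : 0 ≤ gg L n := by
  unfold gg
  exact Finset.prod_nonneg fun l _ => div_nonneg zero_le_one (Real.log_natCast_nonneg _)

private theorem pc_gg_le {L : Finset (ℕ × ℕ)} (hL : Prim L) {k n : ℕ} (hk : L.card ≤ k)
    (hn : 2 ≤ n) : gg L n ≤ (1 / Real.log 2) ^ k := by
  unfold gg
  have h2 : 0 < Real.log 2 := Real.log_pos (by norm_num)
  calc ∏ l ∈ L, 1 / Real.log ((l.1 * n + l.2 : ℕ) : ℝ) ≤ ∏ l ∈ L, (1 / Real.log 2) := by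
        refine Finset.prod_le_prod (fun l _ => div_nonneg zero_le_one (Real.log_natCast_nonneg _))
          fun l hl => ?_
        refine one_div_le_one_div_of_le h2 (Real.log_le_log two_pos ?_)
        exact_mod_cast hn.trans (pc_val hL hl)
    _ = (1 / Real.log 2) ^ L.card := by rw [Finset.prod_const]
    _ ≤ _ := pow_le_pow_right₀ pc_log_two_inv hk

private theorem pc_gg_anti {L : Finset (ℕ × ℕ)} (hL : Prim L) {n : ℕ} (hn : 2 ≤ n) :
    gg L (n + 1) ≤ gg L n := by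
  unfold gg
  refine Finset.prod_le_prod (fun l _ => div_nonneg zero_le_one (Real.log_natCast_nonneg _))
    fun l hl => ?_
  have h1 : 2 ≤ l.1 * n + l.2 := hn.trans (pc_val hL hl)
  have h2 : l.1 * n + l.2 ≤ l.1 * (n + 1) + l.2 := by
    gcongr; omega
  refine one_div_le_one_div_of_le (Real.log_pos (by exact_mod_cast (by omega : 1 < l.1 * n + l.2)))
    (Real.log_le_log (by exact_mod_cast (by omega : 0 < l.1 * n + l.2)) (by exact_mod_cast h2))

/-- [SH-G1b] PROOF: `jj l = Nat.log 2 (l.1 v + l.2)` (`≤ 2 J`, since the values are `< 2^(2J+1)`). Let `η = ε/4` (`ε ≤ 1`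
w.l.o.g.). If `v < 2^(η J + 1)` or `2^(η J) < N₁` (`J` bounded) everything is trivial:
`|rr| ≤ 1` (`hρ`), `|S gg| ≤ C (1+J)^k / (log 2)^k`, `v ≤ 2^(ηJ+1)`. Otherwise `jj l ≥ log₂ v ≥ η J` and all
values in the piece are `≥ 2^(jj l) ≥ N₁` (if the piece is not empty). By `rr_eq`
`∑ (rr - S gg) = W ∑ ([good] - δ) gg + (W δ - S) ∑ gg`, `W = ∏ V⁻¹ ≤ C (1+J)^k` (`V_lower`),
`δ = ∏ (1 - nuL (act) / p)`. First sum: `abel_bound` (`gg` antitone, `0 ≤ gg ≤ (1/log 2)^k` for `n ≥ 2`), partial sums by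
`sieve_gen` with `Ω p = bad (act L jj p) p` at level `2 J`; second: `dens_cmp`. -/
theorem piece (N₁ k : ℕ) (hρ : ∀ n, 0 ≤ rho N₁ n ∧ rho N₁ n ≤ 1 / 4) (ε : ℝ) (hε : 0 < ε) :
    ∃ c K : ℝ, 0 < c ∧ 0 < K ∧ ∀ (J : ℕ) (L : Finset (ℕ × ℕ)), L.card ≤ k → Prim L → Bd J L →
      ∀ S, IsD L S → ∀ u v : ℕ, 1 ≤ u → u ≤ v → v < 2 ^ J →
      (∀ l ∈ L, ∀ n ∈ Ioc u v, Nat.log 2 (l.1 * n + l.2) = Nat.log 2 (l.1 * v + l.2)) →
      |∑ n ∈ Ioc u v, (rr N₁ L n - S * gg L n)| ≤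
        K * (((v : ℝ) - u) * Real.exp (-(c * √J)) + (2 : ℝ) ^ (ε * J)) := by
  set η : ℝ := ε / 4 with hη
  have hη0 : 0 < η := by positivity
  obtain ⟨c₁, K₁, hc₁, hK₁, hs⟩ := sieve_gen k η hη0
  obtain ⟨c₂, K₂, hc₂, hK₂, hd⟩ := dens_cmp k η hη0
  obtain ⟨C₃, hC₃, hq⟩ := SSL_quant k
  obtain ⟨A, hA, hAJ⟩ := pc_pow_sqrt (c₁ / 2) (by positivity) k
  obtain ⟨B, hB, hBJ⟩ := pc_pow_two η hη0 k
  obtain ⟨C₂, hC₂, hV⟩ := pc_V
  set Lg : ℝ := (1 / Real.log 2) ^ k with hLg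
  have hLg1 : 1 ≤ Lg := one_le_pow₀ pc_log_two_inv
  set N₂ : ℝ := ((N₁ : ℝ) + 1) ^ (1 / η) with hN₂
  have hN₂0 : 0 < N₂ := by positivity
  set T : ℝ := (2 + N₂) * ((1 + C₃ * Lg) * B) with hT
  have hT0 : 0 < T := by positivity
  set M : ℝ := (2 * C₂) ^ k * (Lg * K₁) * (A + B) + K₂ * Lg with hM
  have hM0 : 0 < M := by positivity
  refine ⟨min (c₁ / 2) c₂, T + M, by positivity, by positivity, ?_⟩
  intro J L hk hP hBd S hS u v hu huv hv hlog
  have hJ0 : (0 : ℝ) ≤ J := Nat.cast_nonneg _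
  have huv' : (0 : ℝ) ≤ (v : ℝ) - u := sub_nonneg.2 (by exact_mod_cast huv)
  obtain ⟨hS0, hSle, -⟩ := hq J L hk hP hBd S hS
  have hJk : (1 : ℝ) ≤ (1 + (J : ℝ)) ^ k := one_le_pow₀ (by linarith)
  have hSgg : ∀ n ∈ Ioc u v, |rr N₁ L n - S * gg L n| ≤ (1 + C₃ * Lg) * (1 + (J : ℝ)) ^ k := by
    intro n hn
    rw [mem_Ioc] at hn
    have h1 : 0 ≤ rr N₁ L n := Finset.prod_nonneg fun l _ => (hρ _).1
    have h2 : rr N₁ L n ≤ 1 := Finset.prod_le_one (fun l _ => (hρ _).1) fun l _ => by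
      have := (hρ (l.1 * n + l.2)).2; linarith
    have h3 := pc_gg_nonneg (L := L) n
    have h4 := pc_gg_le hP hk (by omega : 2 ≤ n)
    have h5 : S * gg L n ≤ C₃ * (1 + (J : ℝ)) ^ k * Lg :=
      mul_le_mul hSle h4 h3 (by positivity)
    have h6 : 0 ≤ S * gg L n := mul_nonneg hS0 h3
    rw [abs_le]
    constructor
    · nlinarith
    · have : 0 ≤ C₃ * Lg * (1 + (J : ℝ)) ^ k := by positivity
      nlinarith
  have htriv : |∑ n ∈ Ioc u v, (rr N₁ L n - S * gg L n)| ≤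
      ((v : ℝ) - u) * ((1 + C₃ * Lg) * (B * (2 : ℝ) ^ (η * J))) := by
    refine (Finset.abs_sum_le_sum_abs _ _).trans ((Finset.sum_le_sum hSgg).trans ?_)
    rw [Finset.sum_const, Nat.card_Ioc, nsmul_eq_mul, Nat.cast_sub huv]
    refine mul_le_mul_of_nonneg_left ?_ huv'
    exact mul_le_mul_of_nonneg_left (hBJ J) (by positivity)
  have h2pos : ∀ x : ℝ, 0 < (2 : ℝ) ^ x := fun x => Real.rpow_pos_of_pos two_pos x
  have hfin1 : 0 ≤ ((v : ℝ) - u) * Real.exp (-(min (c₁ / 2) c₂ * √J)) := by positivity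
  have hηε : (2 : ℝ) ^ (η * J) * (2 : ℝ) ^ (η * J) ≤ (2 : ℝ) ^ (ε * J) := by
    rw [← Real.rpow_add two_pos]
    refine Real.rpow_le_rpow_of_exponent_le one_le_two ?_
    rw [hη]; nlinarith
  -- the trivial case
  have hcaseT : (v : ℝ) - u ≤ (2 + N₂) * (2 : ℝ) ^ (η * J) →
      |∑ n ∈ Ioc u v, (rr N₁ L n - S * gg L n)| ≤
        (T + M) * (((v : ℝ) - u) * Real.exp (-(min (c₁ / 2) c₂ * √J)) + (2 : ℝ) ^ (ε * J)) := by
    intro h
    refine htriv.trans ?_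
    calc ((v : ℝ) - u) * ((1 + C₃ * Lg) * (B * (2 : ℝ) ^ (η * J)))
        ≤ ((2 + N₂) * (2 : ℝ) ^ (η * J)) * ((1 + C₃ * Lg) * (B * (2 : ℝ) ^ (η * J))) := by
          gcongr
      _ = T * ((2 : ℝ) ^ (η * J) * (2 : ℝ) ^ (η * J)) := by rw [hT]; ring
      _ ≤ T * (2 : ℝ) ^ (ε * J) := by gcongr
      _ ≤ (T + M) * (((v : ℝ) - u) * Real.exp (-(min (c₁ / 2) c₂ * √J)) +
          (2 : ℝ) ^ (ε * J)) := by
          refine mul_le_mul (by linarith) (by linarith) (h2pos _).le (by positivity)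
  by_cases hcA : (v : ℝ) < 2 * (2 : ℝ) ^ (η * J)
  · refine hcaseT ?_
    have := (Nat.cast_nonneg u : (0 : ℝ) ≤ u)
    have h3 : 0 ≤ N₂ * (2 : ℝ) ^ (η * J) := by positivity
    nlinarith
  by_cases hcB : (2 : ℝ) ^ (η * J) < (N₁ : ℝ) + 1
  · refine hcaseT ?_
    have h1 : (2 : ℝ) ^ (J : ℝ) ≤ N₂ := by
      have h2 : ((2 : ℝ) ^ (η * J)) ^ (1 / η) ≤ ((N₁ : ℝ) + 1) ^ (1 / η) :=
        Real.rpow_le_rpow (h2pos _).le hcB.le (by positivity)
      rwa [← Real.rpow_mul two_pos.le, show η * J * (1 / η) = J by field_simp] at h2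
    have h3 : (v : ℝ) ≤ (2 : ℝ) ^ (J : ℝ) := by
      rw [Real.rpow_natCast]
      exact_mod_cast hv.le
    have h4 : (1 : ℝ) ≤ (2 : ℝ) ^ (η * J) := Real.one_le_rpow one_le_two (by positivity)
    have := (Nat.cast_nonneg u : (0 : ℝ) ≤ u)
    nlinarith
  push Not at hcA hcB
  rcases huv.eq_or_lt with rfl | hlt
  · rw [Finset.Ioc_self, Finset.sum_empty, abs_zero]
    positivity
  -- the main case
  set jj : ℕ × ℕ → ℕ := fun l => Nat.log 2 (l.1 * v + l.2) with hjj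
  have hv2 : 2 ≤ v := by omega
  have hjle : ∀ l ∈ L, jj l ≤ 2 * J := by
    intro l hl
    obtain ⟨-, h1, h2⟩ := hBd l hl
    have h3 : l.1 * v + l.2 < 2 ^ (2 * J) := by
      obtain ⟨a, ha⟩ : ∃ a, 2 ^ J = a + 1 := ⟨2 ^ J - 1, by have := Nat.one_le_two_pow (n := J); omega⟩
      have h4 : l.1 * v ≤ a * a := Nat.mul_le_mul (by omega) (by omega)
      have h5 : 2 ^ (2 * J) = (a + 1) * (a + 1) := by rw [two_mul, pow_add, ha]
      rw [h5]
      nlinarith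
    exact (Nat.log_lt_of_lt_pow (by have := pc_val hP hl (n := v); omega) h3).le
  have hjge : ∀ l ∈ L, η * J ≤ jj l := by
    intro l hl
    have h1 : v ≤ l.1 * v + l.2 := pc_val hP hl
    have h2 : Nat.log 2 v ≤ jj l := Nat.log_mono_right h1
    have h3 : (v : ℝ) < 2 ^ (Nat.log 2 v + 1) := by
      exact_mod_cast Nat.lt_pow_succ_log_self one_lt_two v
    have h4 : (2 : ℝ) ^ (η * J + 1) < 2 ^ ((Nat.log 2 v + 1 : ℕ) : ℝ) := by
      rw [Real.rpow_natCast, Real.rpow_add two_pos, Real.rpow_one, mul_comm]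
      linarith
    have h5 := (Real.rpow_lt_rpow_left_iff one_lt_two).1 h4
    push_cast at h5
    have h6 : (Nat.log 2 v : ℝ) ≤ jj l := by exact_mod_cast h2
    linarith
  have hval : ∀ l ∈ L, ∀ n ∈ Ioc u v, Nat.log 2 (l.1 * n + l.2) = jj l ∧ jj l ≤ 2 * J ∧
      N₁ ≤ l.1 * n + l.2 := by
    intro l hl n hn
    refine ⟨hlog l hl n hn, hjle l hl, ?_⟩
    have hn' := mem_Ioc.1 hn
    have h1 : 2 ^ Nat.log 2 (l.1 * n + l.2) ≤ l.1 * n + l.2 :=
      Nat.pow_log_le_self 2 (by have := pc_val hP hl (n := n); omega)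
    rw [hlog l hl n hn] at h1
    have h2 : (2 : ℝ) ^ (η * J) ≤ 2 ^ (jj l : ℝ) :=
      Real.rpow_le_rpow_of_exponent_le one_le_two (hjge l hl)
    rw [Real.rpow_natCast] at h2
    have h3 : (N₁ : ℝ) ≤ ((2 ^ jj l : ℕ) : ℝ) := by push_cast; linarith
    exact (by exact_mod_cast h3 : N₁ ≤ 2 ^ jj l).trans h1
  set W : ℝ := ∏ l ∈ L, (V (zz (jj l)))⁻¹ with hW
  set δ : ℝ := ∏ p ∈ Pz (zz (2 * J)), (1 - (nuL (act L jj p) p : ℝ) / p) with hδ
  set gd : ℕ → ℝ := fun n =>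
    if ∀ p ∈ Pz (zz (2 * J)), n % p ∉ bad (act L jj p) p then 1 else 0 with hgd
  have hW0 : 0 ≤ W := Finset.prod_nonneg fun l _ => inv_nonneg.2 (V_pos _).le
  have hWle : W ≤ (2 * C₂) ^ k * (1 + (J : ℝ)) ^ k := by
    rw [← mul_pow]
    have hb : 1 ≤ 2 * C₂ * (1 + (J : ℝ)) := by nlinarith
    calc W ≤ ∏ l ∈ L, (2 * C₂ * (1 + (J : ℝ))) := by
          refine Finset.prod_le_prod (fun l _ => inv_nonneg.2 (V_pos _).le) fun l hl => ?_
          refine (hV (jj l)).trans ?_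
          have h1 : (jj l : ℝ) ≤ 2 * J := by exact_mod_cast hjle l hl
          nlinarith
      _ = (2 * C₂ * (1 + (J : ℝ))) ^ L.card := Finset.prod_const _
      _ ≤ _ := pow_le_pow_right₀ hb hk
  have hrr : ∀ n ∈ Ioc u v, rr N₁ L n = gd n * W * gg L n := fun n hn =>
    rr_eq N₁ (2 * J) L jj n fun l hl => hval l hl n hn
  have hsplit : ∑ n ∈ Ioc u v, (rr N₁ L n - S * gg L n) =
      W * ∑ n ∈ Ioc u v, (gd n - δ) * gg L n + (δ * W - S) * ∑ n ∈ Ioc u v, gg L n := by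
    rw [Finset.mul_sum, Finset.mul_sum, ← Finset.sum_add_distrib]
    refine Finset.sum_congr rfl fun n hn => ?_
    rw [hrr n hn]; ring
  -- the first sum
  have hΩ : ∀ p, p.Prime → bad (act L jj p) p ⊆ range p ∧ (bad (act L jj p) p).card ≤ k := by
    intro p hp
    refine ⟨Finset.filter_subset _ _, ?_⟩
    have h1 : Prim (act L jj p) := fun l hl => hP l (Finset.mem_filter.1 hl).1
    exact (nuL_le _ h1 p hp).trans ((Finset.card_filter_le _ _).trans hk)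
  set E : ℝ := K₁ * (((v : ℝ) - u) * Real.exp (-(c₁ * √J)) + (2 : ℝ) ^ (2 * (η * J))) with hE
  have hpart : ∀ t, u ≤ t → t ≤ v → |∑ n ∈ Ioc u t, (gd n - δ)| ≤ E := by
    intro t hut htv
    have h1 := hs (2 * J) (fun p => bad (act L jj p) p) hΩ u t hut
    have h2 : ∑ n ∈ Ioc u t, (gd n - δ) =
        (((Ioc u t).filter (fun n => ∀ p ∈ Pz (zz (2 * J)), n % p ∉ bad (act L jj p) p)).card : ℝ) -
          ((t : ℝ) - u) * δ := by
      rw [Finset.sum_sub_distrib, Finset.sum_const, Nat.card_Ioc, nsmul_eq_mul, Nat.cast_sub hut,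
        hgd, Finset.sum_boole]
    rw [h2]
    refine h1.trans ?_
    rw [hE]
    refine mul_le_mul_of_nonneg_left ?_ hK₁.le
    have h3 : (0 : ℝ) ≤ (t : ℝ) - u := sub_nonneg.2 (by exact_mod_cast hut)
    have h4 : (t : ℝ) - u ≤ (v : ℝ) - u := by
      have : (t : ℝ) ≤ v := by exact_mod_cast htv
      linarith
    have h5 : Real.exp (-(c₁ * √((2 * J : ℕ) : ℝ))) ≤ Real.exp (-(c₁ * √J)) := by
      rw [Real.exp_le_exp, neg_le_neg_iff]
      refine mul_le_mul_of_nonneg_left (Real.sqrt_le_sqrt ?_) hc₁.le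
      push_cast; linarith
    have h6 : (2 : ℝ) ^ (η * ((2 * J : ℕ) : ℝ)) = (2 : ℝ) ^ (2 * (η * J)) := by
      congr 1; push_cast; ring
    rw [h6]
    have h7 : ((t : ℝ) - u) * Real.exp (-(c₁ * √((2 * J : ℕ) : ℝ))) ≤
        ((v : ℝ) - u) * Real.exp (-(c₁ * √J)) :=
      mul_le_mul h4 h5 (Real.exp_pos _).le huv'
    linarith
  have hfirst : |∑ n ∈ Ioc u v, (gd n - δ) * gg L n| ≤ E * Lg := by
    refine abel_bound (fun n => gd n - δ) (gg L) u v E Lg (by positivity) ?_ ?_ ?_ hpart huv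
    · intro n hn _
      exact pc_gg_anti hP (by omega)
    · intro n _ _
      exact pc_gg_nonneg n
    · intro n hn _
      exact pc_gg_le hP hk (by omega)
  have hsecond : |∑ n ∈ Ioc u v, gg L n| ≤ ((v : ℝ) - u) * Lg := by
    refine (Finset.abs_sum_le_sum_abs _ _).trans ?_
    have h1 : ∀ n ∈ Ioc u v, |gg L n| ≤ Lg := by
      intro n hn
      rw [mem_Ioc] at hn
      rw [abs_of_nonneg (pc_gg_nonneg n)]
      exact pc_gg_le hP hk (by omega)
    refine (Finset.sum_le_sum h1).trans (le_of_eq ?_)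
    rw [Finset.sum_const, Nat.card_Ioc, nsmul_eq_mul, Nat.cast_sub huv]
  have hdens : |δ * W - S| ≤ K₂ * Real.exp (-(c₂ * √J)) :=
    hd J L jj hk hP hBd (fun l hl => ⟨hjge l hl, hjle l hl⟩) S hS
  -- put together
  set ex : ℝ := Real.exp (-(min (c₁ / 2) c₂ * √J)) with hex
  have hex1 : Real.exp (-(c₂ * √J)) ≤ ex := by
    rw [hex, Real.exp_le_exp, neg_le_neg_iff]
    exact mul_le_mul_of_nonneg_right (min_le_right _ _) (Real.sqrt_nonneg _)
  have hex2 : (1 + (J : ℝ)) ^ k * Real.exp (-(c₁ * √J)) ≤ A * ex := by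
    have h1 : Real.exp (-(c₁ * √J)) = Real.exp (-(c₁ / 2 * √J)) * Real.exp (-(c₁ / 2 * √J)) := by
      rw [← Real.exp_add]; congr 1; ring
    have h2 : Real.exp (-(c₁ / 2 * √J)) ≤ ex := by
      rw [hex, Real.exp_le_exp, neg_le_neg_iff]
      exact mul_le_mul_of_nonneg_right (min_le_left _ _) (Real.sqrt_nonneg _)
    have h3 : (1 + (J : ℝ)) ^ k * Real.exp (-(c₁ / 2 * √J)) ≤ A := by
      calc (1 + (J : ℝ)) ^ k * Real.exp (-(c₁ / 2 * √J))
          ≤ (A * Real.exp (c₁ / 2 * √J)) * Real.exp (-(c₁ / 2 * √J)) := by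
            gcongr
            exact hAJ J
        _ = A := by
            rw [mul_assoc, ← Real.exp_add]
            simp
    rw [h1, ← mul_assoc]
    exact mul_le_mul h3 h2 (Real.exp_pos _).le hA.le
  have hex3 : (1 + (J : ℝ)) ^ k * (2 : ℝ) ^ (2 * (η * J)) ≤ B * (2 : ℝ) ^ (ε * J) := by
    calc (1 + (J : ℝ)) ^ k * (2 : ℝ) ^ (2 * (η * J))
        ≤ (B * (2 : ℝ) ^ (η * J)) * (2 : ℝ) ^ (2 * (η * J)) := by
          gcongr
          exact hBJ J
      _ = B * (2 : ℝ) ^ (η * J + 2 * (η * J)) := by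
          rw [mul_assoc, ← Real.rpow_add two_pos]
      _ ≤ B * (2 : ℝ) ^ (ε * J) := by
          refine mul_le_mul_of_nonneg_left ?_ hB.le
          refine Real.rpow_le_rpow_of_exponent_le one_le_two ?_
          rw [hη]; nlinarith
  have hE0 : 0 ≤ E := by positivity
  rw [hsplit]
  calc |W * ∑ n ∈ Ioc u v, (gd n - δ) * gg L n + (δ * W - S) * ∑ n ∈ Ioc u v, gg L n|
      ≤ |W * ∑ n ∈ Ioc u v, (gd n - δ) * gg L n| + |(δ * W - S) * ∑ n ∈ Ioc u v, gg L n| :=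
        abs_add_le _ _
    _ ≤ ((2 * C₂) ^ k * (1 + (J : ℝ)) ^ k) * (E * Lg) +
        (K₂ * Real.exp (-(c₂ * √J))) * (((v : ℝ) - u) * Lg) := by
        rw [abs_mul, abs_mul, abs_of_nonneg hW0]
        gcongr
    _ = (2 * C₂) ^ k * (Lg * K₁) * (((v : ℝ) - u) * ((1 + (J : ℝ)) ^ k * Real.exp (-(c₁ * √J))) +
          (1 + (J : ℝ)) ^ k * (2 : ℝ) ^ (2 * (η * J))) +
        (K₂ * Lg) * (((v : ℝ) - u) * Real.exp (-(c₂ * √J))) := by
        rw [hE]; ring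
    _ ≤ (2 * C₂) ^ k * (Lg * K₁) * (((v : ℝ) - u) * (A * ex) + B * (2 : ℝ) ^ (ε * J)) +
        (K₂ * Lg) * (((v : ℝ) - u) * ex) := by
        gcongr
    _ ≤ (2 * C₂) ^ k * (Lg * K₁) * ((A + B) * (((v : ℝ) - u) * ex + (2 : ℝ) ^ (ε * J))) +
        (K₂ * Lg) * (((v : ℝ) - u) * ex + (2 : ℝ) ^ (ε * J)) := by
        have h1 : 0 ≤ ((v : ℝ) - u) * ex := by positivity
        have h2 := (h2pos (ε * J)).le
        gcongr
        · nlinarith [mul_nonneg hA.le h2, mul_nonneg hB.le h1]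
        · linarith
    _ = M * (((v : ℝ) - u) * ex + (2 : ℝ) ^ (ε * J)) := by rw [hM]; ring
    _ ≤ (T + M) * (((v : ℝ) - u) * ex + (2 : ℝ) ^ (ε * J)) := by
        refine mul_le_mul_of_nonneg_right (by linarith) ?_
        have h1 : 0 ≤ ((v : ℝ) - u) * ex := by positivity
        have h2 := (h2pos (ε * J)).le
        linarith

end Pool.MP_92ef0c_nt.SH
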