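import Pool.Agent.Lib_MP_92ef0c_sh.Defs

/-! # [SH-A1] Shearer's measure: inclusion probabilities, support -/

set_option autoImplicit false

namespace Pool.MP_92ef0c_nt.SH

open Finset

private theorem alt_sum {α : Type} [DecidableEq α] (U A T : Finset α) (hTU : T ⊆ U) :
    ∑ S ∈ U.powerset, (if A ⊆ S ∧ S ⊆ T then (-1 : ℝ) ^ (T \ S).card else 0) =
      if T = A then 1 else 0 := by
  rw [← sum_filter]
  by_cases hAT : A ⊆ T
  · have h1 : ∑ S ∈ U.powerset.filter (fun S => A ⊆ S ∧ S ⊆ T), (-1 : ℝ) ^ (T \ S).card =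
        ∑ R ∈ (T \ A).powerset, (-1 : ℝ) ^ R.card := by
      refine sum_nbij' (fun S => T \ S) (fun R => T \ R) ?_ ?_ ?_ ?_ ?_
      · intro S hS
        rw [mem_filter] at hS
        exact mem_powerset.2 (sdiff_subset_sdiff (Subset.refl T) hS.2.1)
      · intro R hR
        rw [mem_powerset] at hR
        refine mem_filter.2 ⟨mem_powerset.2 (sdiff_subset.trans hTU), ?_, sdiff_subset⟩
        intro x hx
        refine mem_sdiff.2 ⟨hAT hx, fun hxR => ?_⟩
        exact (mem_sdiff.1 (hR hxR)).2 hx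
      · intro S hS
        rw [mem_filter] at hS
        exact Finset.sdiff_sdiff_eq_self hS.2.2
      · intro R hR
        rw [mem_powerset] at hR
        exact Finset.sdiff_sdiff_eq_self (hR.trans sdiff_subset)
      · intro S _
        rfl
    rw [h1]
    have h2 : (∑ R ∈ (T \ A).powerset, (-1 : ℝ) ^ R.card) =
        ((∑ R ∈ (T \ A).powerset, (-1 : ℤ) ^ R.card : ℤ) : ℝ) := by
      push_cast
      rfl
    rw [h2, sum_powerset_neg_one_pow_card]
    by_cases hTA : T = A
    · subst hTA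
      simp
    · rw [if_neg, if_neg hTA]
      · simp
      · intro h
        exact hTA (Subset.antisymm (sdiff_eq_empty_iff_subset.1 h) hAT)
  · rw [if_neg (fun h : T = A => hAT (h ▸ Subset.refl _))]
    refine sum_eq_zero ?_
    intro S hS
    rw [mem_filter] at hS
    exact absurd (hS.2.1.trans hS.2.2) hAT

/-- [SH-A1a] PROOF: exchange the sums: `∑_{S ⊇ A} ∑_{T ⊇ S} (-1)^|T \ S| wt T =
∑_{T ⊇ A} wt T ∑_{A ⊆ S ⊆ T} (-1)^|T \ S|`; the inner sum is the alternating sum over the subsets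
`T \ S` of `T \ A` (`Finset.sum_powerset_neg_one_pow_card`), `1` if `T = A`, else `0`. -/
theorem EX_sub {α : Type} [DecidableEq α] (U : Finset α) (adj : α → α → Prop) (ρ : α → ℝ)
    (A : Finset α) (hA : A ⊆ U) :
    EX U.powerset (mu U adj ρ) (fun S => if A ⊆ S then 1 else 0) = wt adj ρ A := by
  unfold EX mu
  have h1 : ∀ S ∈ U.powerset,
      (∑ T ∈ U.powerset.filter (fun T => S ⊆ T), (-1 : ℝ) ^ (T \ S).card * wt adj ρ T) *
        (if A ⊆ S then (1 : ℝ) else 0) =
      ∑ T ∈ U.powerset, wt adj ρ T *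
        (if A ⊆ S ∧ S ⊆ T then (-1 : ℝ) ^ (T \ S).card else 0) := by
    intro S _
    rw [sum_filter, sum_mul]
    refine sum_congr rfl fun T _ => ?_
    by_cases h : A ⊆ S <;> by_cases h' : S ⊆ T <;> simp [h, h', mul_comm]
  rw [sum_congr rfl h1, sum_comm]
  have h2 : ∀ T ∈ U.powerset, ∑ S ∈ U.powerset, wt adj ρ T *
      (if A ⊆ S ∧ S ⊆ T then (-1 : ℝ) ^ (T \ S).card else 0) =
      if T = A then wt adj ρ T else 0 := by
    intro T hT
    rw [← mul_sum, alt_sum U A T (mem_powerset.1 hT)]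
    by_cases h : T = A <;> simp [h]
  rw [sum_congr rfl h2, sum_ite_eq' U.powerset A (fun T => wt adj ρ T),
    if_pos (mem_powerset.2 hA)]

/-- [SH-A1b] PROOF: `EX_sub` with `A = ∅`, `wt ∅ = 1`. -/
theorem mu_total {α : Type} [DecidableEq α] (U : Finset α) (adj : α → α → Prop) (ρ : α → ℝ) :
    ∑ S ∈ U.powerset, mu U adj ρ S = 1 := by
  have h := EX_sub U adj ρ ∅ (empty_subset U)
  have hw : wt adj ρ ∅ = 1 := by
    unfold wt
    rw [if_pos]
    · exact prod_empty
    · intro s hs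
      exact absurd hs (notMem_empty s)
  rw [hw] at h
  unfold EX at h
  rw [← h]
  refine sum_congr rfl fun S _ => ?_
  change mu U adj ρ S = mu U adj ρ S * (if ∅ ⊆ S then 1 else 0)
  rw [if_pos (empty_subset S), mul_one]

/-- [SH-A1c] PROOF: if `S` is not independent or `ρ s = 0` for some `s ∈ S` then `wt T = 0` for all
`T ⊇ S`. -/
theorem mu_supp {α : Type} [DecidableEq α] (U : Finset α) (adj : α → α → Prop) (ρ : α → ℝ)
    (S : Finset α) (h : mu U adj ρ S ≠ 0) : Indep adj S ∧ ∀ s ∈ S, ρ s ≠ 0 := by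
  have key : ∃ T, S ⊆ T ∧ wt adj ρ T ≠ 0 := by
    by_contra hcon
    push Not at hcon
    refine h ?_
    unfold mu
    refine sum_eq_zero fun T hT => ?_
    rw [mem_filter] at hT
    rw [hcon T hT.2, mul_zero]
  obtain ⟨T, hST, hT⟩ := key
  unfold wt at hT
  by_cases hI : Indep adj T
  · rw [if_pos hI] at hT
    refine ⟨fun s hs t ht => hI s (hST hs) t (hST ht), fun s hs => ?_⟩
    exact prod_ne_zero_iff.1 hT s (hST hs)
  · rw [if_neg hI] at hT
    exact absurd rfl hT

end Pool.MP_92ef0c_nt.SH
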