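import Pool.Agent.Lib_MP_92ef0c_sh.Defs

/-! # [SH-A2] Shearer's measure is nonnegative -/

set_option autoImplicit false

namespace Pool.MP_92ef0c_nt.SH

open Finset

/-- partition function -/
private noncomputable def Zf {α : Type} (adj : α → α → Prop) (ρ : α → ℝ) (W : Finset α) : ℝ :=
  ∑ T ∈ W.powerset, (-1 : ℝ) ^ T.card * wt adj ρ T

private theorem a2_indep_union {α : Type} [DecidableEq α] (adj : α → α → Prop)
    (hsymm : ∀ s t, adj s t → adj t s) (S T : Finset α) :
    Indep adj (S ∪ T) ↔ Indep adj S ∧ Indep adj T ∧ ∀ u ∈ T, ∀ s ∈ S, ¬ adj s u := by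
  constructor
  · intro h
    refine ⟨fun s hs t ht => h s (mem_union_left _ hs) t (mem_union_left _ ht),
      fun s hs t ht => h s (mem_union_right _ hs) t (mem_union_right _ ht),
      fun u hu s hs => h s (mem_union_left _ hs) u (mem_union_right _ hu)⟩
  · rintro ⟨h1, h2, h3⟩ s hs t ht hst
    rcases mem_union.1 hs with hs | hs <;> rcases mem_union.1 ht with ht | ht
    · exact h1 s hs t ht hst
    · exact h3 t ht s hs hst
    · exact h3 s hs t ht (hsymm _ _ hst)
    · exact h2 s hs t ht hst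

private theorem a2_wt_union {α : Type} [DecidableEq α] (adj : α → α → Prop) (ρ : α → ℝ)
    (hsymm : ∀ s t, adj s t → adj t s) (S T : Finset α) (hd : Disjoint S T)
    (h : ∀ u ∈ T, ∀ s ∈ S, ¬ adj s u) :
    wt adj ρ (S ∪ T) = wt adj ρ S * wt adj ρ T := by
  unfold wt
  by_cases h1 : Indep adj S
  · by_cases h2 : Indep adj T
    · rw [if_pos ((a2_indep_union adj hsymm S T).2 ⟨h1, h2, h⟩), if_pos h1, if_pos h2,
        prod_union hd]
    · rw [if_neg (fun h' => h2 ((a2_indep_union adj hsymm S T).1 h').2.1), if_neg h2, mul_zero]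
  · rw [if_neg (fun h' => h1 ((a2_indep_union adj hsymm S T).1 h').1), if_neg h1, zero_mul]

private theorem a2_wt_union0 {α : Type} [DecidableEq α] (adj : α → α → Prop) (ρ : α → ℝ)
    (hsymm : ∀ s t, adj s t → adj t s) (S T : Finset α)
    (h : ¬ ∀ u ∈ T, ∀ s ∈ S, ¬ adj s u) :
    wt adj ρ (S ∪ T) = 0 := by
  unfold wt
  rw [if_neg (fun h' => h ((a2_indep_union adj hsymm S T).1 h').2.2)]

/-- sum over the sets containing `S` -/
private theorem a2_key {α : Type} [DecidableEq α] (adj : α → α → Prop) (ρ : α → ℝ)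
    (hsymm : ∀ s t, adj s t → adj t s) (S W : Finset α) (hd : Disjoint S W) :
    ∑ T ∈ W.powerset, (-1 : ℝ) ^ T.card * wt adj ρ (S ∪ T) =
      wt adj ρ S * (open Classical in Zf adj ρ (W.filter (fun u => ∀ s ∈ S, ¬ adj s u))) := by
  classical
  unfold Zf
  have h1 : (W.filter (fun u => ∀ s ∈ S, ¬ adj s u)).powerset =
      W.powerset.filter (fun T => ∀ u ∈ T, ∀ s ∈ S, ¬ adj s u) := by
    ext T
    simp only [mem_powerset, mem_filter, subset_iff]
    constructor
    · intro h
      exact ⟨fun x hx => (h hx).1, fun u hu => (h hu).2⟩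
    · intro h x hx
      exact ⟨h.1 hx, h.2 x hx⟩
  rw [h1, sum_filter, mul_sum]
  apply sum_congr rfl
  intro T hT
  rw [mem_powerset] at hT
  split_ifs with h2
  · rw [a2_wt_union adj ρ hsymm S T (disjoint_of_subset_right hT hd) h2]
    ring
  · rw [a2_wt_union0 adj ρ hsymm S T h2]
    ring

private theorem a2_Z_insert {α : Type} [DecidableEq α] (adj : α → α → Prop) (ρ : α → ℝ)
    (hsymm : ∀ s t, adj s t → adj t s) (hirr : ∀ s, ¬ adj s s) (W : Finset α) (v : α)
    (hv : v ∉ W) :
    Zf adj ρ (insert v W) = Zf adj ρ W -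
      ρ v * (open Classical in Zf adj ρ (W.filter (fun u => ¬ adj v u))) := by
  classical
  have h0 : wt adj ρ {v} = ρ v := by
    unfold wt
    rw [if_pos, prod_singleton]
    intro s hs t ht
    rw [mem_singleton] at hs ht
    rw [hs, ht]
    exact hirr v
  have h1 := a2_key adj ρ hsymm {v} W (disjoint_singleton_left.2 hv)
  rw [h0] at h1
  have h2 : (W.filter (fun u => ∀ s ∈ ({v} : Finset α), ¬ adj s u)) =
      W.filter (fun u => ¬ adj v u) := by
    apply filter_congr
    intro u _
    simp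
  rw [h2] at h1
  rw [← h1]
  unfold Zf
  rw [sum_powerset_insert hv, sub_eq_add_neg, ← sum_neg_distrib]
  congr 1
  apply sum_congr rfl
  intro T hT
  rw [mem_powerset] at hT
  rw [card_insert_of_notMem (fun h => hv (hT h)), pow_succ, insert_eq]
  ring

private theorem a2_claim {α : Type} [DecidableEq α] (U : Finset α) (adj : α → α → Prop)
    (ρ : α → ℝ)
    (hsymm : ∀ s t, adj s t → adj t s) (hirr : ∀ s, ¬ adj s s)
    (hρ : ∀ s, 0 ≤ ρ s ∧ ρ s ≤ 1 / 4)
    (hN : ∀ v ∈ U, ∀ T ⊆ U, (∀ u ∈ T, adj v u) → ∑ u ∈ T, ρ u ≤ 1 / 4) (n : ℕ) :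
    ∀ W : Finset α, W ⊆ U → W.card = n →
      0 < Zf adj ρ W ∧ ∀ v ∈ U, v ∉ W → (1 - 2 * ρ v) * Zf adj ρ W ≤ Zf adj ρ (insert v W) := by
  classical
  induction n using Nat.strong_induction_on with
  | _ n ih =>
    intro W hW hn
    have hpos : 0 < Zf adj ρ W := by
      rcases W.eq_empty_or_nonempty with h | ⟨v, hv⟩
      · subst h
        simp [Zf, wt, Indep]
      · have h1 : (W.erase v).card < n := by
          rw [← hn]
          exact card_erase_lt_of_mem hv
        obtain ⟨h2, h3⟩ := ih _ h1 (W.erase v) ((erase_subset _ _).trans hW) rfl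
        have h4 := h3 v (hW hv) (notMem_erase v W)
        rw [insert_erase hv] at h4
        refine lt_of_lt_of_le (mul_pos ?_ h2) h4
        linarith [(hρ v).2]
    refine ⟨hpos, ?_⟩
    intro v hvU hvW
    set N := W.filter (fun u => adj v u) with hNdef
    set W0 := W.filter (fun u => ¬ adj v u) with hW0
    have hsub : ∀ M : Finset α, M ⊆ N →
        (1 - 2 * ∑ u ∈ M, ρ u) * Zf adj ρ W0 ≤ Zf adj ρ (W0 ∪ M) := by
      intro M
      induction M using Finset.induction_on with
      | empty => intro _; simp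
      | @insert u M huM ihM =>
        intro hM
        have hMN : M ⊆ N := (subset_insert u M).trans hM
        have huN : u ∈ N := hM (mem_insert_self u M)
        have huW : u ∈ W := (mem_filter.1 huN).1
        have h1 := ihM hMN
        have hu0 : u ∉ W0 ∪ M := by
          rw [mem_union, not_or]
          refine ⟨fun h => ?_, huM⟩
          exact (mem_filter.1 h).2 (mem_filter.1 huN).2
        have hWs : W0 ∪ M ⊆ W := union_subset (filter_subset _ _)
          (hMN.trans (filter_subset _ _))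
        have hcard : (W0 ∪ M).card < n := by
          rw [← hn]
          exact card_lt_card ⟨hWs, fun h => hu0 (h huW)⟩
        obtain ⟨h2, h3⟩ := ih _ hcard (W0 ∪ M) (hWs.trans hW) rfl
        have h4 := h3 u (hW huW) hu0
        have hW0c : W0.card < n := lt_of_le_of_lt (card_le_card subset_union_left) hcard
        obtain ⟨h5, _⟩ := ih _ hW0c W0 ((subset_union_left.trans hWs).trans hW) rfl
        rw [union_insert, sum_insert huM]
        have hu := hρ u
        have hsum : 0 ≤ ∑ u ∈ M, ρ u := sum_nonneg (fun i _ => (hρ i).1)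
        have h6 : (1 - 2 * ρ u) * ((1 - 2 * ∑ u ∈ M, ρ u) * Zf adj ρ W0) ≤
            (1 - 2 * ρ u) * Zf adj ρ (W0 ∪ M) :=
          mul_le_mul_of_nonneg_left h1 (by linarith [hu.2])
        have h7 : 0 ≤ ρ u * (∑ u ∈ M, ρ u) * Zf adj ρ W0 :=
          mul_nonneg (mul_nonneg hu.1 hsum) h5.le
        nlinarith
    have h1 := hsub N (Subset.refl _)
    have h2 : W0 ∪ N = W := by
      rw [hW0, hNdef, union_comm]
      exact filter_union_filter_not_eq _ _
    rw [h2] at h1
    have h3 : ∑ u ∈ N, ρ u ≤ 1 / 4 := hN v hvU N ((filter_subset _ _).trans hW)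
      (fun u hu => (mem_filter.1 hu).2)
    have h0 : 0 < Zf adj ρ W0 := by
      by_cases hc : W0.card < n
      · exact (ih _ hc W0 ((filter_subset _ _).trans hW) rfl).1
      · have : W0 = W := eq_of_subset_of_card_le (filter_subset _ _) (by omega)
        rw [this]
        exact hpos
    have h4 : 1 / 2 * Zf adj ρ W0 ≤ Zf adj ρ W := by
      refine le_trans ?_ h1
      apply mul_le_mul_of_nonneg_right _ h0.le
      linarith
    have h5 := a2_Z_insert adj ρ hsymm hirr W v hvW
    have h6 : Zf adj ρ (insert v W) = Zf adj ρ W - ρ v * Zf adj ρ W0 := by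
      rw [h5, hW0]
    rw [h6]
    nlinarith [(hρ v).1]

/-- [SH-A2] PROOF. For `W ⊆ U` put `Z W = ∑_{T ⊆ W} (-1)^|T| wt T`. For `v ∉ W`:
`Z (insert v W) = Z W - ρ v * Z (W.filter (¬ adj v ·))` (split by `v ∈ T`; `T = insert v T'` is independent
iff `T'` is and contains no neighbour of `v`, `adj v v` is false). CLAIM, by induction on `|W|`: `0 < Z W` and for all
`v ∈ U \ W`: `Z (insert v W) ≥ (1 - 2 ρ v) Z W`. Indeed with the induction hypothesis, removing the
neighbours `u` of `v` in `W` one after the other, `Z W ≥ ∏_u (1 - 2 ρ u) Z (W \ N v) ≥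
(1 - 2 ∑_u ρ u) Z (W \ N v) ≥ (1/2) Z (W \ N v)` (`Finset.prod_one_sub_ge`-like: `∏ (1 - x_u) ≥ 1 - ∑ x_u` for
`0 ≤ x_u ≤ 1`), so `Z (insert v W) ≥ Z W - 2 ρ v Z W`, and `1 - 2 ρ v ≥ 1/2 > 0`.
Finally: if `S` is independent then `T ⊇ S`, `T ⊆ U` is independent iff `T = S ∪ T'`, `T' ⊆ U \ S` independent
without neighbours of elements of `S`; so `mu S = ∏_S ρ * Z (U \ (S ∪ N S)) ≥ 0`; if `S` is not
independent `mu S = 0`. -/
theorem mu_nonneg {α : Type} [DecidableEq α] (U : Finset α) (adj : α → α → Prop) (ρ : α → ℝ)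
    (hsymm : ∀ s t, adj s t → adj t s) (hirr : ∀ s, ¬ adj s s)
    (hρ : ∀ s, 0 ≤ ρ s ∧ ρ s ≤ 1 / 4)
    (hN : ∀ v ∈ U, ∀ T ⊆ U, (∀ u ∈ T, adj v u) → ∑ u ∈ T, ρ u ≤ 1 / 4)
    (S : Finset α) (hS : S ⊆ U) : 0 ≤ mu U adj ρ S := by
  classical
  have h1 : mu U adj ρ S = ∑ T ∈ (U \ S).powerset, (-1 : ℝ) ^ T.card * wt adj ρ (S ∪ T) := by
    unfold mu
    symm
    apply sum_bij' (fun T _ => S ∪ T) (fun T _ => T \ S)
    · intro T hT
      rw [mem_powerset] at hT
      rw [mem_filter, mem_powerset]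
      exact ⟨union_subset hS (hT.trans sdiff_subset), subset_union_left⟩
    · intro T hT
      rw [mem_filter, mem_powerset] at hT
      rw [mem_powerset]
      exact sdiff_subset_sdiff hT.1 (Subset.refl _)
    · intro T hT
      rw [mem_powerset] at hT
      have hd : Disjoint S T := disjoint_of_subset_right hT disjoint_sdiff
      show (S ∪ T) \ S = T
      rw [union_sdiff_cancel_left hd]
    · intro T hT
      rw [mem_filter, mem_powerset] at hT
      exact union_sdiff_of_subset hT.2
    · intro T hT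
      rw [mem_powerset] at hT
      have hd : Disjoint S T := disjoint_of_subset_right hT disjoint_sdiff
      rw [union_sdiff_cancel_left hd]
  rw [h1, a2_key adj ρ hsymm S (U \ S) disjoint_sdiff]
  apply mul_nonneg
  · unfold wt
    split_ifs
    · exact prod_nonneg (fun i _ => (hρ i).1)
    · exact le_refl _
  · exact (a2_claim U adj ρ hsymm hirr hρ hN _ _
      ((filter_subset _ _).trans sdiff_subset) rfl).1.le

end Pool.MP_92ef0c_nt.SH
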